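import Mathlib

/-! Definitions for the value of the problem `(P_μ)` on the unit cube. -/

namespace Pool.Agent.MP_478eab_an.V

open MeasureTheory

/-- The closed unit cube `[0,1]^n`; it has volume one, so integrals over it are means. -/
def cube (n : ℕ) : Set (Fin n → ℝ) := Set.Icc 0 1

/-- The derivative of `f` in the direction of the `i`-th coordinate. -/
noncomputable def pd {n : ℕ} (i : Fin n) (f : (Fin n → ℝ) → ℝ) (x : Fin n → ℝ) : ℝ :=
  fderiv ℝ f x (Pi.single i 1)

/-- Admissible resource distributions: measurable, between `0` and `κ` a.e., with mean `m₀`. -/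
def Adm {n : ℕ} (κ m₀ : ℝ) (m : (Fin n → ℝ) → ℝ) : Prop :=
  AEMeasurable m (volume.restrict (cube n)) ∧
    (∀ᵐ x ∂(volume.restrict (cube n)), 0 ≤ m x ∧ m x ≤ κ) ∧ ∫ x in cube n, m x = m₀

/-- `θ` is a positive `C¹` solution of `μ Δθ + θ (m - θ) = 0` with Neumann boundary condition,
in the weak form (all `C¹` test functions, no boundary condition on them). -/
def IsSol {n : ℕ} (μ : ℝ) (m θ : (Fin n → ℝ) → ℝ) : Prop :=
  ContDiff ℝ 1 θ ∧ (∀ x ∈ cube n, 0 < θ x) ∧
    ∀ ψ : (Fin n → ℝ) → ℝ, ContDiff ℝ 1 ψ →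
      μ * ∫ x in cube n, ∑ i, pd i θ x * pd i ψ x = ∫ x in cube n, θ x * (m x - θ x) * ψ x

/-- The order of the optimal ratio population / resource for small diffusivity. -/
noncomputable def Phi (n : ℕ) (t : ℝ) : ℝ :=
  if n = 2 then Real.log t ^ 2
  else if n = 3 then t ^ ((1 : ℝ) / 3)
  else if n = 4 then Real.sqrt (t / Real.log t)
  else Real.sqrt t

/-- The order of the critical diffusivity divided by `m₀`. -/
noncomputable def Psi (n : ℕ) (t : ℝ) : ℝ :=
  if n = 2 then Real.log t else t ^ (1 - (2 : ℝ) / n)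

end Pool.Agent.MP_478eab_an.V
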