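import Mathlib
import Pool.Agent.MP_478eab_an.V.Defs

/-! Calculus layer: coordinate derivatives, locally bounded functions, truncations. -/

namespace Pool.Agent.MP_478eab_an.V

open MeasureTheory Set Filter Topology

variable {n : ℕ}

/-- squared Euclidean norm -/
def nsq (y : Fin n → ℝ) : ℝ := ∑ i, y i ^ 2

/-- squared gradient -/
noncomputable def gs (f : (Fin n → ℝ) → ℝ) (x : Fin n → ℝ) : ℝ := ∑ i, pd i f x ^ 2

theorem nsq_nonneg (y : Fin n → ℝ) : 0 ≤ nsq y := Finset.sum_nonneg fun _ _ => sq_nonneg _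

theorem sq_le_nsq (y : Fin n → ℝ) (i : Fin n) : y i ^ 2 ≤ nsq y :=
  Finset.single_le_sum (f := fun i => y i ^ 2) (fun _ _ => sq_nonneg _) (Finset.mem_univ i)

theorem gs_nonneg (f : (Fin n → ℝ) → ℝ) (x : Fin n → ℝ) : 0 ≤ gs f x :=
  Finset.sum_nonneg fun _ _ => sq_nonneg _

theorem sq_pd_le_gs (f : (Fin n → ℝ) → ℝ) (x : Fin n → ℝ) (i : Fin n) : pd i f x ^ 2 ≤ gs f x :=
  Finset.single_le_sum (f := fun i => pd i f x ^ 2) (fun _ _ => sq_nonneg _) (Finset.mem_univ i)

theorem cd_diff {f : (Fin n → ℝ) → ℝ} (hf : ContDiff ℝ 1 f) : Differentiable ℝ f :=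
  hf.differentiable one_ne_zero

theorem pd_of_has {f : (Fin n → ℝ) → ℝ} {x : Fin n → ℝ} {L : (Fin n → ℝ) →L[ℝ] ℝ}
    (h : HasFDerivAt f L x) (i : Fin n) : pd i f x = L (Pi.single i 1) := by
  unfold pd; rw [h.fderiv]

theorem pd_continuous {f : (Fin n → ℝ) → ℝ} (hf : ContDiff ℝ 1 f) (i : Fin n) :
    Continuous (pd i f) := by
  unfold pd
  exact (hf.continuous_fderiv one_ne_zero).clm_apply continuous_const

theorem gs_continuous {f : (Fin n → ℝ) → ℝ} (hf : ContDiff ℝ 1 f) : Continuous (gs f) := by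
  unfold gs
  exact continuous_finsetSum _ fun i _ => (pd_continuous hf i).pow 2

theorem pd_const (i : Fin n) (c : ℝ) (x : Fin n → ℝ) : pd i (fun _ => c) x = 0 := by
  simp [pd]

theorem pd_mul {f g : (Fin n → ℝ) → ℝ} {x : Fin n → ℝ} (hf : DifferentiableAt ℝ f x)
    (hg : DifferentiableAt ℝ g x) (i : Fin n) :
    pd i (fun y => f y * g y) x = pd i f x * g x + f x * pd i g x := by
  rw [pd_of_has (hf.hasFDerivAt.fun_mul hg.hasFDerivAt)]
  simp [pd]; ring

theorem pd_add {f g : (Fin n → ℝ) → ℝ} {x : Fin n → ℝ} (hf : DifferentiableAt ℝ f x)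
    (hg : DifferentiableAt ℝ g x) (i : Fin n) :
    pd i (fun y => f y + g y) x = pd i f x + pd i g x := by
  rw [pd_of_has (hf.hasFDerivAt.fun_add hg.hasFDerivAt)]
  simp [pd]

theorem pd_comp {f : (Fin n → ℝ) → ℝ} {g : ℝ → ℝ} {g' : ℝ} {x : Fin n → ℝ}
    (hg : HasDerivAt g g' (f x)) (hf : DifferentiableAt ℝ f x) (i : Fin n) :
    pd i (fun y => g (f y)) x = g' * pd i f x := by
  have := hg.comp_hasFDerivAt x hf.hasFDerivAt
  rw [show (fun y => g (f y)) = g ∘ f from rfl, pd_of_has this]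
  simp [pd]

theorem gs_comp {f : (Fin n → ℝ) → ℝ} {g : ℝ → ℝ} {g' : ℝ} {x : Fin n → ℝ}
    (hg : HasDerivAt g g' (f x)) (hf : DifferentiableAt ℝ f x) :
    gs (fun y => g (f y)) x = g' ^ 2 * gs f x := by
  unfold gs
  rw [Finset.mul_sum]
  exact Finset.sum_congr rfl fun i _ => by rw [pd_comp hg hf]; ring

theorem gs_mul_le {f g : (Fin n → ℝ) → ℝ} {x : Fin n → ℝ} (hf : DifferentiableAt ℝ f x)
    (hg : DifferentiableAt ℝ g x) :
    gs (fun y => f y * g y) x ≤ 2 * g x ^ 2 * gs f x + 2 * f x ^ 2 * gs g x := by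
  unfold gs
  rw [Finset.mul_sum, Finset.mul_sum, ← Finset.sum_add_distrib]
  refine Finset.sum_le_sum fun i _ => ?_
  rw [pd_mul hf hg]
  nlinarith [sq_nonneg (pd i f x * g x - f x * pd i g x)]

theorem gs_mul_ge {f g : (Fin n → ℝ) → ℝ} {x : Fin n → ℝ} (hf : DifferentiableAt ℝ f x)
    (hg : DifferentiableAt ℝ g x) :
    g x ^ 2 * gs f x ≤ 2 * gs (fun y => f y * g y) x + 2 * f x ^ 2 * gs g x := by
  unfold gs
  rw [Finset.mul_sum, Finset.mul_sum, Finset.mul_sum, ← Finset.sum_add_distrib]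
  refine Finset.sum_le_sum fun i _ => ?_
  rw [pd_mul hf hg]
  nlinarith [sq_nonneg (pd i f x * g x + 2 * (f x * pd i g x))]

theorem fderiv_eq_sum (f : (Fin n → ℝ) → ℝ) (x v : Fin n → ℝ) :
    fderiv ℝ f x v = ∑ i, v i * pd i f x := by
  have : v = ∑ i, v i • (Pi.single i (1 : ℝ) : Fin n → ℝ) := by
    funext j; simp [Finset.sum_apply, Pi.single_apply]
  conv_lhs => rw [this]
  rw [map_sum]
  simp [pd]

theorem hasDerivAt_update_pd {f : (Fin n → ℝ) → ℝ} {x : Fin n → ℝ} {i : Fin n} {t : ℝ}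
    (hf : DifferentiableAt ℝ f (Function.update x i t)) :
    HasDerivAt (fun s => f (Function.update x i s)) (pd i f (Function.update x i t)) t := by
  have h1 := hasDerivAt_update x i t
  exact hf.hasFDerivAt.comp_hasDerivAt t h1

/-- measurable and bounded on compact sets -/
def LB (f : (Fin n → ℝ) → ℝ) : Prop :=
  Measurable f ∧ ∀ K, IsCompact K → ∃ C, ∀ x ∈ K, |f x| ≤ C

theorem LB.of_cont {f : (Fin n → ℝ) → ℝ} (hf : Continuous f) : LB f :=
  ⟨hf.measurable, fun K hK => by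
    obtain ⟨C, hC⟩ := hK.exists_bound_of_continuousOn hf.continuousOn
    exact ⟨C, fun x hx => by simpa using hC x hx⟩⟩

theorem LB.of_bound {f : (Fin n → ℝ) → ℝ} (hf : Measurable f) {C : ℝ} (h : ∀ x, |f x| ≤ C) :
    LB f := ⟨hf, fun _ _ => ⟨C, fun x _ => h x⟩⟩

theorem LB.const (c : ℝ) : LB (fun _ : Fin n → ℝ => c) := LB.of_cont continuous_const

theorem LB.add {f g : (Fin n → ℝ) → ℝ} (hf : LB f) (hg : LB g) : LB (fun x => f x + g x) :=
  ⟨hf.1.add hg.1, fun K hK => by
    obtain ⟨C, hC⟩ := hf.2 K hK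
    obtain ⟨D, hD⟩ := hg.2 K hK
    exact ⟨C + D, fun x hx => (abs_add_le _ _).trans (add_le_add (hC x hx) (hD x hx))⟩⟩

theorem LB.mul {f g : (Fin n → ℝ) → ℝ} (hf : LB f) (hg : LB g) : LB (fun x => f x * g x) :=
  ⟨hf.1.mul hg.1, fun K hK => by
    obtain ⟨C, hC⟩ := hf.2 K hK
    obtain ⟨D, hD⟩ := hg.2 K hK
    exact ⟨C * D, fun x hx => by
      rw [abs_mul]
      exact mul_le_mul (hC x hx) (hD x hx) (abs_nonneg _) ((abs_nonneg _).trans (hC x hx))⟩⟩

theorem LB.cmul {f : (Fin n → ℝ) → ℝ} (c : ℝ) (hf : LB f) : LB (fun x => c * f x) :=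
  (LB.const c).mul hf

theorem LB.sub {f g : (Fin n → ℝ) → ℝ} (hf : LB f) (hg : LB g) : LB (fun x => f x - g x) := by
  have := hf.add (hg.cmul (-1))
  simpa [sub_eq_add_neg] using this

theorem LB.sq {f : (Fin n → ℝ) → ℝ} (hf : LB f) : LB (fun x => f x ^ 2) := by
  simpa [pow_two] using hf.mul hf

theorem LB.ind {S : Set (Fin n → ℝ)} (hS : MeasurableSet S) :
    LB (S.indicator (fun _ => (1 : ℝ))) :=
  LB.of_bound (measurable_const.indicator hS) (C := 1) fun x => by
    by_cases h : x ∈ S <;> simp [h]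

theorem LB.intOn {f : (Fin n → ℝ) → ℝ} (hf : LB f) {S K : Set (Fin n → ℝ)} (hK : IsCompact K)
    (hSK : S ⊆ K) : IntegrableOn f S := by
  obtain ⟨C, hC⟩ := hf.2 K hK
  refine IntegrableOn.mono_set ?_ hSK
  refine Measure.integrableOn_of_bounded (M := C) hK.measure_lt_top.ne
    hf.1.aestronglyMeasurable ?_
  exact (ae_restrict_iff' hK.measurableSet).2 (Eventually.of_forall fun x hx => by
    simpa using hC x hx)

theorem LB.box {f : (Fin n → ℝ) → ℝ} (hf : LB f) (I : BoxIntegral.Box (Fin n)) :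
    IntegrableOn f I := hf.intOn I.isCompact_Icc BoxIntegral.Box.coe_subset_Icc

theorem cube_compact : IsCompact (cube n) := isCompact_Icc

theorem cube_meas : MeasurableSet (cube n) := measurableSet_Icc

theorem LB.cube {f : (Fin n → ℝ) → ℝ} (hf : LB f) : IntegrableOn f (cube n) :=
  hf.intOn cube_compact subset_rfl

theorem int_cube_const (c : ℝ) : ∫ _ in cube n, c = c := by
  simp [cube, Measure.real, Real.volume_Icc_pi]

/-- Cauchy-Schwarz -/
theorem cs {α : Type*} [MeasurableSpace α] {ν : Measure α} {f g : α → ℝ}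
    (hf : Integrable (fun x => f x ^ 2) ν) (hg : Integrable (fun x => g x ^ 2) ν)
    (hfg : Integrable (fun x => f x * g x) ν) :
    (∫ x, f x * g x ∂ν) ^ 2 ≤ (∫ x, f x ^ 2 ∂ν) * ∫ x, g x ^ 2 ∂ν := by
  have h : ∀ t : ℝ, 0 ≤ (∫ x, f x ^ 2 ∂ν) * (t * t) + (-2 * ∫ x, f x * g x ∂ν) * t
      + ∫ x, g x ^ 2 ∂ν := by
    intro t
    have h0 : 0 ≤ ∫ x, (t * f x - g x) ^ 2 ∂ν := integral_nonneg fun x => sq_nonneg _
    have h1 : ∫ x, (t * f x - g x) ^ 2 ∂ν
        = ∫ x, ((t * t) * f x ^ 2 + (-2 * t) * (f x * g x) + g x ^ 2) ∂ν :=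
      integral_congr_ae (Eventually.of_forall fun x => by ring)
    have h2 : Integrable (fun x => (t * t) * f x ^ 2 + (-2 * t) * (f x * g x)) ν :=
      (hf.const_mul _).add (hfg.const_mul _)
    rw [h1, integral_add h2 hg,
      integral_add (hf.const_mul _) (hfg.const_mul _), integral_const_mul, integral_const_mul]
      at h0
    linarith
  have := discrim_le_zero h
  unfold discrim at this
  nlinarith

theorem lin3 {S : Set (Fin n → ℝ)} (hS : MeasurableSet S) {f g h k : (Fin n → ℝ) → ℝ}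
    (hf : IntegrableOn f S) (hg : IntegrableOn g S) (hh : IntegrableOn h S)
    (hk : IntegrableOn k S) {a b c : ℝ} (H : ∀ x ∈ S, f x ≤ a * g x + b * h x + c * k x) :
    ∫ x in S, f x ≤ a * (∫ x in S, g x) + b * (∫ x in S, h x) + c * ∫ x in S, k x := by
  have h1 : Integrable (fun x => a * g x + b * h x) (volume.restrict S) :=
    (hg.const_mul _).add (hh.const_mul _)
  have h2 : IntegrableOn (fun x => a * g x + b * h x + c * k x) S := h1.add (hk.const_mul _)
  refine (setIntegral_mono_on hf h2 hS H).trans_eq ?_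
  rw [integral_add h1 (hk.const_mul _), integral_add (hg.const_mul _) (hh.const_mul _),
    integral_const_mul, integral_const_mul, integral_const_mul]

theorem lin2 {S : Set (Fin n → ℝ)} (hS : MeasurableSet S) {f g h : (Fin n → ℝ) → ℝ}
    (hf : IntegrableOn f S) (hg : IntegrableOn g S) (hh : IntegrableOn h S)
    {a b : ℝ} (H : ∀ x ∈ S, f x ≤ a * g x + b * h x) :
    ∫ x in S, f x ≤ a * (∫ x in S, g x) + b * (∫ x in S, h x) := by
  have := lin3 hS hf hg hh hh (a := a) (b := b) (c := 0) fun x hx => by simpa using H x hx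
  simpa using this

theorem lin1 {S : Set (Fin n → ℝ)} (hS : MeasurableSet S) {f g : (Fin n → ℝ) → ℝ}
    (hf : IntegrableOn f S) (hg : IntegrableOn g S)
    {a : ℝ} (H : ∀ x ∈ S, f x ≤ a * g x) :
    ∫ x in S, f x ≤ a * (∫ x in S, g x) := by
  have := lin2 hS hf hg hg (a := a) (b := 0) fun x hx => by simpa using H x hx
  simpa using this

theorem eq2 {S : Set (Fin n → ℝ)} {f g h : (Fin n → ℝ) → ℝ}
    (hg : IntegrableOn g S) (hh : IntegrableOn h S)
    {a b : ℝ} (H : ∀ x, f x = a * g x + b * h x) :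
    ∫ x in S, f x = a * (∫ x in S, g x) + b * (∫ x in S, h x) := by
  rw [show f = fun x => a * g x + b * h x from funext H,
    integral_add (hg.const_mul _) (hh.const_mul _), integral_const_mul, integral_const_mul]

/-- positive part to a power -/
noncomputable def pp (γ x : ℝ) : ℝ := (max x 0) ^ γ

theorem pp_nonneg (γ x : ℝ) : 0 ≤ pp γ x := Real.rpow_nonneg (le_max_right _ _) _

theorem pp_hasDeriv {γ : ℝ} (hγ : 1 < γ) (x : ℝ) :
    HasDerivAt (pp γ) (γ * pp (γ - 1) x) x := by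
  have hγ0 : γ ≠ 0 := by linarith
  have hγ1 : γ - 1 ≠ 0 := by linarith
  rcases lt_trichotomy x 0 with hx | hx | hx
  · have h : pp γ =ᶠ[𝓝 x] fun _ => 0 := by
      filter_upwards [Iio_mem_nhds hx] with y hy
      simp [pp, max_eq_right (le_of_lt (mem_Iio.1 hy)), Real.zero_rpow hγ0]
    have : γ * pp (γ - 1) x = 0 := by simp [pp, max_eq_right hx.le, Real.zero_rpow hγ1]
    rw [this]
    exact (hasDerivAt_const x (0 : ℝ)).congr_of_eventuallyEq h
  · subst hx
    have : γ * pp (γ - 1) 0 = 0 := by simp [pp, Real.zero_rpow hγ1]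
    rw [this]
    have h := hasDerivAt_abs_rpow 0 hγ
    rw [hasDerivAt_iff_isLittleO] at h ⊢
    simp only [abs_zero, Real.zero_rpow hγ0, sub_zero, mul_zero, smul_zero] at h
    simp only [pp, max_self, Real.zero_rpow hγ0, sub_zero, smul_zero]
    refine Asymptotics.IsBigO.trans_isLittleO (Asymptotics.IsBigO.of_bound 1 ?_) h
    refine Eventually.of_forall fun y => ?_
    rw [one_mul, Real.norm_of_nonneg (Real.rpow_nonneg (le_max_right _ _) _),
      Real.norm_of_nonneg (Real.rpow_nonneg (abs_nonneg _) _)]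
    exact Real.rpow_le_rpow (le_max_right _ _) (max_le (le_abs_self y) (abs_nonneg y))
      (by linarith)
  · have h : pp γ =ᶠ[𝓝 x] fun y => y ^ γ := by
      filter_upwards [Ioi_mem_nhds hx] with y hy
      simp [pp, max_eq_left (le_of_lt (mem_Ioi.1 hy))]
    have : γ * pp (γ - 1) x = γ * x ^ (γ - 1) := by simp [pp, max_eq_left hx.le]
    rw [this]
    exact (Real.hasDerivAt_rpow_const (Or.inl hx.ne')).congr_of_eventuallyEq h

theorem pp_cont {γ : ℝ} (hγ : 0 ≤ γ) : Continuous (pp γ) :=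
  (continuous_id.max continuous_const).rpow_const fun _ => Or.inr hγ

theorem cd_of_hasDeriv {g g' : ℝ → ℝ} (h : ∀ x, HasDerivAt g (g' x) x) (hc : Continuous g') :
    ContDiff ℝ 1 g := by
  rw [contDiff_one_iff_deriv]
  refine ⟨fun x => (h x).differentiableAt, ?_⟩
  have : deriv g = g' := funext fun x => (h x).deriv
  rwa [this]

theorem pp_cd {γ : ℝ} (hγ : 1 < γ) : ContDiff ℝ 1 (pp γ) :=
  cd_of_hasDeriv (pp_hasDeriv hγ) (continuous_const.mul (pp_cont (by linarith)))

/-- a `C¹` step function -/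
theorem exists_step : ∃ g g' : ℝ → ℝ, (∀ x, HasDerivAt g (g' x) x) ∧ Continuous g' ∧
    (∀ x, 0 ≤ g x ∧ g x ≤ 1) ∧ (∀ x, x ≤ 0 → g x = 0) ∧ (∀ x, 1 ≤ x → g x = 1) ∧
    (∀ x, g' x ^ 2 ≤ 4) ∧ (∀ x, x ≤ 0 → g' x = 0) ∧ (∀ x, 1 ≤ x → g' x = 0) := by
  have h2 : ∀ x : ℝ, pp 2 x = (max x 0) ^ 2 := fun x => by simp [pp]
  have h1 : ∀ x : ℝ, pp (2 - 1) x = max x 0 := fun x => by
    rw [show (2 : ℝ) - 1 = 1 by norm_num]; simp [pp]
  refine ⟨fun x => 2 * (pp 2 x - 2 * pp 2 (x - 1 / 2) + pp 2 (x - 1)),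
    fun x => 4 * (max x 0 - 2 * max (x - 1 / 2) 0 + max (x - 1) 0), fun x => ?_, by fun_prop,
    fun x => ?_, fun x hx => ?_, fun x hx => ?_, fun x => ?_, fun x hx => ?_, fun x hx => ?_⟩
  · have a := pp_hasDeriv one_lt_two x
    have b := (pp_hasDeriv one_lt_two (x - 1 / 2)).comp_sub_const x (1 / 2)
    have c := (pp_hasDeriv one_lt_two (x - 1)).comp_sub_const x 1
    have := ((a.sub (b.const_mul 2)).add c).const_mul 2
    rw [h1, h1, h1] at this
    exact this.congr_deriv (by ring)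
  · simp only [h2]
    rcases le_total x 0 with h | h
    · rw [max_eq_right h, max_eq_right (by linarith), max_eq_right (by linarith)]; norm_num
    rcases le_total x (1 / 2) with h' | h'
    · rw [max_eq_left h, max_eq_right (by linarith), max_eq_right (by linarith)]
      constructor <;> nlinarith
    rcases le_total x 1 with h'' | h''
    · rw [max_eq_left h, max_eq_left (by linarith), max_eq_right (by linarith)]
      constructor <;> nlinarith
    · rw [max_eq_left h, max_eq_left (by linarith), max_eq_left (by linarith)]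
      constructor <;> nlinarith
  · simp only [h2]
    rw [max_eq_right hx, max_eq_right (by linarith), max_eq_right (by linarith)]; norm_num
  · simp only [h2]
    rw [max_eq_left (by linarith), max_eq_left (by linarith), max_eq_left (by linarith)]; ring
  · simp only
    rcases le_total x 0 with h | h
    · rw [max_eq_right h, max_eq_right (by linarith), max_eq_right (by linarith)]; norm_num
    rcases le_total x (1 / 2) with h' | h'
    · rw [max_eq_left h, max_eq_right (by linarith), max_eq_right (by linarith)]; nlinarith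
    rcases le_total x 1 with h'' | h''
    · rw [max_eq_left h, max_eq_left (by linarith), max_eq_right (by linarith)]; nlinarith
    · rw [max_eq_left h, max_eq_left (by linarith), max_eq_left (by linarith)]; nlinarith
  · simp only
    rw [max_eq_right hx, max_eq_right (by linarith), max_eq_right (by linarith)]; norm_num
  · simp only
    rw [max_eq_left (by linarith), max_eq_left (by linarith), max_eq_left (by linarith)]; ring

end Pool.Agent.MP_478eab_an.V
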