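import Mathlib
import Pool.Agent.MP_478eab_an.V.Calc

/-! A smooth distance to a finite set, and integrals of its negative powers. -/

namespace Pool.Agent.MP_478eab_an.V

open MeasureTheory Set Filter Topology

variable {n : ℕ}

theorem nsq_cd (p : Fin n → ℝ) : ContDiff ℝ 1 fun x : Fin n → ℝ => nsq (x - p) := by
  unfold nsq
  exact ContDiff.sum fun i _ => ((contDiff_apply ℝ ℝ i).sub contDiff_const).pow 2

theorem pd_sum {ι : Type*} (s : Finset ι) {f : ι → (Fin n → ℝ) → ℝ} {x : Fin n → ℝ}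
    (hf : ∀ j ∈ s, DifferentiableAt ℝ (f j) x) (i : Fin n) :
    pd i (fun y => ∑ j ∈ s, f j y) x = ∑ j ∈ s, pd i (f j) x := by
  rw [pd_of_has (HasFDerivAt.fun_sum fun j hj => (hf j hj).hasFDerivAt)]
  simp [pd]

theorem pd_coord (i j : Fin n) (x : Fin n → ℝ) :
    pd i (fun y : Fin n → ℝ => y j) x = if j = i then 1 else 0 := by
  rw [pd_of_has (hasFDerivAt_apply j x)]
  simp [Pi.single_apply]

theorem pd_nsq (p x : Fin n → ℝ) (i : Fin n) :
    pd i (fun y => nsq (y - p)) x = 2 * (x i - p i) := by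
  unfold nsq
  rw [pd_sum Finset.univ (f := fun (j : Fin n) (y : Fin n → ℝ) => (y - p) j ^ 2) (x := x)
    fun j _ => by simp only [Pi.sub_apply]; fun_prop]
  have : ∀ j, pd i (fun y : Fin n → ℝ => (y - p) j ^ 2) x
      = if j = i then 2 * (x j - p j) else 0 := fun j => by
    have h : HasDerivAt (fun s : ℝ => (s - p j) ^ 2) (2 * (x j - p j)) (x j) := by
      simpa using ((hasDerivAt_id (x j)).sub_const (p j)).fun_pow 2
    have := pd_comp (f := fun y : Fin n → ℝ => y j) h (differentiableAt_apply j x) i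
    rw [pd_coord] at this
    simpa using this
  simp only [this]
  simp

theorem norm_sq_le_nsq (y : Fin n → ℝ) : ‖y‖ ^ 2 ≤ nsq y := by
  have : ‖y‖ ≤ √(nsq y) := (pi_norm_le_iff_of_nonneg (Real.sqrt_nonneg _)).2 fun i =>
    Real.abs_le_sqrt (sq_le_nsq y i)
  calc ‖y‖ ^ 2 ≤ √(nsq y) ^ 2 := pow_le_pow_left₀ (norm_nonneg _) this 2
    _ = nsq y := Real.sq_sqrt (nsq_nonneg y)

theorem exists_dist (P : Finset (Fin n → ℝ)) {ε R : ℝ} (hε : 0 < ε) (hR : 0 < R) :
    ∃ D : (Fin n → ℝ) → ℝ, ContDiff ℝ 1 D ∧ (∀ x, 0 < D x) ∧ (∀ x, D x ^ 2 ≤ R ^ 2) ∧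
      (∀ p ∈ P, ∀ x, D x ^ 2 ≤ ε ^ 2 + nsq (x - p)) ∧ (∀ x, gs D x ≤ n) ∧
      ∀ s t : ℕ, s + t = 3 → ∀ x, 1 / (D x ^ 2) ^ s ≤ 1 / (R ^ 2) ^ s +
        ∑ p ∈ P, min (1 / (ε ^ 2 + nsq (x - p)) ^ s) ((R ^ 2) ^ t / (ε ^ 2 + nsq (x - p)) ^ 3) := by
  have q0 : ∀ p x : Fin n → ℝ, 0 < ε ^ 2 + nsq (x - p) := fun p x => by
    linarith [nsq_nonneg (x - p), pow_pos hε 2]
  have qc : ∀ p : Fin n → ℝ, ContDiff ℝ 1 fun x => ε ^ 2 + nsq (x - p) := fun p =>
    contDiff_const.add (nsq_cd p)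
  have kc : ∀ p : Fin n → ℝ, ContDiff ℝ 1 fun x => 1 / (ε ^ 2 + nsq (x - p)) ^ 3 := fun p =>
    contDiff_const.div ((qc p).pow 3) fun x => (pow_pos (q0 p x) 3).ne'
  set T : (Fin n → ℝ) → ℝ := fun x => 1 / (R ^ 2) ^ 3 + ∑ p ∈ P, 1 / (ε ^ 2 + nsq (x - p)) ^ 3
    with hT
  have Sc : ContDiff ℝ 1 fun x => ∑ p ∈ P, 1 / (ε ^ 2 + nsq (x - p)) ^ 3 :=
    ContDiff.sum fun p _ => kc p
  have Tc : ContDiff ℝ 1 T := contDiff_const.add Sc
  have S0 : ∀ x, 0 ≤ ∑ p ∈ P, 1 / (ε ^ 2 + nsq (x - p)) ^ 3 := fun x =>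
    Finset.sum_nonneg fun p _ => by have := q0 p x; positivity
  have R3 : 0 < 1 / (R ^ 2) ^ 3 := by positivity
  have T0 : ∀ x, 0 < T x := fun x => add_pos_of_pos_of_nonneg R3 (S0 x)
  set D : (Fin n → ℝ) → ℝ := fun x => T x ^ (-(1 / 6) : ℝ) with hD
  have D0 : ∀ x, 0 < D x := fun x => Real.rpow_pos_of_pos (T0 x) _
  have DT : ∀ x, (D x ^ 2) ^ 3 * T x = 1 := fun x => by
    rw [← pow_mul, hD]
    simp only
    rw [← Real.rpow_natCast, ← Real.rpow_mul (T0 x).le]
    norm_num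
    rw [Real.rpow_neg_one, inv_mul_cancel₀ (T0 x).ne']
  have cube3 : ∀ x, ∀ b : ℝ, 0 < b → 1 / b ^ 3 ≤ T x → D x ^ 2 ≤ b := fun x b hb h => by
    refine le_of_pow_le_pow_left₀ (n := 3) (by norm_num) hb.le ?_
    have a := mul_le_mul_of_nonneg_left h (show 0 ≤ (D x ^ 2) ^ 3 by positivity)
    rw [DT, mul_one_div, div_le_one (by positivity)] at a
    exact a
  have DR : ∀ x, D x ^ 2 ≤ R ^ 2 := fun x =>
    cube3 x _ (by positivity) (le_add_of_nonneg_right (S0 x))
  have Dq : ∀ p ∈ P, ∀ x, D x ^ 2 ≤ ε ^ 2 + nsq (x - p) := fun p hp x =>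
    cube3 x _ (q0 p x) (le_add_of_nonneg_of_le R3.le (Finset.single_le_sum
      (f := fun p => 1 / (ε ^ 2 + nsq (x - p)) ^ 3)
      (fun p _ => by have := q0 p x; positivity) hp))
  refine ⟨D, Tc.rpow_const_of_ne fun x => (T0 x).ne', D0, DR, Dq, fun x => ?_, ?_⟩
  · have h1 : ∀ i, pd i D x ^ 2 ≤ 1 := fun i => by
      have e1 : pd i D x = -(1 / 6) * T x ^ (-(1 / 6) - 1 : ℝ) * pd i T x :=
        pd_comp (g := fun y => y ^ (-(1 / 6) : ℝ))
          (Real.hasDerivAt_rpow_const (Or.inl (T0 x).ne')) (cd_diff Tc x) i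
      have e2 : T x ^ (-(1 / 6) - 1 : ℝ) = D x / T x := by
        rw [Real.rpow_sub (T0 x), Real.rpow_one]
      have e3 : pd i T x = ∑ p ∈ P, -3 / (ε ^ 2 + nsq (x - p)) ^ 4 * (2 * (x i - p i)) := by
        rw [hT, pd_add (differentiableAt_const _) (cd_diff Sc x), pd_const, zero_add,
          pd_sum _ fun p _ => cd_diff (kc p) x]
        refine Finset.sum_congr rfl fun p _ => ?_
        have hq := (q0 p x).ne'
        have h : HasDerivAt (fun y : ℝ => 1 / y ^ 3) (-3 / (ε ^ 2 + nsq (x - p)) ^ 4)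
            (ε ^ 2 + nsq (x - p)) := by
          have := (hasDerivAt_const (ε ^ 2 + nsq (x - p)) (1 : ℝ)).fun_div
            (hasDerivAt_pow 3 (ε ^ 2 + nsq (x - p))) (pow_ne_zero 3 hq)
          refine this.congr_deriv ?_
          field_simp; ring
        rw [pd_comp h (cd_diff (qc p) x), pd_add (differentiableAt_const _) (cd_diff (nsq_cd p) x),
          pd_const, zero_add, pd_nsq]
      have h2 : D x * |pd i T x| ≤ 6 * T x := by
        rw [e3]
        refine (mul_le_mul_of_nonneg_left (Finset.abs_sum_le_sum_abs _ _) (D0 x).le).trans ?_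
        rw [Finset.mul_sum]
        refine le_trans (Finset.sum_le_sum (g := fun p => 6 * (1 / (ε ^ 2 + nsq (x - p)) ^ 3))
          fun p hp => ?_) ?_
        · have hq := q0 p x
          have a1 := Dq p hp x
          have a2 : |x i - p i| ^ 2 ≤ ε ^ 2 + nsq (x - p) := by
            rw [sq_abs]; linarith [sq_le_nsq (x - p) i, Pi.sub_apply x p i ▸ sq_le_nsq (x - p) i,
              pow_pos hε 2]
          have a3 : D x * |x i - p i| ≤ ε ^ 2 + nsq (x - p) := by
            nlinarith [sq_nonneg (D x - |x i - p i|)]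
          rw [abs_mul, abs_mul, abs_div, abs_of_pos (pow_pos hq 4)]
          norm_num
          calc D x * (3 / (ε ^ 2 + nsq (x - p)) ^ 4 * (2 * |x i - p i|))
              = 6 / (ε ^ 2 + nsq (x - p)) ^ 4 * (D x * |x i - p i|) := by ring
            _ ≤ 6 / (ε ^ 2 + nsq (x - p)) ^ 4 * (ε ^ 2 + nsq (x - p)) :=
              mul_le_mul_of_nonneg_left a3 (by positivity)
            _ = _ := by field_simp
        · rw [← Finset.mul_sum]
          exact mul_le_mul_of_nonneg_left (le_add_of_nonneg_left R3.le) (by norm_num)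
      have h3 : |pd i D x| ≤ 1 := by
        rw [e1, e2, abs_mul, abs_mul, abs_of_pos (div_pos (D0 x) (T0 x))]
        have := T0 x
        calc |(-(1 / 6) : ℝ)| * (D x / T x) * |pd i T x| = D x * |pd i T x| / (6 * T x) := by
              rw [abs_neg, abs_of_pos (by norm_num : (0 : ℝ) < 1 / 6)]; field_simp
          _ ≤ 1 := (div_le_one (by positivity)).2 h2
      rw [← sq_abs]
      exact pow_le_one₀ (abs_nonneg _) h3
    calc gs D x ≤ ∑ _i : Fin n, (1 : ℝ) := Finset.sum_le_sum fun i _ => h1 i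
      _ = n := by simp
  · intro s t hst x
    have d0 : 0 < D x ^ 2 := pow_pos (D0 x) 2
    have e : 1 / (D x ^ 2) ^ s = (D x ^ 2) ^ t * T x := by
      rw [div_eq_iff (by positivity), ← DT x, ← hst]; ring
    rw [e, hT]
    simp only
    rw [mul_add, Finset.mul_sum]
    refine add_le_add ?_ (Finset.sum_le_sum fun p hp => le_min ?_ ?_)
    · calc (D x ^ 2) ^ t * (1 / (R ^ 2) ^ 3) ≤ (R ^ 2) ^ t * (1 / (R ^ 2) ^ 3) :=
            mul_le_mul_of_nonneg_right (pow_le_pow_left₀ d0.le (DR x) t) R3.le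
        _ = _ := by rw [← hst, pow_add]; field_simp
    · have hq := q0 p x
      calc (D x ^ 2) ^ t * (1 / (ε ^ 2 + nsq (x - p)) ^ 3)
          ≤ (ε ^ 2 + nsq (x - p)) ^ t * (1 / (ε ^ 2 + nsq (x - p)) ^ 3) := by
            gcongr; exact Dq p hp x
        _ = _ := by rw [← hst, pow_add]; field_simp
    · have hq := q0 p x
      rw [mul_one_div]
      exact div_le_div_of_nonneg_right (pow_le_pow_left₀ d0.le (DR x) t) (by positivity)

theorem shell {φ : (Fin n → ℝ) → ℝ} (hφ : LB φ) {p : Fin n → ℝ} (hp : p ∈ cube n) {ε : ℝ}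
    (hε : 0 < ε) {c : ℕ → ℝ} (c0 : ∀ j, 0 ≤ c j) {J : ℕ} (hJ : 1 ≤ 2 ^ J * ε)
    (H : ∀ j x, (2 ^ j * ε / 2) ^ 2 ≤ ε ^ 2 + nsq (x - p) → φ x ≤ c j) :
    ∫ x in cube n, φ x ≤ ∑ j ∈ Finset.range (J + 1), c j * (2 * (2 ^ j * ε)) ^ n := by
  classical
  have lb : ∀ j, LB fun x => c j * (Metric.closedBall p (2 ^ j * ε)).indicator
      (fun _ => (1 : ℝ)) x := fun j => (LB.ind Metric.isClosed_closedBall.measurableSet).cmul _
  have h1 : ∫ x in cube n, φ x ≤ ∫ x in cube n, ∑ j ∈ Finset.range (J + 1),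
      c j * (Metric.closedBall p (2 ^ j * ε)).indicator (fun _ => (1 : ℝ)) x := by
    refine setIntegral_mono_on hφ.cube (integrable_finsetSum _ fun j _ => (lb j).cube) cube_meas
      fun x hx => ?_
    have hx1 : ‖x - p‖ ≤ 2 ^ J * ε := by
      refine le_trans ((pi_norm_le_iff_of_nonneg zero_le_one).2 fun i => ?_) hJ
      have := hx.1 i; have := hx.2 i; have := hp.1 i; have := hp.2 i
      simp only [Pi.zero_apply, Pi.one_apply] at *
      rw [Pi.sub_apply, Real.norm_eq_abs, abs_le]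
      constructor <;> linarith
    have ex : ∃ j : ℕ, ‖x - p‖ ≤ 2 ^ j * ε := ⟨J, hx1⟩
    have hj := Nat.find_spec ex
    have hjJ : Nat.find ex ≤ J := Nat.find_min' ex hx1
    have hq : (2 ^ Nat.find ex * ε / 2) ^ 2 ≤ ε ^ 2 + nsq (x - p) := by
      rcases Nat.eq_zero_or_eq_succ_pred (Nat.find ex) with h | h
      · rw [h]; nlinarith [nsq_nonneg (x - p), pow_pos hε 2]
      · have a := not_le.1 (Nat.find_min ex (m := (Nat.find ex).pred) (by rw [h]; simp))
        rw [h, Nat.succ_eq_add_one, show (2 : ℝ) ^ ((Nat.find ex).pred + 1) * ε / 2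
          = 2 ^ (Nat.find ex).pred * ε by ring]
        have b := pow_le_pow_left₀ (by positivity) a.le 2
        have := norm_sq_le_nsq (x - p)
        linarith [pow_pos hε 2]
    refine (H _ x hq).trans (le_trans ?_ (Finset.single_le_sum
      (f := fun j => c j * (Metric.closedBall p (2 ^ j * ε)).indicator (fun _ => (1 : ℝ)) x)
      (fun j _ => mul_nonneg (c0 j) (indicator_nonneg (fun _ _ => zero_le_one) x))
      (Finset.mem_range.2 (Nat.lt_succ_of_le hjJ))))
    rw [indicator_of_mem (by rwa [Metric.mem_closedBall, dist_eq_norm]), mul_one]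
  refine h1.trans ?_
  rw [integral_finsetSum _ fun j _ => (lb j).cube]
  refine Finset.sum_le_sum fun j _ => ?_
  rw [integral_const_mul]
  refine mul_le_mul_of_nonneg_left ?_ (c0 j)
  have hm : MeasurableSet (Metric.closedBall p (2 ^ j * ε)) :=
    Metric.isClosed_closedBall.measurableSet
  refine (setIntegral_le_integral ((integrable_indicator_iff hm).2 ((LB.const 1).intOn
    (isCompact_closedBall p (2 ^ j * ε)) subset_rfl))
    (Eventually.of_forall (indicator_nonneg fun _ _ => zero_le_one))).trans_eq ?_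
  rw [integral_indicator hm]
  simp [Measure.real, Real.volume_pi_closedBall p (show 0 ≤ 2 ^ j * ε by positivity)]
  positivity

theorem sum_log {A : ℝ} (hA : 0 ≤ A) (J : ℕ) :
    ∑ j ∈ Finset.range J, min 1 (A / 2 ^ j) ≤ 3 * Real.log (1 + 2 * A) := by
  have : ∑ j ∈ Finset.range J, min 1 (A / 2 ^ j)
      ≤ 3 * (Real.log (1 + 2 * A) - Real.log (1 + 2 * (A / 2 ^ J))) := by
    induction J with
    | zero => simp
    | succ J ih =>
      rw [Finset.sum_range_succ]
      have e : 2 * (A / 2 ^ (J + 1)) = A / 2 ^ J := by rw [pow_succ]; field_simp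
      rw [e]
      set x := A / 2 ^ J
      have x0 : 0 ≤ x := by positivity
      have h1 := Real.one_sub_inv_le_log_of_pos (show 0 < (1 + 2 * x) / (1 + x) by positivity)
      rw [Real.log_div (by positivity) (by positivity), inv_div] at h1
      have h2 : min 1 x ≤ 3 * (1 - (1 + x) / (1 + 2 * x)) := by
        rw [show 3 * (1 - (1 + x) / (1 + 2 * x)) = 3 * x / (1 + 2 * x) by field_simp; ring,
          le_div_iff₀ (by positivity)]
        rcases le_total 1 x with a | a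
        · rw [min_eq_left a]; linarith
        · rw [min_eq_right a]; nlinarith
      linarith
  have h := Real.log_nonneg (show 1 ≤ 1 + 2 * (A / 2 ^ J) by
    have : 0 ≤ A / 2 ^ J := by positivity
    linarith)
  linarith

theorem sum_lin {ε R : ℝ} (hε : 0 < ε) (hR : 0 < R) (J : ℕ) :
    ∑ j ∈ Finset.range J, min (2 ^ j * ε) (R ^ 2 / (2 ^ j * ε)) ≤ 6 * R := by
  have : ∑ j ∈ Finset.range J, min (2 ^ j * ε) (R ^ 2 / (2 ^ j * ε))
      ≤ 6 * (2 ^ J * ε * R / (2 ^ J * ε + R)) := by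
    induction J with
    | zero => simp; positivity
    | succ J ih =>
      rw [Finset.sum_range_succ, show (2 : ℝ) ^ (J + 1) * ε = 2 * (2 ^ J * ε) by ring]
      set r := 2 ^ J * ε
      have r0 : 0 < r := by positivity
      have h2 : min r (R ^ 2 / r) ≤ 6 * (2 * r * R / (2 * r + R) - r * R / (r + R)) := by
        rw [show 6 * (2 * r * R / (2 * r + R) - r * R / (r + R))
          = 6 * r * R ^ 2 / ((2 * r + R) * (r + R)) by field_simp; ring]
        rcases le_total r R with a | a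
        · refine (min_le_left _ _).trans ?_
          rw [le_div_iff₀ (by positivity)]
          have : (2 * r + R) * (r + R) ≤ 6 * R ^ 2 := by nlinarith
          nlinarith
        · refine (min_le_right _ _).trans ?_
          rw [div_le_div_iff₀ r0 (by positivity)]
          have : (2 * r + R) * (r + R) ≤ 6 * r ^ 2 := by nlinarith
          nlinarith [pow_pos hR 2]
      linarith
  refine this.trans (mul_le_mul_of_nonneg_left ?_ (by norm_num))
  rw [div_le_iff₀ (by positivity)]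
  nlinarith

theorem kern_lb (p : Fin n → ℝ) {ε : ℝ} (hε : 0 < ε) (R : ℝ) (s t : ℕ) : LB fun x : Fin n → ℝ =>
    min (1 / (ε ^ 2 + nsq (x - p)) ^ s) ((R ^ 2) ^ t / (ε ^ 2 + nsq (x - p)) ^ 3) := by
  have q0 : ∀ x : Fin n → ℝ, ε ^ 2 + nsq (x - p) ≠ 0 := fun x => by
    linarith [nsq_nonneg (x - p), pow_pos hε 2]
  have qc : Continuous fun x => ε ^ 2 + nsq (x - p) := continuous_const.add (nsq_cd p).continuous
  exact LB.of_cont ((continuous_const.div (qc.pow s) fun x => pow_ne_zero _ (q0 x)).min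
    (continuous_const.div (qc.pow 3) fun x => pow_ne_zero _ (q0 x)))

theorem kern_crit {s t : ℕ} (hn : n = 2 * s) (hst : s + t = 3) (ht : 1 ≤ t) {p : Fin n → ℝ}
    (hp : p ∈ cube n) {ε R : ℝ} (hε : 0 < ε) (hR : 0 < R) :
    ∫ x in cube n, min (1 / (ε ^ 2 + nsq (x - p)) ^ s) ((R ^ 2) ^ t / (ε ^ 2 + nsq (x - p)) ^ 3)
      ≤ 4 ^ n * (3 * Real.log (1 + 2 * (2 * R / ε))) := by
  obtain ⟨J, hJ⟩ := pow_unbounded_of_one_lt (1 / ε) (one_lt_two (α := ℝ))
  have h := shell (kern_lb p hε R s t) hp hε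
    (c := fun j => min (1 / ((2 ^ j * ε / 2) ^ 2) ^ s) ((R ^ 2) ^ t / ((2 ^ j * ε / 2) ^ 2) ^ 3))
    (fun j => le_min (by positivity) (by positivity)) ((div_lt_iff₀ hε).1 hJ).le
    fun j x hq => min_le_min (by gcongr) (by gcongr)
  refine h.trans (le_trans ?_ (mul_le_mul_of_nonneg_left
    (sum_log (A := 2 * R / ε) (by positivity) (J + 1)) (by positivity)))
  rw [Finset.mul_sum]
  refine Finset.sum_le_sum fun j _ => ?_
  rw [show 2 * R / ε / 2 ^ j = R / (2 ^ j * ε / 2) by field_simp]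
  rw [show 2 * (2 ^ j * ε) = 4 * (2 ^ j * ε / 2) by ring]
  have r0 : 0 < 2 ^ j * ε / 2 := by positivity
  generalize 2 ^ j * ε / 2 = r at r0 ⊢
  have e : (4 * r) ^ n = 4 ^ n * (r ^ 2) ^ s := by rw [mul_pow, ← pow_mul, ← hn]
  rw [e, mul_comm, mul_assoc]
  refine mul_le_mul_of_nonneg_left ?_ (by positivity)
  rcases le_total 1 (R / r) with a | a
  · rw [min_eq_left a]
    refine (mul_le_mul_of_nonneg_left (min_le_left _ _) (by positivity)).trans_eq ?_
    field_simp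
  · rw [min_eq_right a]
    refine (mul_le_mul_of_nonneg_left (min_le_right _ _) (by positivity)).trans ?_
    have e2 : (r ^ 2) ^ s * ((R ^ 2) ^ t / (r ^ 2) ^ 3) = (R / r) ^ (2 * t) := by
      rw [← hst, pow_add, pow_mul, div_pow, div_pow]; field_simp
    rw [e2]
    exact pow_le_of_le_one (by positivity) a (by omega)

theorem kern_three {p : Fin 3 → ℝ} (hp : p ∈ cube 3) {ε R : ℝ} (hε : 0 < ε) (hR : 0 < R) :
    ∫ x in cube 3, min (1 / (ε ^ 2 + nsq (x - p)) ^ 1) ((R ^ 2) ^ 2 / (ε ^ 2 + nsq (x - p)) ^ 3)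
      ≤ 512 * (6 * R) := by
  obtain ⟨J, hJ⟩ := pow_unbounded_of_one_lt (1 / ε) (one_lt_two (α := ℝ))
  have h := shell (kern_lb p hε R 1 2) hp hε
    (c := fun j => min (1 / ((2 ^ j * ε / 2) ^ 2) ^ 1) ((R ^ 2) ^ 2 / ((2 ^ j * ε / 2) ^ 2) ^ 3))
    (fun j => le_min (by positivity) (by positivity)) ((div_lt_iff₀ hε).1 hJ).le
    fun j x hq => min_le_min (by gcongr) (by gcongr)
  refine h.trans (le_trans ?_ (mul_le_mul_of_nonneg_left (sum_lin hε hR (J + 1)) (by positivity)))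
  rw [Finset.mul_sum]
  refine Finset.sum_le_sum fun j _ => ?_
  set r := 2 ^ j * ε with hr
  have r0 : 0 < r := by positivity
  rcases le_total r R with a | a
  · rw [min_eq_left (a := r) (by rw [le_div_iff₀ r0]; nlinarith)]
    refine (mul_le_mul_of_nonneg_right (min_le_left _ _) (by positivity)).trans ?_
    rw [show 1 / ((r / 2) ^ 2) ^ 1 * (2 * r) ^ 3 = 32 * r by field_simp; ring]
    linarith
  · rw [min_eq_right (a := r) (by rw [div_le_iff₀ r0]; nlinarith)]
    refine (mul_le_mul_of_nonneg_right (min_le_right _ _) (by positivity)).trans ?_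
    rw [show (R ^ 2) ^ 2 / ((r / 2) ^ 2) ^ 3 * (2 * r) ^ 3 = 512 * (R ^ 2 / r) * (R / r) ^ 2 by
      field_simp; ring]
    exact mul_le_of_le_one_right (by positivity)
      (pow_le_one₀ (by positivity) ((div_le_one r0).2 a))

theorem int_dist {P : Finset (Fin n → ℝ)} {ε R B : ℝ} (hε : 0 < ε) {s t : ℕ}
    {D : (Fin n → ℝ) → ℝ} (hD : Continuous D) (D0 : ∀ x, 0 < D x)
    (H : ∀ x, 1 / (D x ^ 2) ^ s ≤ 1 / (R ^ 2) ^ s +
        ∑ p ∈ P, min (1 / (ε ^ 2 + nsq (x - p)) ^ s) ((R ^ 2) ^ t / (ε ^ 2 + nsq (x - p)) ^ 3))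
    (hB : ∀ p ∈ P, ∫ x in cube n,
      min (1 / (ε ^ 2 + nsq (x - p)) ^ s) ((R ^ 2) ^ t / (ε ^ 2 + nsq (x - p)) ^ 3) ≤ B) :
    ∫ x in cube n, 1 / (D x ^ 2) ^ s ≤ 1 / (R ^ 2) ^ s + P.card * B := by
  have i1 : IntegrableOn (fun x => ∑ p ∈ P, min (1 / (ε ^ 2 + nsq (x - p)) ^ s)
      ((R ^ 2) ^ t / (ε ^ 2 + nsq (x - p)) ^ 3)) (cube n) :=
    integrable_finsetSum _ fun p _ => (kern_lb p hε R s t).cube
  have c1 : Continuous fun x => 1 / (D x ^ 2) ^ s := continuous_const.div ((hD.pow 2).pow s)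
    fun x => (pow_pos (pow_pos (D0 x) 2) s).ne'
  have h := lin2 cube_meas (LB.of_cont c1).cube (LB.const (1 / (R ^ 2) ^ s)).cube i1
    (a := 1) (b := 1) fun x _ => by simpa using H x
  rw [int_cube_const, integral_finsetSum _ fun p _ => (kern_lb p hε R s t).cube] at h
  have h2 := Finset.sum_le_sum hB
  rw [Finset.sum_const, nsmul_eq_mul] at h2
  linarith

end Pool.Agent.MP_478eab_an.V
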