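import Mathlib
import Pool.Agent.MP_478eab_an.V.Dist

/-! The Gaussian resolvent on bounded functions. -/

namespace Pool.Agent.MP_478eab_an.V

open MeasureTheory Set Filter Topology

variable {n : ℕ}

/-- Gaussian -/
noncomputable def G (b : ℝ) (z : Fin n → ℝ) : ℝ := Real.exp (-b * nsq z)

/-- the linear form given by a vector -/
noncomputable def dl (z : Fin n → ℝ) : (Fin n → ℝ) →L[ℝ] ℝ :=
  ∑ i, z i • ContinuousLinearMap.proj i

/-- bounded and measurable -/
def Bd (f : (Fin n → ℝ) → ℝ) : Prop := Measurable f ∧ ∃ M, ∀ x, |f x| ≤ M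

theorem nsq_cont : Continuous (nsq : (Fin n → ℝ) → ℝ) := by unfold nsq; fun_prop

theorem G_pos (b : ℝ) (z : Fin n → ℝ) : 0 < G b z := Real.exp_pos _

theorem G_cont (b : ℝ) : Continuous (G b : (Fin n → ℝ) → ℝ) :=
  Real.continuous_exp.comp (continuous_const.mul nsq_cont)

theorem G_int {b : ℝ} (hb : 0 < b) : Integrable (G b : (Fin n → ℝ) → ℝ) := by
  have h := Integrable.fintype_prod (ι := Fin n) (μ := fun _ => (volume : Measure ℝ))
    (f := fun _ x => Real.exp (-b * x ^ 2)) fun _ => integrable_exp_neg_mul_sq hb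
  refine h.congr (Eventually.of_forall fun z => ?_)
  simp only [G, nsq, Finset.mul_sum, Real.exp_sum]

theorem dl_apply (z v : Fin n → ℝ) : dl z v = ∑ i, z i * v i := by
  simp [dl]

theorem dl_single (z : Fin n → ℝ) (i : Fin n) : dl z (Pi.single i 1) = z i := by
  simp [dl_apply, Pi.single_apply]

theorem dl_cont : Continuous (dl : (Fin n → ℝ) → _) := by unfold dl; fun_prop

theorem abs_le_exp (w : Fin n → ℝ) (i : Fin n) : |w i| ≤ Real.exp (1 / 4 * nsq w) := by
  have h1 := Real.add_one_le_exp (1 / 4 * nsq w)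
  have h2 := sq_le_nsq w i
  have h3 := sq_abs (w i)
  nlinarith [sq_nonneg (|w i| - 2)]

theorem G_split (w : Fin n → ℝ) : Real.exp (1 / 4 * nsq w) * G (1 / 2) w = G (1 / 4) w := by
  unfold G; rw [← Real.exp_add]; congr 1; ring

theorem dl_norm (w : Fin n → ℝ) : ‖dl w‖ * G (1 / 2) w ≤ n * G (1 / 4) w := by
  have h : ‖dl w‖ ≤ n * Real.exp (1 / 4 * nsq w) := by
    refine ContinuousLinearMap.opNorm_le_bound _ (by positivity) fun v => ?_
    rw [dl_apply, Real.norm_eq_abs]
    refine (Finset.abs_sum_le_sum_abs _ _).trans ?_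
    calc ∑ i, |w i * v i| ≤ ∑ _i : Fin n, Real.exp (1 / 4 * nsq w) * ‖v‖ :=
          Finset.sum_le_sum fun i _ => by
            rw [abs_mul]
            exact mul_le_mul (abs_le_exp w i) (norm_le_pi_norm v i) (abs_nonneg _) (by positivity)
      _ = _ := by simp [mul_assoc]
  rw [← G_split, ← mul_assoc]
  exact mul_le_mul_of_nonneg_right h (G_pos _ _).le

theorem G_shift (z h : Fin n → ℝ) (hh : ‖h‖ ≤ 1) :
    G (1 / 4) (z - h) ≤ Real.exp (n / 4) * G (1 / 8) z := by
  unfold G
  rw [← Real.exp_add]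
  refine Real.exp_le_exp.2 ?_
  have : nsq z ≤ 2 * nsq (z - h) + 2 * n := by
    unfold nsq
    rw [Finset.mul_sum, show (2 * n : ℝ) = ∑ _i : Fin n, 2 by simp [mul_comm],
      ← Finset.sum_add_distrib]
    refine Finset.sum_le_sum fun i _ => ?_
    have h1 : |h i| ≤ 1 := (norm_le_pi_norm h i).trans hh
    have h2 : h i ^ 2 ≤ 1 := by rw [← sq_abs]; nlinarith [abs_nonneg (h i)]
    simp only [Pi.sub_apply]
    nlinarith [sq_nonneg (z i - 2 * h i)]
  linarith

theorem nsq_has (w : Fin n → ℝ) : HasFDerivAt nsq ((2 : ℝ) • dl w) w := by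
  have h : HasFDerivAt (fun y : Fin n → ℝ => ∑ i, y i ^ 2)
      (∑ i, ((2 * w i) • ContinuousLinearMap.proj i : (Fin n → ℝ) →L[ℝ] ℝ)) w :=
    HasFDerivAt.fun_sum fun i _ => by
      have := (hasDerivAt_pow 2 (w i)).comp_hasFDerivAt w (hasFDerivAt_apply (𝕜 := ℝ) i w)
      exact this.congr_fderiv (by simp)
  refine h.congr_fderiv ?_
  simp [dl, Finset.smul_sum, smul_smul]

theorem G_has (w : Fin n → ℝ) : HasFDerivAt (G (1 / 2)) (-(G (1 / 2) w) • dl w) w := by
  have := ((nsq_has w).const_mul (-(1 / 2) : ℝ)).exp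
  refine this.congr_fderiv ?_
  rw [smul_smul, smul_smul]
  congr 1
  unfold G; ring

theorem P_has {f : (Fin n → ℝ) → ℝ} (hf : Bd f) {σ : ℝ} (hσ : 0 < σ) (x₀ : Fin n → ℝ) :
    HasFDerivAt (fun x => ∫ z, f (x + σ • z) * G (1 / 2) z)
      (σ⁻¹ • ∫ z, (f (x₀ + σ • z) * G (1 / 2) z) • dl z) x₀ := by
  obtain ⟨hm, M, hM⟩ := hf
  have e : (fun x => ∫ z, f (x + σ • z) * G (1 / 2) z)
      = fun x => ∫ z, f (x₀ + σ • z) * G (1 / 2) (z - σ⁻¹ • (x - x₀)) := by
    funext x
    rw [← integral_sub_right_eq_self _ (σ⁻¹ • (x - x₀))]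
    congr 1
    funext z
    congr 2
    rw [smul_sub, smul_smul, mul_inv_cancel₀ hσ.ne', one_smul]
    abel
  have hm' : Measurable fun z : Fin n → ℝ => f (x₀ + σ • z) := hm.comp (by fun_prop)
  have h := hasFDerivAt_integral_of_dominated_of_fderiv_le (μ := volume) (x₀ := x₀)
    (F := fun x z => f (x₀ + σ • z) * G (1 / 2) (z - σ⁻¹ • (x - x₀)))
    (F' := fun x z => (σ⁻¹ * (f (x₀ + σ • z) * G (1 / 2) (z - σ⁻¹ • (x - x₀))))
      • dl (z - σ⁻¹ • (x - x₀)))
    (bound := fun z => σ⁻¹ * M * (n * Real.exp (n / 4)) * G (1 / 8) z)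
    (Metric.ball_mem_nhds x₀ hσ)
    (Eventually.of_forall fun x => (hm'.mul ((G_cont _).measurable.comp
      (by fun_prop))).aestronglyMeasurable)
    (by
      simp only [sub_self, smul_zero, sub_zero]
      exact (G_int (by norm_num)).bdd_mul hm'.aestronglyMeasurable
        (Eventually.of_forall fun z => hM _))
    (by
      simp only [sub_self, smul_zero, sub_zero]
      exact ((hm'.mul (G_cont _).measurable).const_mul _).aestronglyMeasurable.smul
        dl_cont.aestronglyMeasurable)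
    (Eventually.of_forall fun z x hx => by
      have hh : ‖σ⁻¹ • (x - x₀)‖ ≤ 1 := by
        rw [norm_smul, Real.norm_of_nonneg (by positivity), inv_mul_le_iff₀ hσ, mul_one]
        exact (mem_ball_iff_norm.1 hx).le
      have h1 := (dl_norm (z - σ⁻¹ • (x - x₀))).trans
        (mul_le_mul_of_nonneg_left (G_shift z _ hh) (Nat.cast_nonneg n))
      rw [norm_smul, Real.norm_eq_abs, abs_mul, abs_mul, abs_of_pos (inv_pos.2 hσ),
        abs_of_pos (G_pos _ _)]
      calc _ = σ⁻¹ * (|f (x₀ + σ • z)| * (‖dl (z - σ⁻¹ • (x - x₀))‖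
            * G (1 / 2) (z - σ⁻¹ • (x - x₀)))) := by ring
        _ ≤ σ⁻¹ * (M * (n * (Real.exp (n / 4) * G (1 / 8) z))) :=
            mul_le_mul_of_nonneg_left (mul_le_mul (hM _) h1
              (mul_nonneg (norm_nonneg _) (G_pos _ _).le) ((abs_nonneg _).trans (hM 0)))
              (by positivity)
        _ = _ := by ring)
    ((G_int (by norm_num)).const_mul _)
    (Eventually.of_forall fun z x _ => by
      have h1 : HasFDerivAt (fun x : Fin n → ℝ => z - σ⁻¹ • (x - x₀))
          (-(σ⁻¹ • ContinuousLinearMap.id ℝ _)) x :=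
        (((hasFDerivAt_id x).sub_const x₀).const_smul σ⁻¹).const_sub z
      have h2 := ((G_has (z - σ⁻¹ • (x - x₀))).comp x h1).const_mul (f (x₀ + σ • z))
      refine h2.congr_fderiv ?_
      ext v
      simp
      ring)
  rw [e]
  refine h.congr_fderiv ?_
  simp only [sub_self, smul_zero, sub_zero]
  rw [← integral_smul]
  simp only [smul_smul]

/-- the parameter measure -/
noncomputable def nu (n : ℕ) : Measure (ℝ × (Fin n → ℝ)) :=
  ((volume : Measure ℝ).restrict (Ioi 0)).prod volume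

/-- kernel of the gradient -/
noncomputable def k1 (a : ℝ) (p : ℝ × (Fin n → ℝ)) : ℝ := Real.exp (-a * p.1 ^ 2) * G (1 / 2) p.2

/-- resolvent, not normalised -/
noncomputable def Rs (a : ℝ) (f : (Fin n → ℝ) → ℝ) (x : Fin n → ℝ) : ℝ :=
  ∫ p, f (x + p.1 • p.2) * (p.1 * k1 a p) ∂nu n

/-- gradient of the resolvent -/
noncomputable def Sg (a : ℝ) (f : (Fin n → ℝ) → ℝ) (x : Fin n → ℝ) : (Fin n → ℝ) →L[ℝ] ℝ :=
  ∫ p, f (x + p.1 • p.2) • (k1 a p • dl p.2) ∂nu n

variable {a : ℝ} {f g : (Fin n → ℝ) → ℝ}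

theorem k_int (ha : 0 < a) : Integrable (fun p : ℝ × (Fin n → ℝ) => p.1 * k1 a p) (nu n) := by
  have := ((integrable_mul_exp_neg_mul_sq ha).integrableOn (s := Ioi 0)).mul_prod
    (G_int (n := n) (b := 1 / 2) (by norm_num))
  exact this.congr (Eventually.of_forall fun p => mul_assoc _ _ _)

theorem kd_int (ha : 0 < a) :
    Integrable (fun p : ℝ × (Fin n → ℝ) => k1 a p • dl p.2) (nu n) := by
  have h : Integrable fun z : Fin n → ℝ => G (1 / 2) z • dl z := by
    refine ((G_int (n := n) (b := 1 / 4) (by norm_num)).const_mul n).mono'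
      ((G_cont _).smul dl_cont).aestronglyMeasurable (Eventually.of_forall fun z => ?_)
    rw [norm_smul, Real.norm_of_nonneg (G_pos _ _).le, mul_comm]
    exact dl_norm z
  have := ((integrable_exp_neg_mul_sq ha).integrableOn (s := Ioi 0)).smul_prod h
  exact this.congr (Eventually.of_forall fun p => smul_smul _ _ _)

theorem nu_pos : ∀ᵐ p ∂nu n, 0 < p.1 :=
  Measure.quasiMeasurePreserving_fst.ae (ae_restrict_mem (s := Ioi (0 : ℝ)) measurableSet_Ioi)

theorem k_nonneg : ∀ᵐ p ∂nu n, 0 ≤ p.1 * k1 a p := nu_pos.mono fun _ hp =>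
  mul_nonneg hp.le (mul_pos (Real.exp_pos _) (G_pos _ _)).le

theorem shift_meas (hf : Measurable f) (x : Fin n → ℝ) :
    AEStronglyMeasurable (fun p : ℝ × (Fin n → ℝ) => f (x + p.1 • p.2)) (nu n) :=
  (hf.comp (by fun_prop)).aestronglyMeasurable

theorem Rs_int (ha : 0 < a) (hf : Bd f) (x : Fin n → ℝ) :
    Integrable (fun p : ℝ × (Fin n → ℝ) => f (x + p.1 • p.2) * (p.1 * k1 a p)) (nu n) := by
  obtain ⟨hm, M, hM⟩ := hf
  exact (k_int ha).bdd_mul (shift_meas hm x) (Eventually.of_forall fun p => hM _)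

theorem Sg_int (ha : 0 < a) (hf : Bd f) (x : Fin n → ℝ) :
    Integrable (fun p : ℝ × (Fin n → ℝ) => f (x + p.1 • p.2) • (k1 a p • dl p.2)) (nu n) := by
  obtain ⟨hm, M, hM⟩ := hf
  exact (kd_int ha).bdd_smul M (shift_meas hm x) (Eventually.of_forall fun p => hM _)

theorem Rs_mono (ha : 0 < a) (hf : Bd f) (hg : Bd g) (h : ∀ x, f x ≤ g x) (x : Fin n → ℝ) :
    Rs a f x ≤ Rs a g x :=
  integral_mono_ae (Rs_int ha hf x) (Rs_int ha hg x)
    (k_nonneg.mono fun _ hp => mul_le_mul_of_nonneg_right (h _) hp)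

theorem Rs_has (ha : 0 < a) (hf : Bd f) (x₀ : Fin n → ℝ) :
    HasFDerivAt (Rs a f) (Sg a f x₀) x₀ := by
  have e1 : ∀ x σ, ∫ z, f (x + σ • z) * (σ * k1 a (σ, z))
      = σ * Real.exp (-a * σ ^ 2) * ∫ z, f (x + σ • z) * G (1 / 2) z := fun x σ => by
    rw [← integral_const_mul]; congr 1; funext z; unfold k1; ring
  have e2 : ∀ x σ, ∫ z, f (x + σ • z) • (k1 a (σ, z) • dl z)
      = Real.exp (-a * σ ^ 2) • ∫ z, (f (x + σ • z) * G (1 / 2) z) • dl z := fun x σ => by
    rw [← integral_smul]; congr 1; funext z; unfold k1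
    simp only [smul_smul]; congr 1; ring
  have e : Rs a f = fun x => ∫ σ in Ioi (0 : ℝ), ∫ z, f (x + σ • z) * (σ * k1 a (σ, z)) :=
    funext fun x => integral_prod _ (Rs_int ha hf x)
  have e' : Sg a f x₀ = ∫ σ in Ioi (0 : ℝ), ∫ z, f (x₀ + σ • z) • (k1 a (σ, z) • dl z) :=
    integral_prod _ (Sg_int ha hf x₀)
  rw [e, e']
  obtain ⟨M, hM⟩ := hf.2
  refine hasFDerivAt_integral_of_dominated_of_fderiv_le (s := univ)
    (F' := fun x σ => ∫ z, f (x + σ • z) • (k1 a (σ, z) • dl z))
    (bound := fun σ => Real.exp (-a * σ ^ 2) * ∫ z : Fin n → ℝ, M * (n * G (1 / 4) z)) univ_mem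
    (Eventually.of_forall fun x => (Rs_int ha hf x).integral_prod_left.aestronglyMeasurable)
    (Rs_int ha hf x₀).integral_prod_left
    (Sg_int ha hf x₀).integral_prod_left.aestronglyMeasurable
    (Eventually.of_forall fun σ x _ => ?_)
    ((integrable_exp_neg_mul_sq ha).integrableOn.mul_const _) ?_
  · rw [e2, norm_smul, Real.norm_of_nonneg (Real.exp_pos _).le]
    refine mul_le_mul_of_nonneg_left (norm_integral_le_of_norm_le
      (((G_int (by norm_num)).const_mul _).const_mul _) (Eventually.of_forall fun z => ?_))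
      (Real.exp_pos _).le
    rw [norm_smul, Real.norm_eq_abs, abs_mul, abs_of_pos (G_pos _ _), mul_assoc, mul_comm (G _ _)]
    exact mul_le_mul (hM _) (dl_norm z) (mul_nonneg (norm_nonneg _) (G_pos _ _).le)
      ((abs_nonneg _).trans (hM 0))
  · filter_upwards [ae_restrict_mem measurableSet_Ioi] with σ hσ x _
    simp only [e1, e2]
    refine ((P_has hf hσ x).const_mul (σ * Real.exp (-a * σ ^ 2))).congr_fderiv ?_
    rw [smul_smul]
    congr 1
    have : σ ≠ 0 := ne_of_gt hσ
    field_simp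

theorem Sg_cont (ha : 0 < a) (hf : Bd f) (hc : Continuous f) : Continuous (Sg a f) := by
  obtain ⟨M, hM⟩ := hf.2
  refine continuous_of_dominated (bound := fun p => M * ‖k1 a p • dl p.2‖)
    (fun x => (Sg_int ha hf x).aestronglyMeasurable)
    (fun x => Eventually.of_forall fun p => ?_) ((kd_int ha).norm.const_mul M)
    (Eventually.of_forall fun p => (hc.comp (by fun_prop)).smul continuous_const)
  rw [norm_smul]
  exact mul_le_mul_of_nonneg_right (hM _) (norm_nonneg _)

theorem Sg_bound (ha : 0 < a) (hf : Bd f) : ∃ M, ∀ x, ‖Sg a f x‖ ≤ M := by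
  obtain ⟨M, hM⟩ := hf.2
  refine ⟨∫ p, M * ‖k1 a p • dl p.2‖ ∂nu n, fun x => norm_integral_le_of_norm_le
    ((kd_int ha).norm.const_mul M) (Eventually.of_forall fun p => ?_)⟩
  rw [norm_smul]
  exact mul_le_mul_of_nonneg_right (hM _) (norm_nonneg _)

theorem Rs_cd (ha : 0 < a) (hf : Bd f) (hc : Continuous f) : ContDiff ℝ 1 (Rs a f) := by
  rw [contDiff_one_iff_fderiv]
  refine ⟨fun x => (Rs_has ha hf x).differentiableAt, ?_⟩
  rw [show fderiv ℝ (Rs a f) = Sg a f from funext fun x => (Rs_has ha hf x).fderiv]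
  exact Sg_cont ha hf hc

theorem Rs_pd_bd (ha : 0 < a) (hf : Bd f) (hc : Continuous f) (i : Fin n) :
    Bd (pd i (Rs a f)) := by
  obtain ⟨M, hM⟩ := Sg_bound ha hf
  refine ⟨(pd_continuous (Rs_cd ha hf hc) i).measurable, M * ‖(Pi.single i 1 : Fin n → ℝ)‖,
    fun x => ?_⟩
  rw [pd_of_has (Rs_has ha hf x)]
  exact ((Sg a f x).le_opNorm _).trans (mul_le_mul_of_nonneg_right (hM x) (norm_nonneg _))

theorem fderiv_bd (h : ∀ i, Bd (pd i f)) : ∃ M, ∀ x, ‖fderiv ℝ f x‖ ≤ M := by
  choose M hM using fun i => (h i).2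
  refine ⟨∑ i, M i, fun x => ContinuousLinearMap.opNorm_le_bound _
    (Finset.sum_nonneg fun i _ => (abs_nonneg _).trans (hM i x)) fun v => ?_⟩
  rw [fderiv_eq_sum, Real.norm_eq_abs, Finset.sum_mul]
  refine (Finset.abs_sum_le_sum_abs _ _).trans (Finset.sum_le_sum fun i _ => ?_)
  rw [abs_mul, mul_comm]
  exact mul_le_mul (hM i x) (norm_le_pi_norm v i) (abs_nonneg _) ((abs_nonneg _).trans (hM i x))

theorem Rs_pd (ha : 0 < a) (hf : Bd f) (hc : ContDiff ℝ 1 f) (h : ∀ i, Bd (pd i f)) (i : Fin n) :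
    pd i (Rs a f) = Rs a (pd i f) := by
  obtain ⟨M, hM⟩ := fderiv_bd h
  funext x₀
  have hI : Integrable (fun p : ℝ × (Fin n → ℝ) =>
      (p.1 * k1 a p) • fderiv ℝ f (x₀ + p.1 • p.2)) (nu n) :=
    (k_int ha).smul_bdd M ((hc.continuous_fderiv one_ne_zero).comp
      (by fun_prop)).aestronglyMeasurable (Eventually.of_forall fun p => hM _)
  have := hasFDerivAt_integral_of_dominated_of_fderiv_le (μ := nu n) (x₀ := x₀) (s := univ)
    (F := fun x p => f (x + p.1 • p.2) * (p.1 * k1 a p))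
    (F' := fun x p => (p.1 * k1 a p) • fderiv ℝ f (x + p.1 • p.2))
    (bound := fun p => ‖p.1 * k1 a p‖ * M) univ_mem
    (Eventually.of_forall fun x => (Rs_int ha hf x).aestronglyMeasurable) (Rs_int ha hf x₀)
    hI.aestronglyMeasurable
    (Eventually.of_forall fun p x _ => by
      rw [norm_smul]; exact mul_le_mul_of_nonneg_left (hM _) (norm_nonneg _))
    ((k_int ha).norm.mul_const M)
    (Eventually.of_forall fun p x _ =>
      (((cd_diff hc (x + p.1 • p.2)).hasFDerivAt.comp x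
        ((hasFDerivAt_id x).add_const (p.1 • p.2))).mul_const _).congr_fderiv (by simp))
  rw [pd_of_has (f := Rs a f) this, ContinuousLinearMap.integral_apply hI]
  refine integral_congr_ae (Eventually.of_forall fun p => ?_)
  simp only [pd, smul_apply, smul_eq_mul]
  ring

theorem Rs_eq (ha : 0 < a) (hf : Bd f) (hc : ContDiff ℝ 1 f) (h : ∀ i, Bd (pd i f))
    (x : Fin n → ℝ) : ∑ i, pd i (pd i (Rs a f)) x
      = 2 * a * Rs a f x - (∫ z : Fin n → ℝ, G (1 / 2) z) * f x := by
  have hI : ∀ i, Integrable (fun p : ℝ × (Fin n → ℝ) =>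
      pd i f (x + p.1 • p.2) * (k1 a p * p.2 i)) (nu n) := fun i => by
    have := (ContinuousLinearMap.apply ℝ ℝ (Pi.single i (1 : ℝ) : Fin n → ℝ)).integrable_comp
      (Sg_int ha (h i) x)
    refine this.congr (Eventually.of_forall fun p => ?_)
    simp [dl_single]
  have e1 : ∀ i, pd i (pd i (Rs a f)) x
      = ∫ p, pd i f (x + p.1 • p.2) * (k1 a p * p.2 i) ∂nu n := fun i => by
    rw [Rs_pd ha hf hc h, pd_of_has (Rs_has ha (h i) x), Sg,
      ContinuousLinearMap.integral_apply (Sg_int ha (h i) x)]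
    simp [dl_single]
  have hS := integrable_finsetSum Finset.univ fun i _ => hI i
  have hR := (Rs_int ha hf x).const_mul (2 * a)
  have hJ := hS.sub hR
  have key : ∫ p : ℝ × (Fin n → ℝ), ((∑ i, pd i f (x + p.1 • p.2) * (k1 a p * p.2 i))
      - 2 * a * (f (x + p.1 • p.2) * (p.1 * k1 a p))) ∂nu n
      = -((∫ z : Fin n → ℝ, G (1 / 2) z) * f x) := by
    refine (integral_prod_symm _ hJ).trans ?_
    rw [← integral_mul_const, ← integral_neg]
    refine integral_congr_ae ?_
    filter_upwards [hJ.prod_left_ae] with z hz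
    obtain ⟨M, hM⟩ := hf.2
    have hd : ∀ σ ∈ Ici (0 : ℝ), HasDerivAt (fun σ : ℝ => f (x + σ • z) * k1 a (σ, z))
        ((∑ i, pd i f (x + σ • z) * (k1 a (σ, z) * z i))
          - 2 * a * (f (x + σ • z) * (σ * k1 a (σ, z)))) σ := fun σ _ => by
      have h1 : HasDerivAt (fun σ : ℝ => x + σ • z) z σ := by
        simpa using ((hasDerivAt_id σ).smul_const z).const_add x
      have h2 := (cd_diff hc _).hasFDerivAt.comp_hasDerivAt σ h1
      have h3 := (((hasDerivAt_pow 2 σ).const_mul (-a)).exp).mul_const (G (1 / 2) z)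
      refine (h2.mul h3).congr_deriv ?_
      rw [fderiv_eq_sum, Finset.sum_mul]
      simp only [k1, Function.comp]
      congr 1
      · exact Finset.sum_congr rfl fun i _ => by ring
      · push_cast; ring
    have hl : Tendsto (fun σ : ℝ => f (x + σ • z) * k1 a (σ, z)) atTop (𝓝 0) := by
      have h1 : Tendsto (fun σ : ℝ => k1 a (σ, z)) atTop (𝓝 0) := by
        have : Tendsto (fun σ : ℝ => -a * σ ^ 2) atTop atBot :=
          (tendsto_pow_atTop two_ne_zero).const_mul_atTop_of_neg (by linarith)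
        simpa [k1] using (Real.tendsto_exp_atBot.comp this).mul_const (G (1 / 2) z)
      exact bdd_le_mul_tendsto_zero' M (Eventually.of_forall fun σ => hM _) h1
    have := integral_Ioi_of_hasDerivAt_of_tendsto' hd hz hl
    refine this.trans ?_
    simp [k1, mul_comm]
  rw [integral_sub hS hR, integral_finsetSum _ fun i _ => hI i, integral_const_mul] at key
  simp only [e1]
  unfold Rs
  linarith

theorem Rs_const (ha : 0 < a) (c : ℝ) (x : Fin n → ℝ) :
    Rs a (fun _ => c) x = (∫ z : Fin n → ℝ, G (1 / 2) z) * c / (2 * a) := by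
  have h0 : ∀ i : Fin n, pd i (fun _ : Fin n → ℝ => c) = fun _ => 0 := fun i =>
    funext fun y => pd_const i c y
  have hb : ∀ c : ℝ, Bd (fun _ : Fin n → ℝ => c) := fun c => ⟨measurable_const, |c|, fun _ => le_rfl⟩
  have h := Rs_eq ha (hb c) contDiff_const (fun i => by rw [h0]; exact hb 0) x
  have h1 : ∀ i : Fin n, pd i (pd i (Rs a fun _ : Fin n → ℝ => c)) x = 0 := fun i => by
    rw [Rs_pd ha (hb c) contDiff_const (fun i => by rw [h0]; exact hb 0), h0,
      show Rs a (fun _ : Fin n → ℝ => (0 : ℝ)) = fun _ => 0 from funext fun y => by simp [Rs]]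
    exact pd_const i 0 x
  simp only [h1, Finset.sum_const_zero] at h
  rw [eq_div_iff (by positivity)]
  linarith

/-- even with respect to every hyperplane with an integer coordinate -/
def Sym (f : (Fin n → ℝ) → ℝ) : Prop :=
  ∀ (j : ℤ) (i : Fin n) (x : Fin n → ℝ), f (Function.update x i (2 * j - x i)) = f x

theorem Rs_sym (ha : 0 < a) (hf : Bd f) (hs : Sym f) : Sym (Rs a f) := by
  intro j i x
  have hp : MeasurePreserving (fun (z : Fin n → ℝ) (l : Fin n) => if l = i then -z l else z l) :=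
    volume_preserving_pi (f := fun (l : Fin n) (s : ℝ) => if l = i then -s else s) fun l => by
      by_cases hl : l = i
      · simp only [if_pos hl]; exact Measure.measurePreserving_neg (volume : Measure ℝ)
      · simp only [if_neg hl]; exact MeasurePreserving.id (volume : Measure ℝ)
  have hq := (MeasurePreserving.id ((volume : Measure ℝ).restrict (Ioi 0))).prod hp
  unfold Rs
  have h1 := integral_map (μ := nu n) hq.measurable.aemeasurable
    (f := fun p : ℝ × (Fin n → ℝ) => f (x + p.1 • p.2) * (p.1 * k1 a p))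
    (by rw [show Measure.map _ (nu n) = nu n from hq.map_eq]
        exact (Rs_int ha hf x).aestronglyMeasurable)
  rw [show Measure.map _ (nu n) = nu n from hq.map_eq] at h1
  rw [h1]
  refine integral_congr_ae (Eventually.of_forall fun p => ?_)
  simp only [Prod.map_fst, Prod.map_snd, id]
  congr 1
  · rw [← hs j i]
    congr 1
    funext l
    by_cases hl : l = i
    · subst hl; simp; ring
    · simp [hl]
  · simp only [k1, G, nsq, Prod.map_fst, Prod.map_snd, id]
    congr 4
    refine Finset.sum_congr rfl fun l _ => ?_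
    by_cases hl : l = i <;> simp [hl]

theorem Rs_lim (ha : 0 < a) {F : ℕ → (Fin n → ℝ) → ℝ} {M : ℝ} (hm : ∀ k, Measurable (F k))
    (hb : ∀ k x, |F k x| ≤ M) (h : ∀ x, Tendsto (fun k => F k x) atTop (𝓝 (f x)))
    (x : Fin n → ℝ) : Tendsto (fun k => Rs a (F k) x) atTop (𝓝 (Rs a f x)) :=
  tendsto_integral_of_dominated_convergence (fun p => M * ‖p.1 * k1 a p‖)
    (fun k => (Rs_int ha ⟨hm k, M, hb k⟩ x).aestronglyMeasurable) ((k_int ha).norm.const_mul M)
    (fun k => Eventually.of_forall fun p => by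
      rw [norm_mul]; exact mul_le_mul_of_nonneg_right (hb k _) (norm_nonneg _))
    (Eventually.of_forall fun p => (h _).mul_const _)

end Pool.Agent.MP_478eab_an.V
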