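import Mathlib
import Pool.Agent.MP_478eab_an.V.Gauss

/-! Existence of classical solutions by monotone iteration, the weak form, and rescaling. -/

namespace Pool.Agent.MP_478eab_an.V

open MeasureTheory Set Filter Topology

variable {n : ℕ} {μ κ η : ℝ} {m θ f g : (Fin n → ℝ) → ℝ}

/-- classical symmetric solution on the whole space -/
structure Cl (μ : ℝ) (m θ : (Fin n → ℝ) → ℝ) : Prop where
  cd : ContDiff ℝ 1 θ
  d2 : ∀ i, Differentiable ℝ (pd i θ)
  eq : ∀ x, μ * ∑ i, pd i (pd i θ) x = -(θ x * (m x - θ x))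
  sym : Sym θ
  pos : ∀ x, 0 < θ x

theorem Bd.const (c : ℝ) : Bd (fun _ : Fin n → ℝ => c) := ⟨measurable_const, |c|, fun _ => le_rfl⟩

theorem Bd.add (hf : Bd f) (hg : Bd g) : Bd fun x => f x + g x := by
  obtain ⟨h1, C, hC⟩ := hf
  obtain ⟨h2, D, hD⟩ := hg
  exact ⟨h1.add h2, C + D, fun x => (abs_add_le _ _).trans (add_le_add (hC x) (hD x))⟩

theorem Bd.mul (hf : Bd f) (hg : Bd g) : Bd fun x => f x * g x := by
  obtain ⟨h1, C, hC⟩ := hf
  obtain ⟨h2, D, hD⟩ := hg
  exact ⟨h1.mul h2, C * D, fun x => by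
    rw [abs_mul]
    exact mul_le_mul (hC x) (hD x) (abs_nonneg _) ((abs_nonneg _).trans (hC x))⟩

theorem Bd.sub (hf : Bd f) (hg : Bd g) : Bd fun x => f x - g x := by
  simpa [sub_eq_add_neg] using hf.add ((Bd.const (-1)).mul hg)

theorem Bd.of_le (hf : Measurable f) {C : ℝ} (h0 : ∀ x, 0 ≤ f x) (h1 : ∀ x, f x ≤ C) : Bd f :=
  ⟨hf, C, fun x => by rw [abs_of_nonneg (h0 x)]; exact h1 x⟩

theorem exists_cl (hμ : 0 < μ) (hη : 0 < η) (hm : ContDiff ℝ 1 m) (hm' : ∀ i, Bd (pd i m))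
    (h1 : ∀ x, η ≤ m x) (h2 : ∀ x, m x ≤ κ) (hs : Sym m) : ∃ θ, Cl μ m θ := by
  have hηκ : η ≤ κ := (h1 0).trans (h2 0)
  have hκ : 0 < κ := hη.trans_le hηκ
  obtain ⟨c, hc⟩ : ∃ c, c = ∫ z : Fin n → ℝ, G (1 / 2) z := ⟨_, rfl⟩
  have c0 : 0 < c := by rw [hc]; exact integral_exp_pos (G_int (by norm_num))
  have ha : 0 < κ / μ := by positivity
  have hb : 0 < (c * μ)⁻¹ := by positivity
  have bm : Bd m := Bd.of_le hm.continuous.measurable (fun x => hη.le.trans (h1 x)) h2
  set F : ((Fin n → ℝ) → ℝ) → (Fin n → ℝ) → ℝ :=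
    fun u x => (c * μ)⁻¹ * (u x * (m x - u x + 2 * κ)) with hF
  set K : ((Fin n → ℝ) → ℝ) → Prop :=
    fun u => Measurable u ∧ Sym u ∧ ∀ x, η ≤ u x ∧ u x ≤ κ with hK
  have Kb : ∀ u, K u → Bd u := fun u hu =>
    Bd.of_le hu.1 (fun x => hη.le.trans (hu.2.2 x).1) fun x => (hu.2.2 x).2
  have Fb : ∀ u, K u → Bd (F u) := fun u hu =>
    (Bd.const _).mul ((Kb u hu).mul ((bm.sub (Kb u hu)).add (Bd.const _)))
  have Fm : ∀ u v, K u → K v → (∀ x, u x ≤ v x) → ∀ x, F u x ≤ F v x := fun u v hu hv h x => by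
    refine mul_le_mul_of_nonneg_left ?_ hb.le
    have := hu.2.2 x
    have := hv.2.2 x
    have h3 : 0 ≤ m x + 2 * κ - u x - v x := by linarith [h1 x]
    nlinarith [mul_nonneg (sub_nonneg.2 (h x)) h3]
  have Flo : ∀ u, K u → ∀ x, (c * μ)⁻¹ * (η * (2 * κ)) ≤ F u x := fun u hu x => by
    refine mul_le_mul_of_nonneg_left ?_ hb.le
    have := hu.2.2 x
    have h3 : 0 ≤ m x + 2 * κ - u x - η := by linarith [h1 x]
    nlinarith [mul_nonneg (sub_nonneg.2 this.1) h3, mul_nonneg hη.le (sub_nonneg.2 (h1 x))]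
  have Fhi : ∀ u, K u → ∀ x, F u x ≤ (c * μ)⁻¹ * (κ * (2 * κ)) := fun u hu x => by
    refine mul_le_mul_of_nonneg_left ?_ hb.le
    have := hu.2.2 x
    have h3 : 0 ≤ m x + 2 * κ - u x - κ := by linarith [h1 x]
    nlinarith [mul_nonneg (sub_nonneg.2 this.2) h3, mul_nonneg hκ.le (sub_nonneg.2 (h2 x))]
  have Rc : ∀ s x, Rs (κ / μ) (fun _ : Fin n → ℝ => (c * μ)⁻¹ * (s * (2 * κ))) x = s :=
    fun s x => by rw [Rs_const ha, ← hc]; field_simp
  have TK : ∀ u, K u → K (Rs (κ / μ) (F u)) := fun u hu => by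
    refine ⟨(continuous_iff_continuousAt.2 fun x =>
      (Rs_has ha (Fb u hu) x).continuousAt).measurable, Rs_sym ha (Fb u hu) fun j i x => ?_,
      fun x => ⟨?_, ?_⟩⟩
    · simp only [hF, hs j i x, hu.2.1 j i x]
    · exact (Rc η x).symm.trans_le (Rs_mono ha (Bd.const _) (Fb u hu) (Flo u hu) x)
    · exact (Rs_mono ha (Fb u hu) (Bd.const _) (Fhi u hu) x).trans_eq (Rc κ x)
  set U : ℕ → (Fin n → ℝ) → ℝ := fun k => (fun u => Rs (κ / μ) (F u))^[k] fun _ => κ with hU
  have Us : ∀ k, U (k + 1) = Rs (κ / μ) (F (U k)) := fun k => Function.iterate_succ_apply' _ _ _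
  have UK : ∀ k, K (U k) := fun k => by
    induction k with
    | zero => exact ⟨measurable_const, fun _ _ _ => rfl, fun _ => ⟨hηκ, le_rfl⟩⟩
    | succ k ih => rw [Us]; exact TK _ ih
  have Ua : ∀ k x, U (k + 1) x ≤ U k x := fun k => by
    induction k with
    | zero => exact fun x => ((UK 1).2.2 x).2
    | succ k ih =>
      intro x
      rw [Us (k + 1)]
      conv_rhs => rw [Us k]
      exact Rs_mono ha (Fb _ (UK _)) (Fb _ (UK _)) (Fm _ _ (UK _) (UK _) ih) x
  set θ : (Fin n → ℝ) → ℝ := fun x => ⨅ k, U k x with hθ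
  have lim : ∀ x, Tendsto (fun k => U k x) atTop (𝓝 (θ x)) := fun x =>
    tendsto_atTop_ciInf (antitone_nat_of_succ_le fun k => Ua k x)
      ⟨η, by rintro _ ⟨k, rfl⟩; exact ((UK k).2.2 x).1⟩
  have θK : K θ := ⟨measurable_of_tendsto_metrizable (fun k => (UK k).1) (tendsto_pi_nhds.2 lim),
    fun j i x => by simp only [hθ, fun k => (UK k).2.1 j i x],
    fun x => ⟨ge_of_tendsto' (lim x) fun k => ((UK k).2.2 x).1,
      le_of_tendsto' (lim x) fun k => ((UK k).2.2 x).2⟩⟩
  have fix : θ = Rs (κ / μ) (F θ) := by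
    funext x
    have l1 : Tendsto (fun k => U (k + 1) x) atTop (𝓝 (θ x)) :=
      (lim x).comp (tendsto_add_atTop_nat 1)
    simp only [Us] at l1
    refine tendsto_nhds_unique l1 (Rs_lim ha (M := (c * μ)⁻¹ * (κ * (2 * κ)))
      (fun k => (Fb _ (UK k)).1) (fun k y => ?_) (fun y => ?_) x)
    · rw [abs_of_nonneg (le_trans (by positivity) (Flo _ (UK k) y))]
      exact Fhi _ (UK k) y
    · exact ((lim y).mul ((tendsto_const_nhds.sub (lim y)).add_const _)).const_mul _
  have fb := Fb θ θK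
  have θc : Continuous θ := by
    rw [fix]; exact continuous_iff_continuousAt.2 fun x => (Rs_has ha fb x).continuousAt
  have Fc : Continuous (F θ) :=
    continuous_const.mul (θc.mul ((hm.continuous.sub θc).add continuous_const))
  have θd : ContDiff ℝ 1 θ := by rw [fix]; exact Rs_cd ha fb Fc
  have θb : ∀ i, Bd (pd i θ) := fun i => by rw [fix]; exact Rs_pd_bd ha fb Fc i
  have Fd : ContDiff ℝ 1 (F θ) := contDiff_const.mul (θd.mul ((hm.sub θd).add contDiff_const))
  have Fb' : ∀ i, Bd (pd i (F θ)) := fun i => by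
    have : pd i (F θ) = fun x => (c * μ)⁻¹ *
        (pd i θ x * (m x - θ x + 2 * κ) + θ x * (pd i m x - pd i θ x)) := by
      funext x
      have a1 := (cd_diff θd x).hasFDerivAt
      have a2 := (cd_diff hm x).hasFDerivAt
      rw [pd_of_has (f := F θ)
        ((a1.fun_mul ((a2.fun_sub a1).add_const (2 * κ))).const_mul (c * μ)⁻¹)]
      simp [pd]; ring
    rw [this]
    exact (Bd.const _).mul (((θb i).mul ((bm.sub (Kb θ θK)).add (Bd.const _))).add
      ((Kb θ θK).mul ((hm' i).sub (θb i))))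
  refine ⟨θ, θd, fun i => ?_, fun x => ?_, θK.2.1, fun x => hη.trans_le (θK.2.2 x).1⟩
  · rw [fix, Rs_pd ha fb Fd Fb']
    exact fun x => (Rs_has ha (Fb' i) x).differentiableAt
  · have := Rs_eq ha fb Fd Fb' x
    rw [← fix, ← hc] at this
    rw [this]
    simp only [hF]
    field_simp
    ring

theorem Sym.neumann (hs : Sym f) (hf : Differentiable ℝ f) {x : Fin n → ℝ} {i : Fin n} {j : ℤ}
    (hx : x i = j) : pd i f x = 0 := by
  have hu : Function.update x i (j : ℝ) = x := by rw [← hx, Function.update_eq_self]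
  have h1 : HasDerivAt (fun s => f (Function.update x i s)) (pd i f x) (j : ℝ) := by
    have := hasDerivAt_update_pd (f := f) (x := x) (i := i) (t := j) (hf _)
    rwa [hu] at this
  have h2 : HasDerivAt (fun s => f (Function.update x i (2 * j - s))) (-pd i f x) (j : ℝ) := by
    have h3 : HasDerivAt (fun s => f (Function.update x i s)) (pd i f x) (2 * j - j : ℝ) := by
      rwa [show (2 * j - j : ℝ) = j by ring]
    exact h3.comp_const_sub (2 * j : ℝ) (j : ℝ)
  have h4 : (fun s => f (Function.update x i (2 * j - s))) = fun s => f (Function.update x i s) := by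
    funext s
    have := hs j i (Function.update x i s)
    rwa [Function.update_idem, Function.update_self] at this
  rw [h4] at h2
  have := h1.unique h2
  linarith

theorem Cl.isSol (hn : 1 ≤ n) (hμ : 0 < μ) (hm : Continuous m) (h : Cl μ m θ) : IsSol μ m θ := by
  refine ⟨h.cd, fun x _ => h.pos x, fun ψ hψ => ?_⟩
  obtain ⟨k, rfl⟩ : ∃ k, n = k + 1 := ⟨n - 1, by omega⟩
  have θc := h.cd.continuous
  have c1 : Continuous fun x => ∑ i, pd i θ x * pd i ψ x :=
    continuous_finsetSum _ fun i _ => (pd_continuous h.cd i).mul (pd_continuous hψ i)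
  have c2 : Continuous fun x => θ x * (m x - θ x) * ψ x :=
    (θc.mul (hm.sub θc)).mul hψ.continuous
  have e : ∀ x, ∑ i, fderiv ℝ (fun y => pd i θ y * ψ y) x (Pi.single i 1)
      = 1 * (∑ i, pd i θ x * pd i ψ x) + (-μ⁻¹) * (θ x * (m x - θ x) * ψ x) := fun x => by
    have h1 : ∀ i, fderiv ℝ (fun y => pd i θ y * ψ y) x (Pi.single i 1)
        = pd i (pd i θ) x * ψ x + pd i θ x * pd i ψ x := fun i =>
      pd_mul (h.d2 i x) (cd_diff hψ x) i
    have h2 : ∑ i, pd i (pd i θ) x = -μ⁻¹ * (θ x * (m x - θ x)) := by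
      have := h.eq x
      field_simp
      linarith
    simp only [h1]
    rw [Finset.sum_add_distrib, ← Finset.sum_mul, h2]
    ring
  have hd := integral_divergence_of_hasFDerivAt_off_countable' (0 : Fin (k + 1) → ℝ) 1
    zero_le_one (fun i y => pd i θ y * ψ y) (fun i x => fderiv ℝ (fun y => pd i θ y * ψ y) x)
    ∅ countable_empty
    (fun i => ((pd_continuous h.cd i).mul hψ.continuous).continuousOn)
    (fun x _ i => ((h.d2 i x).fun_mul (cd_diff hψ x)).hasFDerivAt)
    (by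
      simp only [e]
      exact (LB.of_cont ((continuous_const.mul c1).add (continuous_const.mul c2))).cube)
  have z : ∀ (i : Fin (k + 1)) (j : ℤ) (y : Fin k → ℝ),
      pd i θ (i.insertNth (j : ℝ) y) = 0 := fun i j y =>
    h.sym.neumann (cd_diff h.cd) (j := j) (by simp)
  have z0 : ∀ (i : Fin (k + 1)) (y : Fin k → ℝ), pd i θ (i.insertNth 0 y) = 0 := fun i y => by
    simpa using z i 0 y
  have z1 : ∀ (i : Fin (k + 1)) (y : Fin k → ℝ), pd i θ (i.insertNth 1 y) = 0 := fun i y => by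
    simpa using z i 1 y
  simp only [Pi.zero_apply, Pi.one_apply, z0, z1, zero_mul, integral_zero, sub_self,
    Finset.sum_const_zero] at hd
  have h3 := eq2 (S := cube (k + 1)) (LB.of_cont c1).cube (LB.of_cont c2).cube e
  have h4 := hd.symm.trans h3
  field_simp at h4
  linarith

theorem pd_two (hf : Differentiable ℝ f) (i : Fin n) (x : Fin n → ℝ) :
    pd i (fun y => f ((2 : ℝ) • y)) x = 2 * pd i f ((2 : ℝ) • x) := by
  have h := (hf ((2 : ℝ) • x)).hasFDerivAt.comp x ((hasFDerivAt_id x).const_smul (2 : ℝ))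
  rw [pd_of_has (f := fun y => f ((2 : ℝ) • y)) h]
  simp [pd]

theorem Sym.two (hs : Sym f) : Sym fun y => f ((2 : ℝ) • y) := fun j i x => by
  beta_reduce
  rw [← hs (2 * j) i ((2 : ℝ) • x)]
  congr 1
  funext l
  by_cases hl : l = i
  · subst hl; simp; ring
  · simp [hl]

theorem Cl.two (h : Cl μ m θ) :
    Cl (μ / 4) (fun y => m ((2 : ℝ) • y)) fun y => θ ((2 : ℝ) • y) := by
  have e : ∀ i, pd i (fun y => θ ((2 : ℝ) • y)) = fun x => 2 * pd i θ ((2 : ℝ) • x) := fun i =>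
    funext fun x => pd_two (cd_diff h.cd) i x
  have d : ∀ i, Differentiable ℝ fun x : Fin n → ℝ => pd i θ ((2 : ℝ) • x) := fun i =>
    (h.d2 i).comp (differentiable_id.const_smul (2 : ℝ))
  refine ⟨h.cd.comp (contDiff_id.const_smul (2 : ℝ)), fun i => ?_, fun x => ?_, h.sym.two,
    fun x => h.pos _⟩
  · rw [e]; exact (d i).const_mul 2
  · have : ∀ i, pd i (pd i fun y => θ ((2 : ℝ) • y)) x = 4 * pd i (pd i θ) ((2 : ℝ) • x) :=
      fun i => by
        rw [e, pd_mul (differentiableAt_const _) (d i x), pd_const, pd_two (h.d2 i)]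
        ring
    simp only [this]
    rw [← Finset.mul_sum, ← h.eq]
    ring

theorem tent_mp : MeasurePreserving (fun s : ℝ => min (2 * s) (2 - 2 * s))
    (volume.restrict (Icc 0 1)) (volume.restrict (Icc 0 1)) := by
  have hm : Measurable fun s : ℝ => min (2 * s) (2 - 2 * s) := by fun_prop
  refine ⟨hm, Measure.ext_of_Iic _ _ fun a => ?_⟩
  rw [Measure.map_apply hm measurableSet_Iic, Measure.restrict_apply (hm measurableSet_Iic),
    Measure.restrict_apply measurableSet_Iic]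
  rcases lt_or_ge a 0 with h | h
  · have e1 : (fun s : ℝ => min (2 * s) (2 - 2 * s)) ⁻¹' Iic a ∩ Icc 0 1 = ∅ := by
      ext s
      simp only [mem_inter_iff, mem_preimage, mem_Iic, mem_Icc, min_le_iff, mem_empty_iff_false,
        iff_false]
      rintro ⟨h1 | h1, h2, h3⟩ <;> linarith
    have e2 : Iic a ∩ Icc (0 : ℝ) 1 = ∅ := by
      ext s
      simp only [mem_inter_iff, mem_Iic, mem_Icc, mem_empty_iff_false, iff_false]
      rintro ⟨h1, h2, -⟩; linarith
    rw [e1, e2]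
  rcases lt_or_ge a 1 with h' | h'
  · have e1 : (fun s : ℝ => min (2 * s) (2 - 2 * s)) ⁻¹' Iic a ∩ Icc 0 1
        = Icc 0 (a / 2) ∪ Icc (1 - a / 2) 1 := by
      ext s
      simp only [mem_inter_iff, mem_preimage, mem_Iic, mem_Icc, min_le_iff, mem_union]
      constructor
      · rintro ⟨h1 | h1, h2, h3⟩
        · exact Or.inl ⟨h2, by linarith⟩
        · exact Or.inr ⟨by linarith, h3⟩
      · rintro (⟨h1, h2⟩ | ⟨h1, h2⟩)
        · exact ⟨Or.inl (by linarith), h1, by linarith⟩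
        · exact ⟨Or.inr (by linarith), by linarith, h2⟩
    have e2 : Iic a ∩ Icc (0 : ℝ) 1 = Icc 0 a := by
      ext s
      simp only [mem_inter_iff, mem_Iic, mem_Icc]
      constructor
      · rintro ⟨h1, h2, -⟩; exact ⟨h2, h1⟩
      · rintro ⟨h1, h2⟩; exact ⟨h2, h1, by linarith⟩
    rw [e1, e2, measure_union (Set.disjoint_left.2 fun s h1 h2 => by
      have := h1.2; have := h2.1; linarith) measurableSet_Icc, Real.volume_Icc, Real.volume_Icc,
      Real.volume_Icc, ← ENNReal.ofReal_add (by linarith) (by linarith)]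
    congr 1; ring
  · have e1 : (fun s : ℝ => min (2 * s) (2 - 2 * s)) ⁻¹' Iic a ∩ Icc 0 1 = Icc 0 1 := by
      refine inter_eq_right.2 fun s _ => ?_
      simp only [mem_preimage, mem_Iic, min_le_iff]
      rcases le_total s (1 / 2) with h1 | h1
      · exact Or.inl (by linarith)
      · exact Or.inr (by linarith)
    have e2 : Iic a ∩ Icc (0 : ℝ) 1 = Icc 0 1 := inter_eq_right.2 fun s hs => hs.2.trans h'
    rw [e1, e2]

theorem cube_pi : (volume : Measure (Fin n → ℝ)).restrict (cube n)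
    = Measure.pi fun _ => volume.restrict (Icc (0 : ℝ) 1) := by
  rw [← Measure.restrict_pi_pi, cube, ← pi_univ_Icc]
  rfl

theorem Sym.multi (hs : Sym f) (s : Finset (Fin n)) (x : Fin n → ℝ) :
    f (fun i => if i ∈ s then 2 - x i else x i) = f x := by
  induction s using Finset.induction_on with
  | empty => simp
  | insert i s hi ih =>
    rw [← ih, ← hs 1 i]
    congr 1
    funext l
    by_cases hl : l = i
    · subst hl; simp [hi]
    · simp [hl]

theorem Sym.int_two (hs : Sym f) (hf : Continuous f) :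
    ∫ x in cube n, f ((2 : ℝ) • x) = ∫ x in cube n, f x := by
  have hp := measurePreserving_pi (fun _ : Fin n => volume.restrict (Icc (0 : ℝ) 1))
    (fun _ => volume.restrict (Icc (0 : ℝ) 1)) fun _ => tent_mp
  rw [← cube_pi] at hp
  have h1 := integral_map (μ := volume.restrict (cube n)) hp.measurable.aemeasurable
    (f := f) hf.aestronglyMeasurable
  rw [hp.map_eq] at h1
  rw [h1]
  refine integral_congr_ae (Eventually.of_forall fun x => ?_)
  beta_reduce
  rw [← hs.multi (Finset.univ.filter fun i => 1 / 2 ≤ x i)]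
  congr 1
  funext i
  simp only [Finset.mem_filter, Finset.mem_univ, true_and, Pi.smul_apply, smul_eq_mul]
  split_ifs with h
  · rw [min_eq_right (by linarith)]
  · rw [min_eq_left (by linarith)]

/-- a symmetric configuration with population at least `B` -/
def Good (n : ℕ) (μ κ m₀ B : ℝ) : Prop :=
  ∃ m θ : (Fin n → ℝ) → ℝ, Continuous m ∧ Sym m ∧ (∀ x, 0 ≤ m x ∧ m x ≤ κ) ∧
    ∫ x in cube n, m x = m₀ ∧ Cl μ m θ ∧ B ≤ ∫ x in cube n, θ x

theorem Good.two {m₀ B : ℝ} (h : Good n μ κ m₀ B) : Good n (μ / 4) κ m₀ B := by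
  obtain ⟨m, θ, h1, h2, h3, h4, h5, h6⟩ := h
  exact ⟨_, _, h1.comp (continuous_const_smul (2 : ℝ)), h2.two, fun x => h3 _,
    (h2.int_two h1).trans h4, h5.two, h6.trans_eq (h5.sym.int_two h5.cd.continuous).symm⟩

theorem Good.all {m₀ B μ₀ : ℝ} (h : ∀ μ, μ₀ / 4 < μ → μ ≤ μ₀ → Good n μ κ m₀ B)
    (hμ : 0 < μ) (hle : μ ≤ μ₀) : Good n μ κ m₀ B := by
  have key : ∀ k : ℕ, ∀ μ, μ₀ / 4 < 4 ^ k * μ → μ ≤ μ₀ → Good n μ κ m₀ B := fun k => by
    induction k with
    | zero => exact fun μ h1 h2 => h μ (by simpa using h1) h2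
    | succ k ih =>
      intro μ h1 h2
      rcases lt_or_ge (μ₀ / 4) μ with h3 | h3
      · exact h μ h3 h2
      · have := (ih (4 * μ) (by rw [pow_succ] at h1; linarith) (by linarith)).two
        rwa [show 4 * μ / 4 = μ by ring] at this
  obtain ⟨k, hk⟩ := pow_unbounded_of_one_lt (μ₀ / 4 / μ) (show (1 : ℝ) < 4 by norm_num)
  exact key k μ (by rwa [div_lt_iff₀ hμ] at hk) hle

theorem Good.final {m₀ B : ℝ} (hn : 1 ≤ n) (hμ : 0 < μ) (h : Good n μ κ m₀ B) :
    ∃ m θ : (Fin n → ℝ) → ℝ, Adm κ m₀ m ∧ IsSol μ m θ ∧ B ≤ ∫ x in cube n, θ x := by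
  obtain ⟨m, θ, h1, -, h3, h4, h5, h6⟩ := h
  exact ⟨m, θ, ⟨h1.aemeasurable, Eventually.of_forall h3, h4⟩, h5.isSol hn hμ h1, h6⟩

end Pool.Agent.MP_478eab_an.V
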