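import Mathlib
import Pool.Agent.MP_478eab_an.V.Calc

/-! The Gagliardo-Nirenberg-Sobolev inequality on a cube, for functions with small support. -/

namespace Pool.Agent.MP_478eab_an.V

open MeasureTheory Set Filter Topology BoxIntegral

variable {n : ℕ}

/-- all sides of the box have length `l` -/
def Side (I : Box (Fin n)) (l : ℝ) : Prop := ∀ i, I.upper i - I.lower i = l

theorem Side.vol {I : Box (Fin n)} {l : ℝ} (h : Side I l) (c : ℝ) :
    ∫ _ in (I : Set (Fin n → ℝ)), c = l ^ n * c := by
  have : (volume : Measure (Fin n → ℝ)).real I = l ^ n := by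
    rw [Measure.real, Box.volume_apply']
    simp [h _]
  simp [this]

theorem update_cont (x : Fin n → ℝ) (i : Fin n) :
    Continuous fun t : ℝ => Function.update x i t :=
  continuous_const.update i continuous_id

theorem line_bound {v : (Fin n → ℝ) → ℝ} (hv : ContDiff ℝ 1 v) {I : Box (Fin n)} {l : ℝ}
    (hl : Side I l) {x : Fin n → ℝ} (hx : x ∈ I) (i : Fin n) :
    v x ≤ ∫ t in Ioc (I.lower i) (I.upper i),
      (√(gs v (Function.update x i t)) + v (Function.update x i t) / l) := by
  have hlt : I.lower i < I.upper i := I.lower_lt_upper i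
  have hl0 : 0 < l := by rw [← hl i]; linarith
  have hxi : x i ∈ Ioc (I.lower i) (I.upper i) := hx i
  have cG : Continuous fun t : ℝ => √(gs v (Function.update x i t)) :=
    ((gs_continuous hv).comp (update_cont x i)).sqrt
  have cv : Continuous fun t : ℝ => v (Function.update x i t) :=
    hv.continuous.comp (update_cont x i)
  have cd : Continuous fun t : ℝ => pd i v (Function.update x i t) :=
    (pd_continuous hv i).comp (update_cont x i)
  have iG : IntegrableOn (fun t : ℝ => √(gs v (Function.update x i t)))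
      (Ioc (I.lower i) (I.upper i)) := cG.integrableOn_Icc.mono_set Ioc_subset_Icc_self
  have iv : IntegrableOn (fun t : ℝ => v (Function.update x i t))
      (Ioc (I.lower i) (I.upper i)) := cv.integrableOn_Icc.mono_set Ioc_subset_Icc_self
  set A := ∫ t in Ioc (I.lower i) (I.upper i), √(gs v (Function.update x i t)) with hA
  have key : ∀ t ∈ Ioc (I.lower i) (I.upper i), v x ≤ A + v (Function.update x i t) := by
    intro t ht
    have h1 : ∫ s in t..(x i), pd i v (Function.update x i s)
        = v (Function.update x i (x i)) - v (Function.update x i t) :=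
      intervalIntegral.integral_eq_sub_of_hasDerivAt
        (fun s _ => hasDerivAt_update_pd (cd_diff hv _)) (cd.intervalIntegrable _ _)
    rw [Function.update_eq_self] at h1
    have hsub : uIoc t (x i) ⊆ Ioc (I.lower i) (I.upper i) :=
      Ioc_subset_Ioc (le_min ht.1.le hxi.1.le) (max_le ht.2 hxi.2)
    have h2 : ‖∫ s in t..(x i), pd i v (Function.update x i s)‖ ≤ A := by
      refine intervalIntegral.norm_integral_le_integral_norm_uIoc.trans ?_
      refine le_trans (setIntegral_mono_on ?_ (iG.mono_set hsub) measurableSet_uIoc ?_) ?_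
      · exact (cd.norm.integrableOn_Icc.mono_set Ioc_subset_Icc_self).mono_set hsub
      · intro s _
        exact Real.abs_le_sqrt (sq_pd_le_gs v _ i)
      · exact setIntegral_mono_set iG (Eventually.of_forall fun s => Real.sqrt_nonneg _)
          hsub.eventuallyLE
    have := (le_abs_self _).trans h2
    linarith
  have h3 : ∫ _ in Ioc (I.lower i) (I.upper i), (v x - A)
      ≤ ∫ t in Ioc (I.lower i) (I.upper i), v (Function.update x i t) :=
    setIntegral_mono_on (by simp) iv measurableSet_Ioc fun t ht => by linarith [key t ht]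
  have h4 : ∫ _ in Ioc (I.lower i) (I.upper i), (v x - A) = l * (v x - A) := by
    simp [hl i, hl0.le]
  rw [integral_add iG (iv.div_const l), integral_div, ← hA]
  rw [h4] at h3
  have : v x - A ≤ (∫ t in Ioc (I.lower i) (I.upper i), v (Function.update x i t)) / l := by
    rw [le_div_iff₀ hl0]; linarith
  linarith

theorem gns_box (hn : 2 ≤ n) {v : (Fin n → ℝ) → ℝ} (hv : ContDiff ℝ 1 v) (h0 : ∀ x, 0 ≤ v x)
    {I : Box (Fin n)} {l : ℝ} (hl : Side I l) :
    ∫ x in (I : Set (Fin n → ℝ)), v x ^ ((n : ℝ) / (n - 1))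
      ≤ (∫ x in (I : Set (Fin n → ℝ)), (√(gs v x) + v x / l)) ^ ((n : ℝ) / (n - 1)) := by
  have hn1 : (1 : ℝ) < n := by exact_mod_cast hn
  have hn0 : (0 : ℝ) < n - 1 := by linarith
  have hl0 : 0 < l := by
    rw [← hl ⟨0, by omega⟩]; linarith [I.lower_lt_upper ⟨0, by omega⟩]
  have hp : Real.HolderConjugate (Fintype.card (Fin n)) ((n : ℝ) / (n - 1)) := by
    rw [Fintype.card_fin]
    exact Real.HolderConjugate.conjExponent hn1
  have hp0 : 0 ≤ (n : ℝ) / (n - 1) := by positivity
  set F : (Fin n → ℝ) → ℝ := fun x => √(gs v x) + v x / l with hF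
  have cF : Continuous F := (gs_continuous hv).sqrt.add (hv.continuous.div_const l)
  have F0 : ∀ x, 0 ≤ F x := fun x => add_nonneg (Real.sqrt_nonneg _) (div_nonneg (h0 x) hl0.le)
  have key := lintegral_prod_lintegral_pow_le
    (μ := fun i : Fin n => (volume : Measure ℝ).restrict (Ioc (I.lower i) (I.upper i))) hp
    (f := fun x => ENNReal.ofReal (F x)) cF.measurable.ennreal_ofReal
  have hm : Measure.pi (fun i : Fin n => (volume : Measure ℝ).restrict
      (Ioc (I.lower i) (I.upper i))) = volume.restrict (I : Set (Fin n → ℝ)) := by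
    rw [Box.coe_eq_pi, volume_pi, Measure.restrict_pi_pi]
  rw [hm, Fintype.card_fin] at key
  have cvp : Continuous fun x => v x ^ ((n : ℝ) / (n - 1)) :=
    hv.continuous.rpow_const fun _ => Or.inr hp0
  rw [← ofReal_integral_eq_lintegral_ofReal ((LB.of_cont cF).box I)
    (Eventually.of_forall F0), ENNReal.ofReal_rpow_of_nonneg (integral_nonneg F0) hp0] at key
  rw [← ENNReal.ofReal_le_ofReal_iff (Real.rpow_nonneg (integral_nonneg F0) _),
    ofReal_integral_eq_lintegral_ofReal ((LB.of_cont cvp).box I)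
      (Eventually.of_forall fun x => Real.rpow_nonneg (h0 x) _)]
  refine le_trans (setLIntegral_mono' I.measurableSet_coe fun x hx => ?_) key
  have h1 : ENNReal.ofReal (v x ^ ((n : ℝ) / (n - 1)))
      = ∏ _i : Fin n, ENNReal.ofReal (v x) ^ ((1 : ℝ) / (n - 1)) := by
    rw [Finset.prod_const, Finset.card_univ, Fintype.card_fin, ← ENNReal.rpow_natCast,
      ← ENNReal.rpow_mul, ENNReal.ofReal_rpow_of_nonneg (h0 x) (by positivity)]
    congr 2
    ring
  rw [h1]
  refine Finset.prod_le_prod' fun i _ => ENNReal.rpow_le_rpow ?_ (by positivity)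
  have ci : Continuous fun t : ℝ => F (Function.update x i t) := cF.comp (update_cont x i)
  rw [← ofReal_integral_eq_lintegral_ofReal
    (ci.integrableOn_Icc.mono_set Ioc_subset_Icc_self) (Eventually.of_forall fun t => F0 _)]
  exact ENNReal.ofReal_le_ofReal (line_bound hv hl hx i)

/-- Sobolev inequality for small support -/
theorem sob_box (hn : 2 ≤ n) {v : (Fin n → ℝ) → ℝ} (hv : ContDiff ℝ 1 v) (h0 : ∀ x, 0 ≤ v x)
    {I : Box (Fin n)} {l : ℝ} (hl : Side I l) {S : Set (Fin n → ℝ)} (hS : MeasurableSet S)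
    (hvS : ∀ x, x ∉ S → v x = 0)
    (hV : ∫ x in (I : Set (Fin n → ℝ)), S.indicator (fun _ => (1 : ℝ)) x ≤ (l / 2) ^ n) :
    (∫ x in (I : Set (Fin n → ℝ)), v x ^ ((n : ℝ) / (n - 1))) ^ (((n : ℝ) - 1) / n)
      ≤ 2 * ∫ x in (I : Set (Fin n → ℝ)), √(gs v x) := by
  have hn1 : (1 : ℝ) < n := by exact_mod_cast hn
  have hn0 : (0 : ℝ) < n - 1 := by linarith
  have hl0 : 0 < l := by
    rw [← hl ⟨0, by omega⟩]; linarith [I.lower_lt_upper ⟨0, by omega⟩]
  set p : ℝ := (n : ℝ) / (n - 1) with hpdef
  have hp : Real.HolderConjugate p n := (Real.HolderConjugate.conjExponent hn1).symm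
  have hp0 : 0 < p := by positivity
  have cvp : Continuous fun x => v x ^ p := hv.continuous.rpow_const fun _ => Or.inr hp0.le
  set X := ∫ x in (I : Set (Fin n → ℝ)), v x ^ p with hX
  have X0 : 0 ≤ X := integral_nonneg fun x => Real.rpow_nonneg (h0 x) _
  set G := ∫ x in (I : Set (Fin n → ℝ)), √(gs v x) with hG
  have G0 : 0 ≤ G := integral_nonneg fun x => Real.sqrt_nonneg _
  set Y := X ^ (((n : ℝ) - 1) / n) with hY
  have Y0 : 0 ≤ Y := Real.rpow_nonneg X0 _
  have hinv : p * (((n : ℝ) - 1) / n) = 1 := by rw [hpdef]; field_simp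
  have hYX : Y ^ p = X := by
    rw [hY, ← Real.rpow_mul X0, mul_comm, hinv, Real.rpow_one]
  have iG := (LB.of_cont (gs_continuous hv).sqrt).box I
  have iv := (LB.of_cont hv.continuous).box I
  set N := ∫ x in (I : Set (Fin n → ℝ)), v x with hN
  have N0 : 0 ≤ N := integral_nonneg h0
  have h1 : Y ≤ G + N / l := by
    have h := gns_box hn hv h0 hl
    rw [integral_add iG (iv.div_const l), integral_div] at h
    have h2 := Real.rpow_le_rpow X0 h (show 0 ≤ ((n : ℝ) - 1) / n by positivity)
    rwa [← Real.rpow_mul (by positivity), hinv, Real.rpow_one] at h2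
  rcases Y0.eq_or_lt with hY0 | hY0
  · rw [← hY0]; positivity
  have h2 : N ≤ Y * (l / 2) := by
    have hb : ∀ x ∈ (I : Set (Fin n → ℝ)), v x ≤ (Y * (l / 2) / Y ^ p / p) * v x ^ p
        + (Y * (l / 2) / (l / 2) ^ n / n) * S.indicator (fun _ => (1 : ℝ)) x := by
      intro x _
      by_cases hx : x ∈ S
      · have y := Real.young_inequality_of_nonneg (a := v x / Y) (b := 1 / (l / 2))
          (div_nonneg (h0 x) Y0) (by positivity) hp
        rw [Real.div_rpow (h0 x) Y0, Real.rpow_natCast] at y
        have y2 := mul_le_mul_of_nonneg_left y (show 0 ≤ Y * (l / 2) by positivity)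
        have e1 : Y * (l / 2) * (v x / Y * (1 / (l / 2))) = v x := by field_simp
        rw [e1] at y2
        refine y2.trans_eq ?_
        rw [indicator_of_mem hx, one_div_pow]
        ring
      · rw [hvS x hx, indicator_of_notMem hx, Real.zero_rpow hp0.ne']; simp
    have h3 := lin2 I.measurableSet_coe iv ((LB.of_cont cvp).box I) ((LB.ind hS).box I) hb
    rw [← hX, ← hYX, ← hN] at h3
    have hYp : 0 < Y ^ p := Real.rpow_pos_of_pos hY0 _
    have h4 : Y * (l / 2) / (l / 2) ^ n / n
        * ∫ x in (I : Set (Fin n → ℝ)), S.indicator (fun _ => (1 : ℝ)) x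
        ≤ Y * (l / 2) / (l / 2) ^ n / n * (l / 2) ^ n :=
      mul_le_mul_of_nonneg_left hV (by positivity)
    have h5 : Y * (l / 2) / Y ^ p / p * Y ^ p + Y * (l / 2) / (l / 2) ^ n / n * (l / 2) ^ n
        = Y * (l / 2) := by
      rw [hpdef]; field_simp; ring
    linarith
  have h6 : N / l ≤ Y / 2 := by rw [div_le_iff₀ hl0]; linarith
  linarith

end Pool.Agent.MP_478eab_an.V
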