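import Mathlib
import Pool.Agent.MP_478eab_an.V.Exist

/-! Pointwise comparison with a radial decreasing subsolution. -/

namespace Pool.Agent.MP_478eab_an.V

open MeasureTheory Set Filter Topology

variable {n : ℕ} {μ : ℝ} {m θ : (Fin n → ℝ) → ℝ}

theorem second_nonpos {φ φ' : ℝ → ℝ} {c t : ℝ} (h1 : ∀ s, HasDerivAt φ (φ' s) s)
    (h2 : HasDerivAt φ' c t) (hm : IsLocalMax φ t) : c ≤ 0 := by
  by_contra hc
  push Not at hc
  have e : deriv φ = φ' := funext fun s => (h1 s).deriv
  have hmin : IsLocalMin φ t := isLocalMin_of_deriv_deriv_pos (by rw [e, h2.deriv]; exact hc)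
    hm.deriv_eq_zero (h1 t).continuousAt
  have h3 : φ =ᶠ[𝓝 t] fun _ => φ t := by
    filter_upwards [hm, hmin] with s a b using le_antisymm a b
  have h4 := h3.deriv.deriv_eq
  rw [e, h2.deriv] at h4
  simp at h4
  linarith

theorem nsq_update (x : Fin n → ℝ) (i : Fin n) (t : ℝ) :
    HasDerivAt (fun s => nsq (Function.update x i s)) (2 * t) t := by
  have := (nsq_has (Function.update x i t)).comp_hasDerivAt t (hasDerivAt_update x i t)
  refine this.congr_deriv ?_
  simp [dl_single]

theorem nsq_le_of_mem {x : Fin n → ℝ} (hx : x ∈ Icc (-1 : Fin n → ℝ) 1) : nsq x ≤ n := by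
  calc nsq x ≤ ∑ _i : Fin n, (1 : ℝ) := Finset.sum_le_sum fun i _ => by
        have h1 : -1 ≤ x i := hx.1 i
        have h2 : x i ≤ 1 := hx.2 i
        nlinarith
    _ = n := by simp

theorem Cl.comp (h : Cl μ m θ) (hμ : 0 < μ) {g g1 g2 : ℝ → ℝ} {δ : ℝ} (hδ : 0 < δ)
    (hg : ∀ y, 0 < y → HasDerivAt g (g1 y) y) (hg1 : ∀ y, 0 < y → HasDerivAt g1 (g2 y) y)
    (neg : ∀ y, δ ≤ y → y ≤ δ + n → g1 y < 0)
    (sub : ∀ x ∈ Icc (-1 : Fin n → ℝ) 1,
      0 ≤ μ * (4 * nsq x * g2 (δ + nsq x) + 2 * n * g1 (δ + nsq x))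
        + g (δ + nsq x) * (m x - g (δ + nsq x))) :
    ∀ x ∈ Icc (-1 : Fin n → ℝ) 1, g (δ + nsq x) ≤ θ x := by
  have y0 : ∀ x : Fin n → ℝ, 0 < δ + nsq x := fun x => by linarith [nsq_nonneg x]
  have wc : Continuous fun x : Fin n → ℝ => g (δ + nsq x) :=
    continuous_iff_continuousAt.2 fun x => ContinuousAt.comp (f := fun x => δ + nsq x)
      (hg _ (y0 x)).continuousAt (continuous_const.add nsq_cont).continuousAt
  obtain ⟨p, hp, hmax⟩ := (isCompact_Icc (a := (-1 : Fin n → ℝ)) (b := 1)).exists_isMaxOn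
    ⟨0, by constructor <;> intro i <;> simp⟩
    (wc.div h.cd.continuous fun x => (h.pos x).ne').continuousOn
  obtain ⟨s, hs⟩ : ∃ s, s = g (δ + nsq p) / θ p := ⟨_, rfl⟩
  have hle : ∀ x ∈ Icc (-1 : Fin n → ℝ) 1, g (δ + nsq x) ≤ s * θ x := fun x hx => by
    rw [← div_le_iff₀ (h.pos x), hs]; exact hmax hx
  have hsp : g (δ + nsq p) = s * θ p := by rw [hs, div_mul_cancel₀ _ (h.pos p).ne']
  rcases le_or_gt s 1 with s1 | s1
  · exact fun x hx => (hle x hx).trans (by nlinarith [h.pos x])
  exfalso
  have hneg := neg _ (by linarith [nsq_nonneg p]) (add_le_add_right (nsq_le_of_mem hp) δ)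
  have key : ∀ i, 4 * p i ^ 2 * g2 (δ + nsq p) + 2 * g1 (δ + nsq p)
      - s * pd i (pd i θ) p ≤ 0 := fun i => by
    have hu : Function.update p i (p i) = p := Function.update_eq_self i p
    have d1 : ∀ t, HasDerivAt
        (fun t => g (δ + nsq (Function.update p i t)) - s * θ (Function.update p i t))
        (g1 (δ + nsq (Function.update p i t)) * (2 * t) - s * pd i θ (Function.update p i t)) t :=
      fun t => ((hg _ (y0 _)).comp t ((nsq_update p i t).const_add δ)).sub
        ((hasDerivAt_update_pd (cd_diff h.cd _)).const_mul s)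
    have d2 := ((((hg1 _ (y0 _)).comp (p i) ((nsq_update p i (p i)).const_add δ)).mul
      ((hasDerivAt_id (p i)).const_mul 2)).sub
        ((hasDerivAt_update_pd (t := p i) (x := p) (i := i) (h.d2 i _)).const_mul s))
    have hb : ∀ t, -1 ≤ t → t ≤ 1 →
        g (δ + nsq (Function.update p i t)) - s * θ (Function.update p i t)
          ≤ g (δ + nsq (Function.update p i (p i))) - s * θ (Function.update p i (p i)) :=
      fun t t1 t2 => by
        rw [hu, hsp, sub_self, sub_nonpos]
        refine hle _ ⟨fun l => ?_, fun l => ?_⟩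
        · by_cases hl : l = i
          · subst hl; simpa using t1
          · simpa [hl] using hp.1 l
        · by_cases hl : l = i
          · subst hl; simpa using t2
          · simpa [hl] using hp.2 l
    have p1 : -1 ≤ p i := hp.1 i
    have p2 : p i ≤ 1 := hp.2 i
    rcases p1.eq_or_lt with q1 | q1
    · exfalso
      have z : pd i θ p = 0 := h.sym.neumann (cd_diff h.cd) (j := -1) (by simp [← q1])
      have := le_of_tendsto (b := 0) (d1 (p i)).tendsto_slope_zero_right (by
        filter_upwards [Ioo_mem_nhdsGT (show (0 : ℝ) < 1 by norm_num)] with t ht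
        exact mul_nonpos_of_nonneg_of_nonpos (inv_pos.2 ht.1).le
          (sub_nonpos.2 (hb _ (by linarith [ht.1]) (by linarith [ht.2]))))
      rw [hu, z, ← q1] at this
      linarith
    rcases p2.eq_or_lt with q2 | q2
    · exfalso
      have z : pd i θ p = 0 := h.sym.neumann (cd_diff h.cd) (j := 1) (by simp [q2])
      have := ge_of_tendsto (b := 0) (d1 (p i)).tendsto_slope_zero_left (by
        filter_upwards [Ioo_mem_nhdsLT (show (-1 : ℝ) < 0 by norm_num)] with t ht
        exact mul_nonneg_of_nonpos_of_nonpos (inv_lt_zero.2 ht.2).le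
          (sub_nonpos.2 (hb _ (by linarith [ht.1]) (by linarith [ht.2]))))
      rw [hu, z, q2] at this
      linarith
    have hm : IsLocalMax
        (fun t => g (δ + nsq (Function.update p i t)) - s * θ (Function.update p i t)) (p i) := by
      filter_upwards [Ioo_mem_nhds q1 q2] with t ht using hb t ht.1.le ht.2.le
    have := second_nonpos d1 d2 hm
    simp only [hu, Function.comp, id] at this
    linarith
  have h1 := Finset.sum_nonpos (s := Finset.univ) fun i _ => key i
  rw [Finset.sum_sub_distrib, Finset.sum_add_distrib, ← Finset.sum_mul, ← Finset.mul_sum,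
    ← Finset.mul_sum, ← Finset.mul_sum] at h1
  simp only [Finset.sum_const, Finset.card_univ, Fintype.card_fin, nsmul_eq_mul] at h1
  have h2 := sub p hp
  have h3 := h.eq p
  have h4 := mul_nonpos_of_nonneg_of_nonpos hμ.le h1
  have h5 : μ * (s * ∑ i, pd i (pd i θ) p) = -(s * θ p * (m p - θ p)) := by
    rw [mul_left_comm, h3]; ring
  have h6 : 0 < s * θ p * ((s - 1) * θ p) := by
    have := h.pos p
    have : 0 < s - 1 := by linarith
    positivity
  rw [hsp] at h2
  unfold nsq at h2 h4
  nlinarith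

end Pool.Agent.MP_478eab_an.V
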