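import Mathlib
import Pool.Agent.MP_478eab_an.V.Box

/-! The form bound on a cell that carries little resource. -/

namespace Pool.Agent.MP_478eab_an.V

open MeasureTheory Set Filter Topology BoxIntegral

variable {n : ℕ}

/-- measurable resource with values in `[0, κ]` everywhere -/
structure Res (κ : ℝ) (m : (Fin n → ℝ) → ℝ) : Prop where
  meas : Measurable m
  nn : ∀ x, 0 ≤ m x
  le : ∀ x, m x ≤ κ

theorem Res.lb {κ : ℝ} {m : (Fin n → ℝ) → ℝ} (h : Res κ m) : LB m :=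
  LB.of_bound h.meas (C := κ) fun x => by rw [abs_of_nonneg (h.nn x)]; exact h.le x

/-- form bound for `m` on `S` with remainder potential `W` -/
def FB (μ : ℝ) (m : (Fin n → ℝ) → ℝ) (S : Set (Fin n → ℝ)) (W : (Fin n → ℝ) → ℝ) : Prop :=
  ∀ u : (Fin n → ℝ) → ℝ, ContDiff ℝ 1 u → (∀ x ∈ S, 0 ≤ u x) →
    ∫ x in S, m x * u x ^ 2 ≤ μ / 2 * (∫ x in S, gs u x) + ∫ x in S, W x * u x ^ 2

/-- indicator of a superlevel set -/
noncomputable def lev (u : (Fin n → ℝ) → ℝ) (s : ℝ) : (Fin n → ℝ) → ℝ :=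
  {x | s < u x}.indicator (fun _ => (1 : ℝ))

theorem lev_meas {u : (Fin n → ℝ) → ℝ} (hu : Continuous u) (s : ℝ) :
    MeasurableSet {x | s < u x} := (isOpen_lt continuous_const hu).measurableSet

theorem lev_lb {u : (Fin n → ℝ) → ℝ} (hu : Continuous u) (s : ℝ) : LB (lev u s) :=
  LB.ind (lev_meas hu s)

theorem lev_pos {u : (Fin n → ℝ) → ℝ} {s : ℝ} {x : Fin n → ℝ} (h : s < u x) : lev u s x = 1 :=
  indicator_of_mem (s := {x | s < u x}) h _

theorem lev_neg {u : (Fin n → ℝ) → ℝ} {s : ℝ} {x : Fin n → ℝ} (h : u x ≤ s) : lev u s x = 0 :=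
  indicator_of_notMem (s := {x | s < u x}) (not_lt.2 h) _

theorem lev_nonneg (u : (Fin n → ℝ) → ℝ) (s : ℝ) (x : Fin n → ℝ) : 0 ≤ lev u s x := by
  rcases lt_or_ge s (u x) with h | h
  · rw [lev_pos h]; norm_num
  · rw [lev_neg h]

theorem lev_le_one (u : (Fin n → ℝ) → ℝ) (s : ℝ) (x : Fin n → ℝ) : lev u s x ≤ 1 := by
  rcases lt_or_ge s (u x) with h | h
  · rw [lev_pos h]
  · rw [lev_neg h]; norm_num

theorem lev_sq (u : (Fin n → ℝ) → ℝ) (s : ℝ) (x : Fin n → ℝ) : lev u s x ^ 2 = lev u s x := by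
  rcases lt_or_ge s (u x) with h | h
  · rw [lev_pos h]; norm_num
  · rw [lev_neg h]; norm_num

theorem lev_anti (u : (Fin n → ℝ) → ℝ) {s s' : ℝ} (h : s ≤ s') (x : Fin n → ℝ) :
    lev u s' x ≤ lev u s x := by
  rcases lt_or_ge s' (u x) with h' | h'
  · rw [lev_pos h', lev_pos (h.trans_lt h')]
  · rw [lev_neg h']; exact lev_nonneg _ _ _

theorem pp_two (x : ℝ) : pp 2 x = (max x 0) ^ 2 := by simp [pp]

theorem pp_of_nonpos {γ x : ℝ} (hγ : γ ≠ 0) (hx : x ≤ 0) : pp γ x = 0 := by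
  simp [pp, max_eq_right hx, Real.zero_rpow hγ]

theorem pp_shift (x t : ℝ) (ht : 0 ≤ t) : pp 2 x ≤ 2 * t ^ 2 + 2 * pp 2 (x - t) := by
  rw [pp_two, pp_two]
  have h1 : max x 0 ≤ t + max (x - t) 0 :=
    max_le (by linarith [le_max_left (x - t) 0]) (by linarith [le_max_right (x - t) 0])
  have h2 : 0 ≤ max x 0 := le_max_right _ _
  have h3 : max x 0 ^ 2 ≤ (t + max (x - t) 0) ^ 2 := pow_le_pow_left₀ h2 h1 2
  nlinarith [sq_nonneg (t - max (x - t) 0)]

theorem le_of_eta {a b K : ℝ} (hK : 0 ≤ K) (h : ∀ η, 0 < η → a ≤ b + η * K) : a ≤ b := by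
  refine le_of_forall_pos_le_add fun δ hδ => (h (δ / (K + 1)) (by positivity)).trans ?_
  have : δ / (K + 1) * K ≤ δ := by
    rw [div_mul_eq_mul_div, div_le_iff₀ (by positivity)]; nlinarith
  linarith

theorem light_of {μ κ l : ℝ} (hμ : 0 < μ) {m : (Fin n → ℝ) → ℝ} (hm : Res κ m)
    {I : Box (Fin n)} (hl0 : 0 < l)
    (H : ∀ u : (Fin n → ℝ) → ℝ, ContDiff ℝ 1 u → ∀ c E : ℝ, 0 < E →
      ∫ x in (I : Set (Fin n → ℝ)), gs u x ≤ E →
      ∫ x in (I : Set (Fin n → ℝ)), lev u c x ≤ (l / 2) ^ n →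
      ∫ x in (I : Set (Fin n → ℝ)), m x * pp 2 (u x - c) ≤ μ / 4 * E) :
    FB μ m I (fun _ => 2 ^ (n + 1) * (∫ x in (I : Set (Fin n → ℝ)), m x) / l ^ n) := by
  intro u hu h0
  set M := ∫ x in (I : Set (Fin n → ℝ)), m x with hM
  set U := ∫ x in (I : Set (Fin n → ℝ)), u x ^ 2 with hU
  set E := ∫ x in (I : Set (Fin n → ℝ)), gs u x with hE
  have M0 : 0 ≤ M := integral_nonneg hm.nn
  have U0 : 0 ≤ U := integral_nonneg fun x => sq_nonneg _
  have E0 : 0 ≤ E := integral_nonneg (gs_nonneg u)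
  have lu := LB.of_cont hu.continuous
  rw [integral_const_mul, ← hU]
  refine le_of_eta (K := μ / 2 + 2 ^ (n + 1) * M / l ^ n) (by positivity) fun η hη => ?_
  set c := √(2 ^ n * (U + η) / l ^ n) with hc
  have c2 : c ^ 2 = 2 ^ n * (U + η) / l ^ n := Real.sq_sqrt (by positivity)
  have c0 : 0 < c := Real.sqrt_pos.2 (by positivity)
  have hV : ∫ x in (I : Set (Fin n → ℝ)), lev u c x ≤ (l / 2) ^ n := by
    have h1 := lin1 I.measurableSet_coe ((lev_lb hu.continuous c).box I) (lu.sq.box I)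
      (a := 1 / c ^ 2) fun x _ => by
        rcases lt_or_ge c (u x) with h | h
        · rw [lev_pos h, one_div_mul_eq_div, le_div_iff₀ (by positivity)]; nlinarith
        · rw [lev_neg h]; positivity
    refine h1.trans ?_
    rw [← hU, c2, div_pow, one_div_mul_eq_div, div_div_eq_mul_div, div_le_div_iff₀ (by positivity)
      (by positivity)]
    have : 0 < l ^ n * 2 ^ n := by positivity
    nlinarith
  have h2 := H u hu c (E + η) (by positivity) (by linarith) hV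
  have lp : LB fun x => pp 2 (u x - c) :=
    LB.of_cont ((pp_cont zero_le_two).comp (hu.continuous.sub continuous_const))
  have h3 := lin2 I.measurableSet_coe ((hm.lb.mul lu.sq).box I) (hm.lb.box I)
    ((hm.lb.mul lp).box I) (a := 2 * c ^ 2) (b := 2) fun x hx => by
      have a := pp_shift (u x) c c0.le
      rw [pp_two, max_eq_left (h0 x hx)] at a
      nlinarith [mul_le_mul_of_nonneg_left a (hm.nn x)]
  rw [← hM, c2] at h3
  have e : 2 * (2 ^ n * (U + η) / l ^ n) * M + 2 * (μ / 4 * (E + η))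
      = μ / 2 * E + 2 ^ (n + 1) * M / l ^ n * U + η * (μ / 2 + 2 ^ (n + 1) * M / l ^ n) := by
    ring
  linarith

theorem sqrt_gs_comp {u : (Fin n → ℝ) → ℝ} (hu : ContDiff ℝ 1 u) {g : ℝ → ℝ} {g' : ℝ}
    {x : Fin n → ℝ} (hg : HasDerivAt g g' (u x)) :
    √(gs (fun y => g (u y)) x) = |g'| * √(gs u x) := by
  rw [gs_comp hg (cd_diff hu x), Real.sqrt_mul (sq_nonneg _), Real.sqrt_sq_eq_abs]

theorem pp_rpow (γ p x : ℝ) : pp γ x ^ p = pp (γ * p) x := by
  unfold pp; rw [← Real.rpow_mul (le_max_right _ _)]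

theorem sob_pow (hn : 2 ≤ n) {u : (Fin n → ℝ) → ℝ} (hu : ContDiff ℝ 1 u) {I : Box (Fin n)}
    {l c E γ : ℝ} (hl : Side I l) (hγ : 1 < γ)
    (hE : ∫ x in (I : Set (Fin n → ℝ)), gs u x ≤ E)
    (hV : ∫ x in (I : Set (Fin n → ℝ)), lev u c x ≤ (l / 2) ^ n) :
    ((∫ x in (I : Set (Fin n → ℝ)), pp (γ * (n / (n - 1))) (u x - c)) ^ (((n : ℝ) - 1) / n)) ^ 2
      ≤ 4 * γ ^ 2 * (∫ x in (I : Set (Fin n → ℝ)), pp ((γ - 1) * 2) (u x - c)) * E := by
  have hw : ContDiff ℝ 1 fun x => u x - c := hu.sub contDiff_const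
  have hv : ContDiff ℝ 1 fun x => pp γ (u x - c) := (pp_cd hγ).comp hw
  have h := sob_box hn hv (fun x => pp_nonneg _ _) hl (lev_meas hu.continuous c)
    (fun x hx => pp_of_nonpos (by linarith) (by simpa using hx)) hV
  simp only [pp_rpow] at h
  have e : ∀ x, √(gs (fun y => pp γ (u y - c)) x) = γ * (pp (γ - 1) (u x - c) * √(gs u x)) := by
    intro x
    rw [sqrt_gs_comp hu (g := fun y => pp γ (y - c))
      ((pp_hasDeriv hγ (u x - c)).comp_sub_const (u x) c),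
      abs_of_nonneg (mul_nonneg (by linarith) (pp_nonneg _ _)), mul_assoc]
  simp only [e, integral_const_mul] at h
  have l1 : LB fun x => pp (γ - 1) (u x - c) :=
    LB.of_cont ((pp_cont (by linarith)).comp hw.continuous)
  have l2 : LB fun x => √(gs u x) := LB.of_cont (gs_continuous hu).sqrt
  have h2 := cs (l1.sq.box I) (l2.sq.box I) ((l1.mul l2).box I)
  have e2 : ∀ x, pp (γ - 1) (u x - c) ^ 2 = pp ((γ - 1) * 2) (u x - c) := fun x => by
    rw [← pp_rpow, Real.rpow_two]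
  simp only [e2, Real.sq_sqrt (gs_nonneg u _)] at h2
  have P0 : 0 ≤ ∫ x in (I : Set (Fin n → ℝ)), pp ((γ - 1) * 2) (u x - c) :=
    integral_nonneg fun x => pp_nonneg _ _
  have h3 := pow_le_pow_left₀
    (Real.rpow_nonneg (integral_nonneg fun x => pp_nonneg _ _) _) h 2
  refine h3.trans ?_
  have h4 := h2.trans (mul_le_mul_of_nonneg_left hE P0)
  have : 0 ≤ 4 * γ ^ 2 := by positivity
  nlinarith [mul_le_mul_of_nonneg_left h4 this]

/-- light cells in dimension at least three -/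
theorem light3 (hn : 3 ≤ n) : ∃ c : ℝ, 0 < c ∧ c ≤ 1 ∧ ∀ (μ κ ε l : ℝ) (m : (Fin n → ℝ) → ℝ)
    (I : Box (Fin n)), 0 < μ → 0 < ε → Res κ m → Side I l → κ * ε ^ 2 ≤ c * μ →
    ∫ x in (I : Set (Fin n → ℝ)), m x ≤ κ * ε ^ n →
    FB μ m I (fun _ => 2 ^ (n + 1) * (∫ x in (I : Set (Fin n → ℝ)), m x) / l ^ n) := by
  obtain ⟨k, rfl⟩ : ∃ k, n = k + 2 := ⟨n - 2, by omega⟩
  have hk : (1 : ℝ) ≤ k := by exact_mod_cast (show 1 ≤ k by omega)
  have hk0 : (0 : ℝ) < k := by linarith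
  set γ : ℝ := 2 * (k + 1) / k with hγ
  set r : ℝ := 2 / k with hr
  have r0 : 0 < r := by positivity
  have γ1 : 1 < γ := by rw [hγ, lt_div_iff₀ hk0]; linarith
  set K : ℝ := (4 * γ ^ 2) ^ (1 + r) with hK
  have K0 : 0 < K := by positivity
  refine ⟨1 / (4 * (1 + K)), by positivity, by rw [div_le_one (by positivity)]; linarith, ?_⟩
  intro μ κ ε l m I hμ hε hm hl hc hM
  have hl0 : 0 < l := by rw [← hl 0]; linarith [I.lower_lt_upper 0]
  have κ0 : 0 ≤ κ := (hm.nn 0).trans (hm.le 0)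
  refine light_of hμ hm hl0 fun u hu c E E0 hE hV => ?_
  have h := sob_pow (by omega) hu hl γ1 hE hV
  have e1 : γ * (((k + 2 : ℕ) : ℝ) / (((k + 2 : ℕ) : ℝ) - 1)) = 2 + 2 * r := by
    rw [hγ, hr]; push_cast
    rw [show (k : ℝ) + 2 - 1 = k + 1 by ring]; field_simp
  have e2 : (γ - 1) * 2 = 2 + 2 * r := by rw [hγ, hr]; field_simp; ring
  rw [e1, e2] at h
  set X := ∫ x in (I : Set (Fin (k + 2) → ℝ)), pp (2 + 2 * r) (u x - c) with hX
  have X0 : 0 ≤ X := integral_nonneg fun x => pp_nonneg _ _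
  have hXb : X ≤ K * E ^ (1 + r) := by
    rcases X0.eq_or_lt with h0 | h0
    · rw [← h0]; positivity
    rw [← Real.rpow_natCast, ← Real.rpow_mul X0] at h
    have e3 : (((k + 2 : ℕ) : ℝ) - 1) / ((k + 2 : ℕ) : ℝ) * ((2 : ℕ) : ℝ) = 1 / (1 + r) + 1 := by
      rw [hr]; push_cast; field_simp; ring
    rw [e3, Real.rpow_add h0, Real.rpow_one] at h
    have h1 : X ^ (1 / (1 + r)) ≤ 4 * γ ^ 2 * E := by
      refine le_of_mul_le_mul_right ?_ h0
      linarith
    have h2 := Real.rpow_le_rpow (Real.rpow_nonneg X0 _) h1 (show 0 ≤ 1 + r by linarith)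
    rwa [← Real.rpow_mul X0, one_div_mul_cancel (by linarith), Real.rpow_one,
      Real.mul_rpow (by positivity) E0.le] at h2
  set L := E / ε ^ k with hL
  have L0 : 0 < L := by positivity
  have hLr : L ^ r = E ^ r / ε ^ 2 := by
    rw [hL, Real.div_rpow E0.le (by positivity), ← Real.rpow_natCast ε k, ← Real.rpow_mul hε.le,
      hr, mul_div_cancel₀ _ hk0.ne', Real.rpow_two]
  have Lr0 : 0 < L ^ r := Real.rpow_pos_of_pos L0 _
  have cw : Continuous fun x => u x - c := hu.continuous.sub continuous_const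
  have h3 := lin2 I.measurableSet_coe
    ((hm.lb.mul (LB.of_cont ((pp_cont zero_le_two).comp cw))).box I) (hm.lb.box I)
    ((LB.of_cont ((pp_cont (show 0 ≤ 2 + 2 * r by linarith)).comp cw)).box I)
    (a := L) (b := κ / L ^ r) fun x _ => by
      simp only [Function.comp]
      have p0 := pp_nonneg 2 (u x - c)
      have q0 := pp_nonneg (2 + 2 * r) (u x - c)
      rcases le_total (pp 2 (u x - c)) L with h | h
      · have := mul_le_mul_of_nonneg_left h (hm.nn x)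
        have : 0 ≤ κ / L ^ r * pp (2 + 2 * r) (u x - c) := by positivity
        linarith
      · have e : pp (2 + 2 * r) (u x - c) = pp 2 (u x - c) * pp 2 (u x - c) ^ r := by
          rw [show 2 + 2 * r = 2 * (1 + r) by ring, ← pp_rpow,
            Real.rpow_add (L0.trans_le h), Real.rpow_one]
        have h5 : L ^ r ≤ pp 2 (u x - c) ^ r := Real.rpow_le_rpow L0.le h r0.le
        have h6 : κ * pp 2 (u x - c) ≤ κ / L ^ r * pp (2 + 2 * r) (u x - c) := by
          rw [e, div_mul_eq_mul_div, le_div_iff₀ Lr0]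
          nlinarith [mul_le_mul_of_nonneg_left h5 (mul_nonneg κ0 p0)]
        have := mul_le_mul_of_nonneg_right (hm.le x) p0
        have := mul_nonneg L0.le (hm.nn x)
        linarith
  simp only [Function.comp] at h3
  rw [← hX] at h3
  have h4 : L * ∫ x in (I : Set (Fin (k + 2) → ℝ)), m x ≤ κ * ε ^ 2 * E := by
    refine (mul_le_mul_of_nonneg_left hM L0.le).trans_eq ?_
    rw [hL]; field_simp; ring
  have h5 : κ / L ^ r * X ≤ κ * ε ^ 2 * E * K := by
    refine (mul_le_mul_of_nonneg_left hXb (by positivity)).trans_eq ?_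
    have : 0 < E ^ r := Real.rpow_pos_of_pos E0 _
    rw [hLr, Real.rpow_add E0, Real.rpow_one]; field_simp
  have h6 : κ * ε ^ 2 * (1 + K) ≤ μ / 4 := by
    have := mul_le_mul_of_nonneg_right hc (show 0 ≤ 1 + K by linarith)
    refine this.trans_eq ?_
    field_simp
  nlinarith [mul_le_mul_of_nonneg_right h6 E0.le]

end Pool.Agent.MP_478eab_an.V
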