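import Mathlib
import Pool.Agent.MP_478eab_an.V.Light

/-! Energy estimates for solutions. -/

namespace Pool.Agent.MP_478eab_an.V

open MeasureTheory Set Filter Topology

variable {n : ℕ} {μ κ : ℝ} {m θ : (Fin n → ℝ) → ℝ}

theorem cacc (hm : Res κ m) (hs : IsSol μ m θ) {ζ : (Fin n → ℝ) → ℝ} (hζ : ContDiff ℝ 1 ζ) :
    μ * (∫ x in cube n, gs (fun y => θ y * ζ y) x) + ∫ x in cube n, θ x ^ 3 * ζ x ^ 2
      = (∫ x in cube n, m x * (θ x * ζ x) ^ 2) + μ * ∫ x in cube n, θ x ^ 2 * gs ζ x := by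
  obtain ⟨hθ, -, hw⟩ := hs
  have hu : ContDiff ℝ 1 fun y => θ y * ζ y := hθ.mul hζ
  have h := hw (fun y => θ y * ζ y * ζ y) (hu.mul hζ)
  have lθ := LB.of_cont hθ.continuous
  have lζ := LB.of_cont hζ.continuous
  have e1 := eq2 (S := cube n)
    (f := fun x => ∑ i, pd i θ x * pd i (fun y => θ y * ζ y * ζ y) x) (a := 1) (b := -1)
    (LB.of_cont (gs_continuous hu)).cube (lθ.sq.mul (LB.of_cont (gs_continuous hζ))).cube
    fun x => by
      unfold gs
      rw [Finset.mul_sum, Finset.mul_sum, Finset.mul_sum, ← Finset.sum_add_distrib]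
      refine Finset.sum_congr rfl fun i _ => ?_
      rw [pd_mul (cd_diff hu x) (cd_diff hζ x), pd_mul (cd_diff hθ x) (cd_diff hζ x)]
      ring
  have e2 := eq2 (S := cube n) (f := fun x => θ x * (m x - θ x) * (θ x * ζ x * ζ x))
    (a := 1) (b := -1) (hm.lb.mul (lθ.mul lζ).sq).cube
    ((LB.of_cont (hθ.continuous.pow 3)).mul lζ.sq).cube fun x => by
      simp only [Pi.pow_apply]; ring
  simp only [Pi.pow_apply] at e2
  rw [e1, e2] at h
  linarith

theorem cacc_fb (hm : Res κ m) (hs : IsSol μ m θ) {W : (Fin n → ℝ) → ℝ}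
    (hF : FB μ m (cube n) W) {ζ : (Fin n → ℝ) → ℝ} (hζ : ContDiff ℝ 1 ζ) (h0 : ∀ x, 0 ≤ ζ x) :
    μ / 2 * (∫ x in cube n, gs (fun y => θ y * ζ y) x) + ∫ x in cube n, θ x ^ 3 * ζ x ^ 2
      ≤ (∫ x in cube n, W x * (θ x * ζ x) ^ 2) + μ * ∫ x in cube n, θ x ^ 2 * gs ζ x := by
  have a := cacc hm hs hζ
  have b := hF _ (hs.1.mul hζ) fun x hx => mul_nonneg (hs.2.1 x hx).le (h0 x)
  linarith

theorem inv_sq_cont {D : (Fin n → ℝ) → ℝ} (hD : Continuous D) (D0 : ∀ x, 0 < D x) (s : ℕ) :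
    Continuous fun x => 1 / (D x ^ 2) ^ s :=
  continuous_const.div ((hD.pow 2).pow s) fun x => (pow_pos (pow_pos (D0 x) 2) s).ne'

/-- Keller-Osserman bound by an energy argument -/
theorem ko (hμ : 0 < μ) (hm : Res κ m) (hs : IsSol μ m θ) {D : (Fin n → ℝ) → ℝ} {K N : ℝ}
    (hD : ContDiff ℝ 1 D) (D0 : ∀ x, 0 < D x) (hN : ∀ x, gs D x ≤ N) (hK : 0 < K)
    (hF : FB μ m (cube n) fun x => K / D x ^ 2) :
    ∫ x in cube n, θ x ≤ 5 * (K + 4 * N * μ) * ∫ x in cube n, 1 / (D x ^ 2) ^ 1 := by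
  have N0 : 0 ≤ N := (gs_nonneg D 0).trans (hN 0)
  have hζ : ContDiff ℝ 1 fun x => D x ^ 2 := hD.pow 2
  have h := cacc_fb hm hs hF hζ fun x => sq_nonneg _
  have cθ := hs.1.continuous
  have cD := hD.continuous
  have G0 : 0 ≤ ∫ x in cube n, gs (fun y => θ y * D y ^ 2) x := integral_nonneg (gs_nonneg _)
  set L := K + 4 * N * μ with hL
  have L0 : 0 < L := by positivity
  have iX : IntegrableOn (fun x => θ x ^ 3 * (D x ^ 2) ^ 2) (cube n) :=
    (LB.of_cont (by fun_prop)).cube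
  have iY : IntegrableOn (fun x => θ x ^ 2 * D x ^ 2) (cube n) := (LB.of_cont (by fun_prop)).cube
  have iZ := (LB.of_cont (inv_sq_cont cD D0 1)).cube
  have e1 : ∫ x in cube n, K / D x ^ 2 * (θ x * D x ^ 2) ^ 2
      = K * ∫ x in cube n, θ x ^ 2 * D x ^ 2 := by
    rw [← integral_const_mul]
    refine integral_congr_ae (Eventually.of_forall fun x => ?_)
    have := D0 x
    simp only; field_simp
  have h1 := lin1 cube_meas
    ((LB.of_cont cθ).sq.mul (LB.of_cont (gs_continuous hζ))).cube iY (a := 4 * N) fun x _ => by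
      rw [gs_comp (g := fun y => y ^ 2) (hasDerivAt_pow 2 (D x)) (cd_diff hD x)]
      have := mul_le_mul_of_nonneg_left (hN x) (show 0 ≤ 4 * θ x ^ 2 * D x ^ 2 by positivity)
      norm_num
      nlinarith
  have h2 := lin2 cube_meas iY iX iZ (a := 1 / (2 * L)) (b := 2 * L ^ 2) fun x hx => by
    have d := pow_pos (D0 x) 2
    have t := hs.2.1 x hx
    generalize D x ^ 2 = q at d ⊢
    have y0 : 0 < θ x * q / L := by positivity
    have : (θ x * q / L) ^ 2 ≤ (θ x * q / L) ^ 3 / 2 + 2 := by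
      generalize θ x * q / L = y at y0
      nlinarith [mul_nonneg y0.le (sq_nonneg (y - 2)), sq_nonneg (y - 1)]
    have := mul_le_mul_of_nonneg_right this (show 0 ≤ L ^ 2 / q by positivity)
    refine le_trans (le_of_eq ?_) (this.trans_eq ?_) <;> field_simp
  have h3 := lin2 cube_meas (LB.of_cont cθ).cube iX iZ (a := 1 / L ^ 2) (b := L) fun x hx => by
    have d := pow_pos (D0 x) 2
    have t := hs.2.1 x hx
    generalize D x ^ 2 = q at d ⊢
    have y0 : 0 < θ x * q / L := by positivity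
    have : θ x * q / L ≤ (θ x * q / L) ^ 3 + 1 := by
      generalize θ x * q / L = y at y0
      nlinarith [mul_nonneg y0.le (sq_nonneg (y - 1)), sq_nonneg (y - 1), sq_nonneg y]
    have := mul_le_mul_of_nonneg_right this (show 0 ≤ L / q by positivity)
    refine le_trans (le_of_eq ?_) (this.trans_eq ?_) <;> field_simp
  rw [e1] at h
  set X := ∫ x in cube n, θ x ^ 3 * (D x ^ 2) ^ 2
  set Y := ∫ x in cube n, θ x ^ 2 * D x ^ 2
  set Z := ∫ x in cube n, 1 / (D x ^ 2) ^ 1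
  have h4 : X ≤ L * Y := by
    have := mul_le_mul_of_nonneg_left h1 hμ.le
    have : 0 ≤ μ / 2 * ∫ x in cube n, gs (fun y => θ y * D y ^ 2) x := by positivity
    rw [hL]; nlinarith
  have h5 : X ≤ 4 * L ^ 3 * Z := by
    have a := mul_le_mul_of_nonneg_left h2 L0.le
    have e : L * (1 / (2 * L) * X + 2 * L ^ 2 * Z) = X / 2 + 2 * L ^ 3 * Z := by field_simp
    linarith
  have h6 : 1 / L ^ 2 * X ≤ 4 * L * Z := by
    refine (mul_le_mul_of_nonneg_left h5 (by positivity)).trans_eq ?_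
    field_simp
  linarith

theorem ko_const (hμ : 0 < μ) (hm : Res κ m) (hs : IsSol μ m θ) {K : ℝ} (hK : 0 < K)
    (hF : FB μ m (cube n) fun _ => K) : ∫ x in cube n, θ x ≤ 5 * K := by
  have := ko hμ hm hs (D := fun _ => 1) (N := 0) contDiff_const (fun _ => one_pos)
    (fun x => by simp [gs, pd_const]) hK (by simpa using hF)
  rw [int_cube_const] at this
  simpa using this

theorem l2_bound (hm : Res κ m) (hs : IsSol μ m θ) :
    ∫ x in cube n, θ x ^ 2 ≤ κ * ∫ x in cube n, m x := by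
  have h := hs.2.2 (fun _ => 1) contDiff_const
  have lθ := LB.of_cont hs.1.continuous
  simp only [pd_const, mul_zero, Finset.sum_const_zero, integral_zero, mul_one] at h
  have h1 := lin2 cube_meas (lθ.mul (hm.lb.sub lθ)).cube lθ.sq.cube hm.lb.cube
    (a := -(1 / 2)) (b := κ / 2) fun x _ => by
      nlinarith [sq_nonneg (θ x - m x), mul_le_mul_of_nonneg_left (hm.le x) (hm.nn x)]
  linarith

theorem sq_int_le {f : (Fin n → ℝ) → ℝ} (hf : Continuous f) :
    (∫ x in cube n, f x) ^ 2 ≤ ∫ x in cube n, f x ^ 2 := by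
  have l := LB.of_cont hf
  have := cs l.sq.cube (LB.const (n := n) 1).sq.cube (l.mul (LB.const 1)).cube
  rw [int_cube_const] at this
  simpa using this

theorem sum_mul_le (f g : Fin n → ℝ) (a b β : ℝ) (hβ : 0 < β) :
    -(∑ i, f i * (a * b * g i)) ≤ β * (a ^ 2 * ∑ i, f i ^ 2) + 1 / (4 * β) * (b ^ 2 * ∑ i, g i ^ 2) := by
  rw [Finset.mul_sum, Finset.mul_sum, Finset.mul_sum, Finset.mul_sum, ← Finset.sum_add_distrib,
    ← Finset.sum_neg_distrib]
  refine Finset.sum_le_sum fun i _ => ?_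
  have : 0 ≤ 1 / (4 * β) * (2 * β * (a * f i) + b * g i) ^ 2 := by positivity
  have e : 1 / (4 * β) * (2 * β * (a * f i) + b * g i) ^ 2
      = β * (a ^ 2 * f i ^ 2) + 1 / (4 * β) * (b ^ 2 * g i ^ 2) + f i * (a * b * g i) := by
    field_simp; ring
  linarith

/-- the logarithmic cut-off -/
theorem exists_cut {D : (Fin n → ℝ) → ℝ} (hD : ContDiff ℝ 1 D) (D0 : ∀ x, 0 < D x) {N r Λ : ℝ}
    (hN : ∀ x, gs D x ≤ N) (hr : 0 < r) (hΛ : 0 < Λ) :
    ∃ ψ : (Fin n → ℝ) → ℝ, ContDiff ℝ 1 ψ ∧ (∀ x, 0 ≤ ψ x ∧ ψ x ≤ 1) ∧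
      (∀ x, D x ≤ r → ψ x = 0) ∧ (∀ x, r * Real.exp Λ ≤ D x → ψ x = 1) ∧
      ∀ x, D x ^ 2 * gs ψ x ≤ 4 * N / Λ ^ 2 := by
  obtain ⟨g, g', hg, cg', g01, g0, g1, g2, -, -⟩ := exists_step
  have hl : ContDiff ℝ 1 fun x => (Real.log (D x) - Real.log r) / Λ :=
    ((hD.log fun x => (D0 x).ne').sub contDiff_const).div_const Λ
  refine ⟨fun x => g ((Real.log (D x) - Real.log r) / Λ), (cd_of_hasDeriv hg cg').comp hl,
    fun x => g01 _, fun x hx => g0 _ (div_nonpos_of_nonpos_of_nonneg ?_ hΛ.le),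
    fun x hx => g1 _ ?_, fun x => ?_⟩
  · linarith [Real.log_le_log (D0 x) hx]
  · have := Real.log_le_log (by positivity) hx
    rw [Real.log_mul hr.ne' (Real.exp_pos _).ne', Real.log_exp] at this
    rw [le_div_iff₀ hΛ]; linarith
  · have h := (hg ((Real.log (D x) - Real.log r) / Λ)).comp (D x)
      (((Real.hasDerivAt_log (D0 x).ne').sub_const (Real.log r)).div_const Λ)
    rw [gs_comp (g := fun y => g ((Real.log y - Real.log r) / Λ)) h (cd_diff hD x)]
    have d := D0 x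
    have e : D x ^ 2 * ((g' ((Real.log (D x) - Real.log r) / Λ) * ((D x)⁻¹ / Λ)) ^ 2 * gs D x)
        = g' ((Real.log (D x) - Real.log r) / Λ) ^ 2 * gs D x / Λ ^ 2 := by field_simp
    rw [e]
    exact div_le_div_of_nonneg_right
      (mul_le_mul (g2 _) (hN x) (gs_nonneg _ _) (by norm_num)) (by positivity)

end Pool.Agent.MP_478eab_an.V
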