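import Mathlib
import Pool.Agent.MP_478eab_an.V.Energy

/-! The logarithmic gain in the critical dimension. -/

namespace Pool.Agent.MP_478eab_an.V

open MeasureTheory Set Filter Topology

variable {n : ℕ} {μ κ : ℝ} {m θ : (Fin n → ℝ) → ℝ}

theorem four (hμ : 0 < μ) (hm : Res κ m) (hs : IsSol μ m θ) {D : (Fin n → ℝ) → ℝ} {k N r Λ : ℝ}
    (hD : ContDiff ℝ 1 D) (D0 : ∀ x, 0 < D x) (hN : ∀ x, gs D x ≤ N) (hk : 0 < k)
    (hF : FB μ m (cube n) fun x => k * μ / D x ^ 2) (hr : 0 < r) (hΛ : 1 ≤ Λ) :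
    (∫ x in cube n, θ x) ^ 2 ≤
      256 * (4 * k + 444 * N) * N * (μ ^ 2 * (∫ x in cube n, 1 / (D x ^ 2) ^ 2) / Λ ^ 2)
      + 4 * (2 * k + 36 * N) * (μ * (∫ x in cube n, m x) / r ^ 2)
      + 2 * ((r * Real.exp Λ) ^ 4 * (κ * (∫ x in cube n, m x))
        * ∫ x in cube n, 1 / (D x ^ 2) ^ 2) := by
  have N0 : 0 ≤ N := (gs_nonneg D 0).trans (hN 0)
  obtain ⟨ψ, hψ, ψ01, ψ0, ψ1, ψg⟩ := exists_cut hD D0 hN hr (one_pos.trans_le hΛ)
  have ψg' : ∀ x, D x ^ 2 * gs ψ x ≤ 4 * N := fun x =>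
    (ψg x).trans (div_le_self (by positivity) (one_le_pow₀ hΛ))
  have cθ := hs.1.continuous
  have cD := hD.continuous
  have cψ := hψ.continuous
  have lθ := LB.of_cont cθ
  have ψ2 : ∀ x, ψ x ^ 2 ≤ 1 := fun x => pow_le_one₀ (ψ01 x).1 (ψ01 x).2
  have iI : IntegrableOn (fun x => θ x ^ 2 * ψ x ^ 4) (cube n) := (LB.of_cont (by fun_prop)).cube
  have iZ := (LB.of_cont (inv_sq_cont cD D0 2)).cube
  have lW : LB fun x => k * μ / D x ^ 2 :=
    LB.of_cont (continuous_const.div (cD.pow 2) fun x => (pow_pos (D0 x) 2).ne')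
  have h3 : ContDiff ℝ 1 fun x => ψ x ^ 3 := hψ.pow 3
  have g3 : ∀ x, gs (fun x => ψ x ^ 3) x = 9 * ψ x ^ 4 * gs ψ x := fun x => by
    rw [gs_comp (g := fun y => y ^ 3) (hasDerivAt_pow 3 (ψ x)) (cd_diff hψ x)]
    norm_num; left; ring
  have pos3 : ∀ {ζ : (Fin n → ℝ) → ℝ}, 0 ≤ ∫ x in cube n, θ x ^ 3 * ζ x ^ 2 := fun {ζ} =>
    setIntegral_nonneg cube_meas fun x hx => by have := hs.2.1 x hx; positivity
  set I := ∫ x in cube n, θ x ^ 2 * ψ x ^ 4 with hI
  set Z := ∫ x in cube n, 1 / (D x ^ 2) ^ 2 with hZ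
  set M := ∫ x in cube n, m x with hM
  have I0 : 0 ≤ I := integral_nonneg fun x => by have := (ψ01 x).1; positivity
  -- first step
  have hζ : ContDiff ℝ 1 fun x => ψ x ^ 3 * D x := h3.mul hD
  have s1 : ∫ x in cube n, (ψ x ^ 3 * D x) ^ 2 * gs θ x ≤ (4 * k + 444 * N) * I := by
    have a := cacc_fb hm hs hF hζ fun x => mul_nonneg (pow_nonneg (ψ01 x).1 3) (D0 x).le
    have lζ := LB.of_cont hζ.continuous
    have b := lin1 cube_meas (lW.mul (lθ.mul lζ).sq).cube iI (a := k * μ) fun x _ => by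
      have d := D0 x
      rw [show k * μ / D x ^ 2 * (θ x * (ψ x ^ 3 * D x)) ^ 2
        = k * μ * (θ x ^ 2 * ψ x ^ 4) * ψ x ^ 2 by field_simp]
      exact mul_le_of_le_one_right (by positivity) (ψ2 x)
    have c := lin1 cube_meas (lθ.sq.mul (LB.of_cont (gs_continuous hζ))).cube iI (a := 74 * N)
      fun x _ => by
        have c1 := gs_mul_le (cd_diff h3 x) (cd_diff hD x)
        rw [g3] at c1
        have c2 := mul_le_mul_of_nonneg_left (ψg' x) (show 0 ≤ 18 * ψ x ^ 4 by positivity)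
        have c3 : (ψ x ^ 3) ^ 2 * gs D x ≤ ψ x ^ 4 * N := by
          rw [show (ψ x ^ 3) ^ 2 = ψ x ^ 4 * ψ x ^ 2 by ring]
          exact mul_le_mul (mul_le_of_le_one_right (by positivity) (ψ2 x)) (hN x) (gs_nonneg _ _)
            (by positivity)
        have c4 : gs (fun y => ψ y ^ 3 * D y) x ≤ 74 * N * ψ x ^ 4 := by linarith
        nlinarith [mul_le_mul_of_nonneg_left c4 (sq_nonneg (θ x))]
    have d := lin2 cube_meas (lζ.sq.mul (LB.of_cont (gs_continuous hs.1))).cube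
      (LB.of_cont (gs_continuous (hs.1.mul hζ))).cube
      (lθ.sq.mul (LB.of_cont (gs_continuous hζ))).cube (a := 2) (b := 2) fun x _ => by
        have := gs_mul_ge (cd_diff hs.1 x) (cd_diff hζ x)
        linarith
    have e := pos3 (ζ := fun x => ψ x ^ 3 * D x)
    have f : (∫ x in cube n, gs (fun y => θ y * (ψ y ^ 3 * D y)) x) ≤ 2 * (k + 74 * N) * I := by
      refine le_of_mul_le_mul_left ?_ (half_pos hμ)
      nlinarith [mul_le_mul_of_nonneg_left c hμ.le]
    linarith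
  -- second step
  have s2 : ∫ x in cube n, m x * (θ x * ψ x ^ 3) ^ 2 ≤ (2 * k + 36 * N) * μ / r ^ 2 * I := by
    have a := cacc_fb hm hs hF h3 fun x => pow_nonneg (ψ01 x).1 3
    have a' := hF _ (hs.1.mul h3) fun x hx => mul_nonneg (hs.2.1 x hx).le (pow_nonneg (ψ01 x).1 3)
    have lζ := LB.of_cont h3.continuous
    have b := lin1 cube_meas (lW.mul (lθ.mul lζ).sq).cube iI (a := k * μ / r ^ 2) fun x _ => by
      rcases le_total (D x) r with d | d
      · simp [ψ0 x d]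
      · rw [show (θ x * ψ x ^ 3) ^ 2 = θ x ^ 2 * ψ x ^ 4 * ψ x ^ 2 by ring]
        exact mul_le_mul (by gcongr) (mul_le_of_le_one_right (by positivity) (ψ2 x))
          (by positivity) (by positivity)
    have c := lin1 cube_meas (lθ.sq.mul (LB.of_cont (gs_continuous h3))).cube iI
      (a := 36 * N / r ^ 2) fun x _ => by
        rw [g3]
        rcases le_total (D x) r with d | d
        · simp [ψ0 x d]
        · have c1 : gs ψ x ≤ 4 * N / r ^ 2 := by
            rw [le_div_iff₀ (by positivity)]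
            nlinarith [ψg' x, mul_le_mul_of_nonneg_left (pow_le_pow_left₀ hr.le d 2)
              (gs_nonneg ψ x)]
          have := mul_le_mul_of_nonneg_left c1 (show 0 ≤ 9 * (θ x ^ 2 * ψ x ^ 4) by positivity)
          calc _ = 9 * (θ x ^ 2 * ψ x ^ 4) * gs ψ x := by ring
            _ ≤ _ := this
            _ = _ := by ring
    have e := pos3 (ζ := fun x => ψ x ^ 3)
    have c' := mul_le_mul_of_nonneg_left c hμ.le
    have : (2 * k + 36 * N) * μ / r ^ 2 * I
        = 2 * (k * μ / r ^ 2 * I) + μ * (36 * N / r ^ 2 * I) := by ring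
    linarith
  -- third step
  set C1 := 4 * k + 444 * N with hC1
  set C2 := 2 * k + 36 * N with hC2
  have C10 : 0 < C1 := by positivity
  have C20 : 0 < C2 := by positivity
  have s3 : I ≤ 128 * C1 * N * (μ ^ 2 * Z / Λ ^ 2) + 2 * C2 * (μ * M / r ^ 2) := by
    have h4 : ContDiff ℝ 1 fun x => ψ x ^ 4 := hψ.pow 4
    have w := hs.2.2 _ h4
    have l4 := LB.of_cont h4.continuous
    have e := eq2 (S := cube n) (f := fun x => θ x * (m x - θ x) * ψ x ^ 4) (a := 1) (b := -1)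
      (hm.lb.mul (lθ.mul l4)).cube iI fun x => by ring
    have cS : Continuous fun x => ∑ i, pd i θ x * pd i (fun x => ψ x ^ 4) x :=
      continuous_finsetSum _ fun i _ => (pd_continuous hs.1 i).mul (pd_continuous h4 i)
    have a := lin2 cube_meas (LB.of_cont cS.neg).cube
      ((LB.of_cont hζ.continuous).sq.mul (LB.of_cont (gs_continuous hs.1))).cube iZ
      (a := 1 / (4 * μ * C1)) (b := 64 * μ * C1 * N / Λ ^ 2) fun x _ => by
        have d := D0 x
        have a1 := sum_mul_le (fun i => pd i θ x) (fun i => pd i ψ x) (ψ x ^ 3 * D x) (4 / D x)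
          (1 / (4 * μ * C1)) (by positivity)
        have a2 : ∀ i, pd i (fun x => ψ x ^ 4) x = ψ x ^ 3 * D x * (4 / D x) * pd i ψ x := by
          intro i
          rw [pd_comp (g := fun y => y ^ 4) (hasDerivAt_pow 4 (ψ x)) (cd_diff hψ x)]
          norm_num; left; field_simp
        simp only [Pi.neg_apply, a2]
        refine a1.trans (add_le_add le_rfl ?_)
        have a3 := mul_le_mul_of_nonneg_left (ψg x)
          (show 0 ≤ 16 * μ * C1 * (1 / (D x ^ 2) ^ 2) by positivity)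
        refine le_trans (le_of_eq ?_) (a3.trans_eq (by ring))
        unfold gs
        field_simp; ring
    have b := lin2 cube_meas (hm.lb.mul (lθ.mul l4)).cube
      (hm.lb.mul (lθ.mul (LB.of_cont h3.continuous)).sq).cube hm.lb.cube
      (a := r ^ 2 / (4 * C2 * μ)) (b := C2 * μ / r ^ 2) fun x _ => by
        have b1 : θ x * ψ x ^ 4 ≤ r ^ 2 / (4 * C2 * μ) * (θ x * ψ x ^ 3) ^ 2 + C2 * μ / r ^ 2 := by
          have b2 : 0 ≤ C2 * μ / r ^ 2 * (r ^ 2 / (2 * C2 * μ) * (θ x * ψ x ^ 3) - ψ x) ^ 2 := by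
            positivity
          have b3 : C2 * μ / r ^ 2 * (r ^ 2 / (2 * C2 * μ) * (θ x * ψ x ^ 3) - ψ x) ^ 2
              = r ^ 2 / (4 * C2 * μ) * (θ x * ψ x ^ 3) ^ 2 - θ x * ψ x ^ 4
                + C2 * μ / r ^ 2 * ψ x ^ 2 := by field_simp; ring
          have b4 : C2 * μ / r ^ 2 * ψ x ^ 2 ≤ C2 * μ / r ^ 2 :=
            mul_le_of_le_one_right (by positivity) (ψ2 x)
          linarith
        nlinarith [mul_le_mul_of_nonneg_left b1 (hm.nn x)]
    simp only [Pi.neg_apply, integral_neg] at a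
    rw [e] at w
    have a' := mul_le_mul_of_nonneg_left a hμ.le
    have c1 : μ * (1 / (4 * μ * C1) * ∫ x in cube n, (ψ x ^ 3 * D x) ^ 2 * gs θ x) ≤ I / 4 := by
      refine (mul_le_mul_of_nonneg_left (mul_le_mul_of_nonneg_left s1 (by positivity))
        hμ.le).trans_eq ?_
      field_simp
    have c2 : r ^ 2 / (4 * C2 * μ) * ∫ x in cube n, m x * (θ x * ψ x ^ 3) ^ 2 ≤ I / 4 := by
      refine (mul_le_mul_of_nonneg_left s2 (by positivity)).trans_eq ?_
      field_simp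
    have e1 : μ * (64 * μ * C1 * N / Λ ^ 2 * Z) = 64 * C1 * N * (μ ^ 2 * Z / Λ ^ 2) := by ring
    have e2 : C2 * μ / r ^ 2 * M = C2 * (μ * M / r ^ 2) := by ring
    rw [mul_add, e1] at a'
    rw [e2] at b
    linarith
  -- last step
  have c2 : Continuous fun x => θ x * ψ x ^ 2 := by fun_prop
  have lz := LB.of_cont (inv_sq_cont cD D0 1)
  have s4 := lin2 cube_meas lθ.cube (LB.of_cont c2).cube (lθ.mul lz).cube (a := 1)
    (b := (r * Real.exp Λ) ^ 2) fun x hx => by
      have t := hs.2.1 x hx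
      have d := D0 x
      rcases le_total (r * Real.exp Λ) (D x) with a | a
      · rw [ψ1 x a]
        have : 0 ≤ (r * Real.exp Λ) ^ 2 * (θ x * (1 / (D x ^ 2) ^ 1)) := by positivity
        linarith
      · have a1 : θ x ≤ (r * Real.exp Λ) ^ 2 * (θ x * (1 / (D x ^ 2) ^ 1)) := by
          rw [pow_one, mul_one_div, mul_div_assoc', le_div_iff₀ (by positivity), mul_comm]
          exact mul_le_mul_of_nonneg_right (pow_le_pow_left₀ d.le a 2) t.le
        have : 0 ≤ θ x * ψ x ^ 2 := by positivity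
        linarith
  have s5 := sq_int_le c2
  have e5 : ∀ x, (θ x * ψ x ^ 2) ^ 2 = θ x ^ 2 * ψ x ^ 4 := fun x => by ring
  simp only [e5] at s5
  have s6 := cs lθ.sq.cube lz.sq.cube (lθ.mul lz).cube
  have e6 : ∀ x, (1 / (D x ^ 2) ^ 1) ^ 2 = 1 / (D x ^ 2) ^ 2 := fun x => by
    rw [pow_one, one_div_pow]
  simp only [e6] at s6
  have Z0 : 0 ≤ Z := integral_nonneg fun x => by positivity
  have s7 := s6.trans (mul_le_mul_of_nonneg_right (l2_bound hm hs) Z0)
  have F0 : 0 ≤ ∫ x in cube n, θ x := setIntegral_nonneg cube_meas fun x hx => (hs.2.1 x hx).le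
  have s8 := pow_le_pow_left₀ F0 s4 2
  have s9 := mul_le_mul_of_nonneg_left s7 (show 0 ≤ (r * Real.exp Λ) ^ 4 by positivity)
  set A := ∫ x in cube n, θ x * ψ x ^ 2
  set B := ∫ x in cube n, θ x * (1 / (D x ^ 2) ^ 1)
  nlinarith [sq_nonneg (A - (r * Real.exp Λ) ^ 2 * B)]

end Pool.Agent.MP_478eab_an.V
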