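import Mathlib
import Pool.Agent.MP_478eab_an.V.Comp

/-! The concentrated resource. -/

namespace Pool.Agent.MP_478eab_an.V

open MeasureTheory Set Filter Topology

variable {n : ℕ} {μ κ m₀ ε : ℝ} {m θ : (Fin n → ℝ) → ℝ}

theorem exists_bump (hε : 0 < ε) : ∃ h h' : ℝ → ℝ, (∀ s, HasDerivAt h (h' s) s) ∧
    Continuous h' ∧ (∃ M, ∀ s, |h' s| ≤ M) ∧ (∀ s, h s ≤ 1) ∧
    (∀ s, ε ^ 2 / (ε ^ 2 + s ^ 2) ≤ h s) ∧ (∀ (j : ℤ) s, h (2 * j - s) = h s) ∧
    ∫ s in Icc (0 : ℝ) 1, h s ≤ 4 * ε := by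
  have d0 : ∀ s : ℝ, 8 * ε ^ 2 ≤ 8 * ε ^ 2 + 1 - Real.cos (Real.pi * s) := fun s => by
    linarith [Real.cos_le_one (Real.pi * s)]
  have e0 : 0 < 8 * ε ^ 2 := by positivity
  have d1 : ∀ s : ℝ, 0 < 8 * ε ^ 2 + 1 - Real.cos (Real.pi * s) := fun s => e0.trans_le (d0 s)
  have hd : ∀ s : ℝ, HasDerivAt (fun s => 8 * ε ^ 2 / (8 * ε ^ 2 + 1 - Real.cos (Real.pi * s)))
      (-(8 * ε ^ 2 * (Real.sin (Real.pi * s) * Real.pi))
        / (8 * ε ^ 2 + 1 - Real.cos (Real.pi * s)) ^ 2) s := fun s => by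
    have h1 := (((hasDerivAt_id s).const_mul Real.pi).cos).const_sub (8 * ε ^ 2 + 1)
    have h2 := (hasDerivAt_const s (8 * ε ^ 2)).fun_div h1 (d1 s).ne'
    refine h2.congr_deriv ?_
    simp
  refine ⟨_, _, hd, Continuous.div (by fun_prop) (by fun_prop) fun s => (pow_pos (d1 s) 2).ne',
    ⟨8 * ε ^ 2 * 4 / (8 * ε ^ 2) ^ 2, fun s => ?_⟩, fun s => (div_le_one (d1 s)).2 (d0 s),
    fun s => ?_, fun j s => ?_, ?_⟩
  · rw [abs_div, abs_neg, abs_mul, abs_of_pos e0, abs_mul, abs_of_pos Real.pi_pos,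
      abs_of_pos (pow_pos (d1 s) 2)]
    refine div_le_div₀ (by positivity) (mul_le_mul_of_nonneg_left ?_ e0.le) (by positivity)
      (pow_le_pow_left₀ e0.le (d0 s) 2)
    nlinarith [Real.abs_sin_le_one (Real.pi * s), Real.pi_le_four, Real.pi_pos,
      abs_nonneg (Real.sin (Real.pi * s))]
  · rw [div_le_div_iff₀ (by positivity) (d1 s)]
    have h1 := Real.one_sub_sq_div_two_le_cos (x := Real.pi * s)
    have h2 : Real.pi ^ 2 ≤ 16 := by nlinarith [Real.pi_le_four, Real.pi_pos]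
    have h3 : 1 - Real.cos (Real.pi * s) ≤ 8 * s ^ 2 := by
      rw [mul_pow] at h1; nlinarith [sq_nonneg s]
    nlinarith [sq_nonneg ε]
  · rw [show Real.pi * (2 * j - s) = j * (2 * Real.pi) - Real.pi * s by ring,
      Real.cos_int_mul_two_pi_sub]
  · have hF : ∀ s ∈ uIcc (0 : ℝ) 1, HasDerivAt (fun s => -(8 * ε ^ 2 / (2 * ε + s)))
        (8 * ε ^ 2 / (2 * ε + s) ^ 2) s := fun s hs => by
      rw [uIcc_of_le zero_le_one] at hs
      have h0 : 2 * ε + s ≠ 0 := by have := hs.1; positivity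
      have := ((hasDerivAt_const s (8 * ε ^ 2)).fun_div
        ((hasDerivAt_id s).const_add (2 * ε)) h0).neg
      refine this.congr_deriv ?_
      simp [neg_div]
    have hc : ContinuousOn (fun s : ℝ => 8 * ε ^ 2 / (2 * ε + s) ^ 2) (Icc 0 1) :=
      continuousOn_const.div (by fun_prop) fun s hs => by have := hs.1; positivity
    have hI := intervalIntegral.integral_eq_sub_of_hasDerivAt hF
      (ContinuousOn.intervalIntegrable (by rwa [uIcc_of_le zero_le_one]))
    rw [intervalIntegral.integral_of_le zero_le_one, ← integral_Icc_eq_integral_Ioc] at hI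
    refine (setIntegral_mono_on (continuous_iff_continuousAt.2 fun s =>
      (hd s).continuousAt).integrableOn_Icc hc.integrableOn_Icc measurableSet_Icc
      fun s hs => ?_).trans ?_
    · have h1 := Real.cos_le_one_sub_mul_cos_sq (x := Real.pi * s) (by
        rw [abs_of_nonneg (mul_nonneg Real.pi_pos.le hs.1)]
        nlinarith [Real.pi_pos, hs.2])
      have h2 : 2 / Real.pi ^ 2 * (Real.pi * s) ^ 2 = 2 * s ^ 2 := by
        have := Real.pi_pos
        field_simp
      rw [h2] at h1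
      have := hs.1
      refine div_le_div_of_nonneg_left e0.le (by positivity) ?_
      nlinarith [sq_nonneg (2 * ε - s)]
    · rw [hI]
      have h1 : 8 * ε ^ 2 / (2 * ε + 0) = 4 * ε := by field_simp; ring
      have h2 : 0 ≤ 8 * ε ^ 2 / (2 * ε + 1) := by positivity
      linarith

theorem exists_res (hμ : 0 < μ) (h0 : 0 < m₀) (hκ : 2 * m₀ ≤ κ) (hε : 0 < ε)
    (hεn : κ * (4 * ε) ^ n = m₀) : ∃ m θ : (Fin n → ℝ) → ℝ, Continuous m ∧ Sym m ∧
      (∀ x, 0 ≤ m x ∧ m x ≤ κ) ∧ ∫ x in cube n, m x = m₀ ∧ Cl μ m θ ∧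
      ∀ x, κ / 2 * (ε ^ 2 / (ε ^ 2 + nsq x)) ^ n ≤ m x := by
  obtain ⟨h, h', d, c', ⟨M, hM⟩, h1, h2, h3, h4⟩ := exists_bump hε
  have hp : ∀ s, 0 ≤ h s := fun s => le_trans (by positivity) (h2 s)
  have hc := cd_of_hasDeriv d c'
  have κ0 : 0 < κ := by linarith
  have key : ∀ S : Finset (Fin n), ContDiff ℝ 1 (fun x : Fin n → ℝ => ∏ j ∈ S, h (x j)) ∧
      Bd (fun x : Fin n → ℝ => ∏ j ∈ S, h (x j)) ∧
      ∀ i, Bd (pd i fun x : Fin n → ℝ => ∏ j ∈ S, h (x j)) := fun S => by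
    induction S using Finset.induction_on with
    | empty =>
      simp only [Finset.prod_empty]
      refine ⟨contDiff_const, Bd.const 1, fun i => ?_⟩
      rw [show pd i (fun _ : Fin n → ℝ => (1 : ℝ)) = fun _ => 0 from funext (pd_const i 1)]
      exact Bd.const 0
    | insert j S hj ih =>
      simp only [Finset.prod_insert hj]
      have a1 : ContDiff ℝ 1 fun x : Fin n → ℝ => h (x j) := hc.comp (contDiff_apply ℝ ℝ j)
      have a2 : Bd fun x : Fin n → ℝ => h (x j) :=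
        Bd.of_le a1.continuous.measurable (fun _ => hp _) fun _ => h1 _
      refine ⟨a1.mul ih.1, a2.mul ih.2.1, fun i => ?_⟩
      have a3 : Bd (pd i fun x : Fin n → ℝ => h (x j)) := by
        rw [show (pd i fun x : Fin n → ℝ => h (x j))
          = fun x => h' (x j) * (if j = i then 1 else 0) from funext fun x => by
            rw [pd_comp (f := fun x : Fin n → ℝ => x j) (d _) (differentiableAt_apply j x),
              pd_coord]]
        exact Bd.mul ⟨(c'.comp (continuous_apply j)).measurable, M, fun _ => hM _⟩ (Bd.const _)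
      rw [show (pd i fun x : Fin n → ℝ => h (x j) * ∏ j ∈ S, h (x j)) = _ from
        funext fun x => pd_mul (cd_diff a1 x) (cd_diff ih.1 x) i]
      exact (a3.mul ih.2.1).add (a2.mul (ih.2.2 i))
  obtain ⟨k1, k2, k3⟩ := key Finset.univ
  have q0 : ∀ x : Fin n → ℝ, 0 ≤ ∏ j, h (x j) := fun x => Finset.prod_nonneg fun _ _ => hp _
  have q1 : ∀ x : Fin n → ℝ, ∏ j, h (x j) ≤ 1 := fun x =>
    Finset.prod_le_one (fun _ _ => hp _) fun _ _ => h1 _
  obtain ⟨A, hA⟩ : ∃ A, A = ∫ x in cube n, ∏ j, h (x j) := ⟨_, rfl⟩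
  have A0 : 0 ≤ A := hA ▸ integral_nonneg q0
  have A1 : κ * A ≤ m₀ := by
    rw [← hεn, hA, cube_pi, integral_fintype_prod_eq_pow, Fintype.card_fin]
    exact mul_le_mul_of_nonneg_left (pow_le_pow_left₀ (integral_nonneg hp) h4 n) κ0.le
  have A2 : 0 ≤ κ * A := by positivity
  have m1 : ContDiff ℝ 1 fun x : Fin n → ℝ => (m₀ - κ / 2 * A) + κ / 2 * ∏ j, h (x j) :=
    contDiff_const.add (contDiff_const.mul k1)
  have m2 : ∀ x : Fin n → ℝ, m₀ / 2 ≤ (m₀ - κ / 2 * A) + κ / 2 * ∏ j, h (x j) := fun x => by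
    have := mul_nonneg κ0.le (q0 x)
    linarith
  have m3 : ∀ x : Fin n → ℝ, (m₀ - κ / 2 * A) + κ / 2 * ∏ j, h (x j) ≤ κ := fun x => by
    have := mul_le_mul_of_nonneg_left (q1 x) κ0.le
    linarith
  have m4 : Sym fun x : Fin n → ℝ => (m₀ - κ / 2 * A) + κ / 2 * ∏ j, h (x j) := fun j i x => by
    beta_reduce
    congr 2
    refine Finset.prod_congr rfl fun l _ => ?_
    by_cases hl : l = i
    · subst hl; rw [Function.update_self, h3]
    · rw [Function.update_of_ne hl]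
  obtain ⟨θ, hθ⟩ := exists_cl hμ (half_pos h0) m1 (fun i => by
    rw [show (pd i fun x : Fin n → ℝ => (m₀ - κ / 2 * A) + κ / 2 * ∏ j, h (x j))
      = fun x => κ / 2 * pd i (fun x : Fin n → ℝ => ∏ j, h (x j)) x from funext fun x => by
        rw [pd_add (differentiableAt_const _) ((cd_diff k1 x).const_mul _), pd_const,
          pd_mul (differentiableAt_const _) (cd_diff k1 x), pd_const]
        ring]
    exact (Bd.const _).mul (k3 i)) m2 m3 m4
  refine ⟨_, θ, m1.continuous, m4, fun x => ⟨(half_pos h0).le.trans (m2 x), m3 x⟩, ?_, hθ,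
    fun x => ?_⟩
  · rw [integral_add (LB.const _).cube ((LB.of_cont k1.continuous).cmul _).cube, int_cube_const,
      integral_const_mul, ← hA]
    ring
  · have : (ε ^ 2 / (ε ^ 2 + nsq x)) ^ n ≤ ∏ j, h (x j) := by
      have := nsq_nonneg x
      rw [← Fin.prod_const]
      refine Finset.prod_le_prod (fun _ _ => by positivity) fun j _ => le_trans ?_ (h2 _)
      exact div_le_div_of_nonneg_left (by positivity) (by positivity)
        (add_le_add_right (sq_le_nsq x j) _)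
    have := mul_le_mul_of_nonneg_left this κ0.le
    linarith

end Pool.Agent.MP_478eab_an.V
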