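import Mathlib
import Pool.Agent.MP_478eab_an.V.Prof

/-! The subsolution in dimension at least three. -/

namespace Pool.Agent.MP_478eab_an.V

open MeasureTheory Set Filter Topology

variable {n : ℕ} {μ κ m₀ ε : ℝ} {m θ : (Fin n → ℝ) → ℝ}

theorem arith_high {N q s P ν M τ b E : ℝ} (s0 : 0 < s) (s1 : s ≤ 1) (P0 : 0 < P) (q1 : 1 ≤ q)
    (qN : q + 1 ≤ N) (d0 : 0 ≤ 4 * q + 4 - 2 * N) (ν0 : 0 < ν)
    (H : 12 * P ≤ ν * s ^ 2 * (4 * q + 4 - 2 * N + s)) (M0 : 0 ≤ M)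
    (hM : 8 * (N + 1) * s ≤ 1 ∨ 9 * (N + 1) ^ 2 * ν ≤ M) (τ0 : 0 ≤ τ) (b0 : 0 ≤ b)
    (hE : 3 * τ ^ 2 + 3 * b ^ 2 ≤ E) :
    0 ≤ E + ν * s ^ 2 * P * (q * (4 * q + 4 - 2 * N) - 4 * q * (q + 1) * s ^ 2
      + (q + 1 / 2) * s * (4 * q + 4 - 2 * N + 2 - 4 * (q + 3 / 2) * s ^ 2))
      + (τ + b + P + P * s) * (M - (τ + b + P + P * s)) := by
  obtain ⟨d, hd⟩ : ∃ d, d = 4 * q + 4 - 2 * N := ⟨_, rfl⟩
  rw [← hd] at H d0 ⊢
  have g1 : (τ + b + P + P * s) ^ 2 ≤ E + 12 * P ^ 2 := by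
    have h1 : P + P * s ≤ 2 * P := by nlinarith
    have h2 : (P + P * s) ^ 2 ≤ (2 * P) ^ 2 := pow_le_pow_left₀ (by positivity) h1 2
    nlinarith [sq_nonneg (τ - b), sq_nonneg (τ - (P + P * s)), sq_nonneg (b - (P + P * s))]
  have g2 : P * M ≤ (τ + b + P + P * s) * M :=
    mul_le_mul_of_nonneg_right (by nlinarith [mul_pos P0 s0]) M0
  have g3 : 12 * P ^ 2 ≤ ν * s ^ 2 * P * (d + s) := by nlinarith [mul_le_mul_of_nonneg_left H P0.le]
  have w0 : 0 ≤ ν * s ^ 2 * P := by positivity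
  have qd : d ≤ q * d := by nlinarith
  have s2 : s ^ 2 ≤ s := by nlinarith
  rcases hM with hM | hM
  · have b1 : d + s ≤ q * d - 4 * q * (q + 1) * s ^ 2
        + (q + 1 / 2) * s * (d + 2 - 4 * (q + 3 / 2) * s ^ 2) := by
      have c1 : 4 * (q + 3 / 2) * s ≤ 1 / 2 := by nlinarith
      have c2 : 4 * (q + 3 / 2) * s ^ 2 ≤ 1 / 2 := by nlinarith
      have c3 : 4 * (q + 1) * s ≤ 1 / 2 := by nlinarith
      have c4 : 4 * q * (q + 1) * s ^ 2 ≤ q * s * (1 / 2) := by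
        have := mul_le_mul_of_nonneg_left c3 (show 0 ≤ q * s by positivity)
        nlinarith
      have c5 : (q + 1 / 2) * s * (3 / 2) ≤ (q + 1 / 2) * s * (d + 2 - 4 * (q + 3 / 2) * s ^ 2) :=
        mul_le_mul_of_nonneg_left (by linarith) (by positivity)
      nlinarith
    nlinarith [mul_le_mul_of_nonneg_left b1 w0, mul_nonneg P0.le M0]
  · have b1 : d + s - 9 * (N + 1) ^ 2 ≤ q * d - 4 * q * (q + 1) * s ^ 2
        + (q + 1 / 2) * s * (d + 2 - 4 * (q + 3 / 2) * s ^ 2) := by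
      have s3 : s ^ 2 ≤ 1 := s2.trans s1
      have c1 : 4 * q * (q + 1) * s ^ 2 ≤ 4 * (N + 1) ^ 2 := by
        have : q * (q + 1) ≤ (N + 1) ^ 2 := by nlinarith
        have := mul_le_mul this s3 (by positivity) (by positivity)
        nlinarith
      have c2 : (q + 1 / 2) * s * (4 * (q + 3 / 2) * s ^ 2) ≤ 4 * (N + 1) ^ 2 := by
        have h1 : (q + 1 / 2) * (q + 3 / 2) ≤ (N + 1) ^ 2 := by nlinarith
        have h2 : s * s ^ 2 ≤ 1 := by nlinarith
        have := mul_le_mul h1 h2 (by positivity) (by positivity)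
        nlinarith
      have c3 : 0 ≤ (q + 1 / 2) * s * (d + 2) := by positivity
      nlinarith
    have b2 : ν * s ^ 2 * P * (9 * (N + 1) ^ 2) ≤ P * M := by
      have h1 : ν * s ^ 2 * (9 * (N + 1) ^ 2) ≤ M := by
        have : s ^ 2 * (9 * (N + 1) ^ 2 * ν) ≤ 1 * (9 * (N + 1) ^ 2 * ν) :=
          mul_le_mul_of_nonneg_right (s2.trans s1) (by positivity)
        nlinarith
      nlinarith [mul_le_mul_of_nonneg_left h1 P0.le]
    nlinarith [mul_le_mul_of_nonneg_left b1 w0]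

theorem cube_sub {x : Fin n → ℝ} (hx : x ∈ cube n) : x ∈ Icc (-1 : Fin n → ℝ) 1 :=
  ⟨fun i => le_trans (by simp) (hx.1 i), hx.2⟩

theorem prof_high {q a ν : ℝ} (hn : 3 ≤ n) (q1 : 1 ≤ q) (qN : q + 1 ≤ n)
    (d0 : 0 ≤ 4 * q + 4 - 2 * n) (a0 : 0 < a) (aν : a ≤ ν) (hε : 0 < ε) (ε1 : ε ≤ 1)
    (κ0 : 0 < κ)
    (H : ∀ s : ℝ, 0 < s → s ≤ 1 → 12 * (a * (s ^ 2) ^ q) ≤ ν * s ^ 2 * (4 * q + 4 - 2 * n + s))
    (hν : 9 * (n + 1) ^ 2 * ν ≤ κ / 2 * ((1 / (8 * (n + 1))) ^ 2) ^ n) (hμ : μ = ν * ε ^ 2)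
    (h : Cl μ m θ) (hm : ∀ x, κ / 2 * (ε ^ 2 / (ε ^ 2 + nsq x)) ^ n ≤ m x) :
    √(μ * (a * (ε ^ 2) ^ q / (4 * (n + 1) ^ n))) ≤ ∫ x in cube n, θ x := by
  have ν0 : 0 < ν := a0.trans_le aν
  have μ0 : 0 < μ := by rw [hμ]; positivity
  have n3 : (3 : ℝ) ≤ n := by exact_mod_cast hn
  have e1 : ε ^ 2 ≤ 1 := by nlinarith
  obtain ⟨α, hα⟩ : ∃ α, α = a * (ε ^ 2) ^ q := ⟨_, rfl⟩
  have α0 : 0 < α := by rw [hα]; positivity
  have αμ : α ≤ μ := by
    rw [hα, hμ]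
    refine mul_le_mul aν ?_ (by positivity) ν0.le
    simpa using Real.rpow_le_rpow_of_exponent_ge (by positivity) e1 q1
  obtain ⟨B, hB⟩ : ∃ B, B = α / (4 * (n + 1) ^ n) := ⟨_, rfl⟩
  have B0 : 0 < B := by rw [hB]; positivity
  obtain ⟨τ, hτ⟩ : ∃ τ, τ = √(μ * B) := ⟨_, rfl⟩
  have τ0 : 0 ≤ τ := hτ ▸ Real.sqrt_nonneg _
  have τ2 : τ ^ 2 = μ * B := by rw [hτ, Real.sq_sqrt (by positivity)]
  rw [← hα, ← hB, ← hτ]
  have hr : ∀ (p y : ℝ), 0 < y → HasDerivAt (fun y : ℝ => y ^ p) (p * y ^ (p - 1)) y :=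
    fun p y hy => Real.hasDerivAt_rpow_const (Or.inl hy.ne')
  have hc := h.comp μ0 (δ := ε ^ 2)
    (g := fun y => τ + B * y + α * y ^ (-q) + α * ε * y ^ (-q - 1 / 2))
    (g1 := fun y => B + α * (-q * y ^ (-q - 1)) + α * ε * ((-q - 1 / 2) * y ^ (-q - 1 / 2 - 1)))
    (g2 := fun y => α * (-q * ((-q - 1) * y ^ (-q - 1 - 1)))
      + α * ε * ((-q - 1 / 2) * ((-q - 1 / 2 - 1) * y ^ (-q - 1 / 2 - 1 - 1))))
    (by positivity)
    (fun y hy => (((((hasDerivAt_id y).const_mul B).const_add τ).add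
      ((hr _ y hy).const_mul α)).add ((hr _ y hy).const_mul (α * ε))).congr_deriv (by simp))
    (fun y hy => ((((hr _ y hy).const_mul (-q)).const_mul α).const_add B).add
      (((hr _ y hy).const_mul (-q - 1 / 2)).const_mul (α * ε)))
    (fun y y1 y2 => by
      have y0 : 0 < y := lt_of_lt_of_le (by positivity) y1
      have h1 : ((n : ℝ) + 1) ^ (-q - 1) ≤ y ^ (-q - 1) :=
        Real.rpow_le_rpow_of_nonpos y0 (by linarith) (by linarith)
      have h2 : ((n : ℝ) + 1) ^ (-(n : ℝ)) ≤ ((n : ℝ) + 1) ^ (-q - 1) :=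
        Real.rpow_le_rpow_of_exponent_le (by linarith) (by linarith)
      rw [Real.rpow_neg (by positivity), Real.rpow_natCast] at h2
      have h3 : B = α * (((n : ℝ) + 1) ^ n)⁻¹ / 4 := by rw [hB]; field_simp
      have h4 := mul_le_mul_of_nonneg_left (h2.trans h1) α0.le
      have h5 : 0 < α * y ^ (-q - 1) := by positivity
      have h6 : 0 ≤ α * ε * ((q + 1 / 2) * y ^ (-q - 1 / 2 - 1)) := by positivity
      nlinarith)
    (fun x hx => by
      have hx0 := nsq_nonneg x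
      have hxn := nsq_le_of_mem hx
      have hmx := hm x
      obtain ⟨r, hr⟩ : ∃ r, r = √(ε ^ 2 + nsq x) := ⟨_, rfl⟩
      have r0 : 0 < r := by rw [hr]; positivity
      have r2 : ε ^ 2 + nsq x = r ^ 2 := by rw [hr, Real.sq_sqrt (by positivity)]
      obtain ⟨s, hs⟩ : ∃ s, s = ε / r := ⟨_, rfl⟩
      have s0 : 0 < s := by rw [hs]; positivity
      have εs : ε = s * r := by rw [hs]; field_simp
      have s1 : s ≤ 1 := by
        rw [hs, div_le_one r0]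
        exact le_of_pow_le_pow_left₀ two_ne_zero r0.le (by linarith)
      have hq : nsq x = r ^ 2 - ε ^ 2 := by linarith
      have y0 : r ^ 2 ≠ 0 := by positivity
      obtain ⟨X, hX⟩ : ∃ X, X = (r ^ 2) ^ (-q) := ⟨_, rfl⟩
      have X0 : 0 < X := by rw [hX]; positivity
      have hX2 : (r ^ 2) ^ (-q - 1 / 2) = X / r := by
        rw [Real.rpow_sub (by positivity), ← hX, ← Real.sqrt_eq_rpow, Real.sqrt_sq r0.le]
      have hP : α * X = a * (s ^ 2) ^ q := by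
        rw [hα, hX, hs, div_pow, Real.div_rpow (by positivity) (by positivity),
          Real.rpow_neg (by positivity)]
        field_simp
      rw [r2] at hmx ⊢
      rw [← div_pow, ← hs] at hmx
      have M0 : 0 ≤ m x := le_trans (by positivity) hmx
      have hE : 3 * τ ^ 2 + 3 * (B * r ^ 2) ^ 2 ≤ 2 * n * μ * B := by
        have h1 : (r ^ 2) ^ 2 ≤ ((n : ℝ) + 1) ^ n :=
          (pow_le_pow_left₀ (by positivity) (by linarith) 2).trans
            (pow_le_pow_right₀ (by linarith) (by omega))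
        have h2 : B * (r ^ 2) ^ 2 ≤ μ / 4 := by
          refine (mul_le_mul_of_nonneg_left h1 B0.le).trans ?_
          rw [hB]; field_simp; exact αμ
        have h3 := mul_le_mul_of_nonneg_left h2 B0.le
        have h4 := mul_le_mul_of_nonneg_right n3 (mul_pos μ0 B0).le
        have h5 := mul_pos μ0 B0
        rw [τ2]
        nlinarith
      have key := arith_high (M := m x) (b := B * r ^ 2) s0 s1 (mul_pos α0 X0) q1 qN d0 ν0
        (hP ▸ H s s0 s1) M0 (by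
          rcases le_total (8 * ((n : ℝ) + 1) * s) 1 with h1 | h1
          · exact Or.inl h1
          refine Or.inr (hν.trans (le_trans (mul_le_mul_of_nonneg_left ?_ (by positivity)) hmx))
          refine pow_le_pow_left₀ (by positivity) (pow_le_pow_left₀ (by positivity) ?_ 2) n
          rw [div_le_iff₀ (by positivity)]
          linarith) τ0 (by positivity) hE
      refine key.trans_eq ?_
      simp only [Real.rpow_sub_one y0, hX2, ← hX]
      rw [hq, hμ, εs]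
      field_simp
      ring)
  rw [← int_cube_const (n := n) τ]
  refine setIntegral_mono_on (LB.const _).cube (LB.of_cont h.cd.continuous).cube cube_meas
    fun x hx => le_trans ?_ (hc x (cube_sub hx))
  have := nsq_nonneg x
  have h1 : 0 ≤ B * (ε ^ 2 + nsq x) := by positivity
  have h2 : 0 ≤ α * (ε ^ 2 + nsq x) ^ (-q) := by positivity
  have h3 : 0 ≤ α * ε * (ε ^ 2 + nsq x) ^ (-q - 1 / 2) := by positivity
  linarith

end Pool.Agent.MP_478eab_an.V
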