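import Mathlib
import Pool.Agent.MP_478eab_an.V.Light

/-! The form bound on a light cell in dimension two. -/

namespace Pool.Agent.MP_478eab_an.V

open MeasureTheory Set Filter Topology BoxIntegral

theorem sob2 {v : (Fin 2 → ℝ) → ℝ} (hv : ContDiff ℝ 1 v) (h0 : ∀ x, 0 ≤ v x)
    {I : Box (Fin 2)} {l : ℝ} (hl : Side I l) {S : Set (Fin 2 → ℝ)} (hS : MeasurableSet S)
    (hvS : ∀ x, x ∉ S → v x = 0)
    (hV : ∫ x in (I : Set (Fin 2 → ℝ)), S.indicator (fun _ => (1 : ℝ)) x ≤ (l / 2) ^ 2) :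
    ∫ x in (I : Set (Fin 2 → ℝ)), v x ^ 2
      ≤ 4 * (∫ x in (I : Set (Fin 2 → ℝ)), √(gs v x)) ^ 2 := by
  have h := sob_box le_rfl hv h0 hl hS hvS hV
  have e1 : ((2 : ℕ) : ℝ) / (((2 : ℕ) : ℝ) - 1) = 2 := by norm_num
  have e2 : (((2 : ℕ) : ℝ) - 1) / ((2 : ℕ) : ℝ) = 1 / 2 := by norm_num
  rw [e1, e2] at h
  simp only [Real.rpow_two] at h
  have X0 : 0 ≤ ∫ x in (I : Set (Fin 2 → ℝ)), v x ^ 2 := integral_nonneg fun x => sq_nonneg _
  rw [← Real.sqrt_eq_rpow] at h
  have h2 := pow_le_pow_left₀ (Real.sqrt_nonneg _) h 2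
  rw [Real.sq_sqrt X0] at h2
  linarith

theorem level_step {u : (Fin 2 → ℝ) → ℝ} (hu : ContDiff ℝ 1 u) {I : Box (Fin 2)} {l s h : ℝ}
    (hl : Side I l) (hh : 0 < h)
    (hV : ∫ x in (I : Set (Fin 2 → ℝ)), lev u s x ≤ (l / 2) ^ 2) :
    ∫ x in (I : Set (Fin 2 → ℝ)), lev u (s + h) x
      ≤ 16 / h ^ 2 * (∫ x in (I : Set (Fin 2 → ℝ)), lev u s x)
        * ((∫ x in (I : Set (Fin 2 → ℝ)), lev u s x * gs u x)
          - ∫ x in (I : Set (Fin 2 → ℝ)), lev u (s + h) x * gs u x) := by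
  obtain ⟨g, g', hg, cg', g01, g0, g1, g2, g'0, g'1⟩ := exists_step
  have hw : ContDiff ℝ 1 fun x => (u x - s) / h := (hu.sub contDiff_const).div_const h
  have hv : ContDiff ℝ 1 fun x => g ((u x - s) / h) := (cd_of_hasDeriv hg cg').comp hw
  have h1 := sob2 hv (fun x => (g01 _).1) hl (lev_meas hu.continuous s)
    (fun x hx => g0 _ (div_nonpos_of_nonpos_of_nonneg (by simpa using hx) hh.le)) hV
  have e : ∀ x, √(gs (fun y => g ((u y - s) / h)) x)
      = |g' ((u x - s) / h) * (1 / h)| * √(gs u x) := fun x =>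
    sqrt_gs_comp hu (g := fun y => g ((y - s) / h))
      ((hg _).comp (u x) (((hasDerivAt_id (u x)).sub_const s).div_const h))
  have ls := lev_lb hu.continuous s
  have lh := lev_lb hu.continuous (s + h)
  have lg := LB.of_cont (gs_continuous hu)
  have lr : LB fun x => √(gs (fun y => g ((u y - s) / h)) x) := LB.of_cont (gs_continuous hv).sqrt
  have h2 := cs (ls.sq.box I) (lr.sq.box I) ((ls.mul lr).box I)
  simp only [lev_sq] at h2
  have e2 : ∀ x, lev u s x * √(gs (fun y => g ((u y - s) / h)) x)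
      = √(gs (fun y => g ((u y - s) / h)) x) := by
    intro x
    rcases lt_or_ge s (u x) with a | a
    · rw [lev_pos a, one_mul]
    · rw [e, g'0 _ (div_nonpos_of_nonpos_of_nonneg (by linarith) hh.le)]; simp
  simp only [e2] at h2
  have h3 := lin2 I.measurableSet_coe (lr.sq.box I) ((ls.mul lg).box I) ((lh.mul lg).box I)
    (a := 4 / h ^ 2) (b := -(4 / h ^ 2)) fun x _ => by
      rw [e, mul_pow, sq_abs, Real.sq_sqrt (gs_nonneg u x)]
      have G0 := gs_nonneg u x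
      rcases lt_or_ge s (u x) with a | a
      · rcases lt_or_ge (s + h) (u x) with b | b
        · rw [lev_pos a, lev_pos b, g'1 _ (by rw [le_div_iff₀ hh]; linarith)]; simp
        · rw [lev_pos a, lev_neg b, mul_pow]
          have := mul_le_mul_of_nonneg_right (g2 ((u x - s) / h))
            (show 0 ≤ (1 / h) ^ 2 * gs u x by positivity)
          have e3 : 4 / h ^ 2 = 4 * (1 / h) ^ 2 := by field_simp
          rw [e3]; nlinarith
      · rw [lev_neg a, lev_neg (by linarith),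
          g'0 _ (div_nonpos_of_nonpos_of_nonneg (by linarith) hh.le)]; simp
  have h4 := lin1 I.measurableSet_coe (lh.box I) ((LB.of_cont hv.continuous).sq.box I) (a := 1)
    fun x _ => by
      rcases lt_or_ge (s + h) (u x) with b | b
      · rw [lev_pos b, g1 _ (by rw [le_div_iff₀ hh]; linarith)]; norm_num
      · rw [lev_neg b]; positivity
  have V0 : 0 ≤ ∫ x in (I : Set (Fin 2 → ℝ)), lev u s x := integral_nonneg (lev_nonneg u s)
  have h5 := h2.trans (mul_le_mul_of_nonneg_left h3 V0)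
  have e4 : 16 / h ^ 2 = 4 * (4 / h ^ 2) := by ring
  rw [e4]
  nlinarith

theorem level_decay {u : (Fin 2 → ℝ) → ℝ} (hu : ContDiff ℝ 1 u) {I : Box (Fin 2)}
    {l c h E : ℝ} (hl : Side I l) (hh : 0 < h)
    (hE : ∫ x in (I : Set (Fin 2 → ℝ)), gs u x ≤ E)
    (hV : ∫ x in (I : Set (Fin 2 → ℝ)), lev u c x ≤ (l / 2) ^ 2) (j : ℕ) :
    ∫ x in (I : Set (Fin 2 → ℝ)), lev u (c + j * h) x
      ≤ (l / 2) ^ 2 * Real.exp (16 * Real.exp 1 / h ^ 2
        * (E - ∫ x in (I : Set (Fin 2 → ℝ)), lev u (c + j * h) x * gs u x) - 2 * j) := by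
  have lg := LB.of_cont (gs_continuous hu)
  have β0 : 0 ≤ 16 * Real.exp 1 / h ^ 2 := by positivity
  induction j with
  | zero =>
    simp only [Nat.cast_zero, zero_mul, add_zero, mul_zero, sub_zero]
    have h1 := lin1 I.measurableSet_coe (((lev_lb hu.continuous c).mul lg).box I) (lg.box I)
      (a := 1) fun x _ => mul_le_mul_of_nonneg_right (lev_le_one u c x) (gs_nonneg u x)
    have h2 : 1 ≤ Real.exp (16 * Real.exp 1 / h ^ 2
        * (E - ∫ x in (I : Set (Fin 2 → ℝ)), lev u c x * gs u x)) :=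
      Real.one_le_exp (mul_nonneg β0 (by linarith))
    nlinarith [sq_nonneg (l / 2)]
  | succ j ih =>
    have hj : ∫ x in (I : Set (Fin 2 → ℝ)), lev u (c + j * h) x ≤ (l / 2) ^ 2 := by
      refine le_trans ?_ hV
      have := lin1 I.measurableSet_coe ((lev_lb hu.continuous (c + j * h)).box I)
        ((lev_lb hu.continuous c).box I) (a := 1) fun x _ => by
          rw [one_mul]; exact lev_anti u (le_add_of_nonneg_right (by positivity)) x
      linarith
    have h1 := level_step hu hl hh hj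
    have e : c + ((j + 1 : ℕ) : ℝ) * h = c + j * h + h := by push_cast; ring
    rw [e]
    set A := ∫ x in (I : Set (Fin 2 → ℝ)), lev u (c + j * h) x * gs u x
    set B := ∫ x in (I : Set (Fin 2 → ℝ)), lev u (c + j * h + h) x * gs u x
    set V := ∫ x in (I : Set (Fin 2 → ℝ)), lev u (c + j * h) x
    have V0 : 0 ≤ V := integral_nonneg (lev_nonneg u _)
    set β := 16 * Real.exp 1 / h ^ 2 with hβ
    have h2 : 16 / h ^ 2 * (A - B) ≤ Real.exp (β * (A - B) - 2) := by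
      have a := Real.add_one_le_exp (β * (A - B) - 1)
      have b : Real.exp (β * (A - B) - 1) = Real.exp (β * (A - B) - 2) * Real.exp 1 := by
        rw [← Real.exp_add]; ring_nf
      have d : β * (A - B) = 16 / h ^ 2 * (A - B) * Real.exp 1 := by rw [hβ]; ring
      refine le_of_mul_le_mul_right ?_ (Real.exp_pos 1)
      linarith
    calc _ ≤ V * (16 / h ^ 2 * (A - B)) := by linarith
      _ ≤ V * Real.exp (β * (A - B) - 2) := mul_le_mul_of_nonneg_left h2 V0
      _ ≤ (l / 2) ^ 2 * Real.exp (β * (E - A) - 2 * j) * Real.exp (β * (A - B) - 2) :=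
        mul_le_mul_of_nonneg_right ih (Real.exp_pos _).le
      _ = _ := by rw [mul_assoc, ← Real.exp_add]; push_cast; ring_nf

theorem top_part {u : (Fin 2 → ℝ) → ℝ} (hu : ContDiff ℝ 1 u) {I : Box (Fin 2)}
    {l s E : ℝ} (hl : Side I l) (E0 : 0 < E)
    (hE : ∫ x in (I : Set (Fin 2 → ℝ)), gs u x ≤ E)
    (hV : ∫ x in (I : Set (Fin 2 → ℝ)), lev u s x ≤ (l / 2) ^ 2) :
    ∫ x in (I : Set (Fin 2 → ℝ)), pp 2 (u x - s)
      ≤ 16 * (∫ x in (I : Set (Fin 2 → ℝ)), lev u s x) * E := by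
  have h := sob_pow le_rfl hu hl one_lt_two hE hV
  have e1 : (2 : ℝ) * (((2 : ℕ) : ℝ) / (((2 : ℕ) : ℝ) - 1)) = 2 * 2 := by norm_num
  have e2 : (((2 : ℕ) : ℝ) - 1) / ((2 : ℕ) : ℝ) = 1 / 2 := by norm_num
  have e3 : ((2 : ℝ) - 1) * 2 = 2 := by norm_num
  rw [e1, e2, e3, ← Real.sqrt_eq_rpow,
    Real.sq_sqrt (integral_nonneg fun x => pp_nonneg _ _)] at h
  have ls := lev_lb hu.continuous s
  have lp : LB fun x => pp 2 (u x - s) :=
    LB.of_cont ((pp_cont zero_le_two).comp (hu.continuous.sub continuous_const))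
  have h2 := cs (ls.sq.box I) (lp.sq.box I) ((ls.mul lp).box I)
  have e4 : ∀ x, lev u s x * pp 2 (u x - s) = pp 2 (u x - s) := by
    intro x
    rcases lt_or_ge s (u x) with a | a
    · rw [lev_pos a, one_mul]
    · rw [pp_of_nonpos two_ne_zero (by linarith), mul_zero]
  have e5 : ∀ x, pp 2 (u x - s) ^ 2 = pp (2 * 2) (u x - s) := fun x => by
    rw [← pp_rpow, Real.rpow_two]
  simp only [lev_sq, e4, e5] at h2
  have V0 : 0 ≤ ∫ x in (I : Set (Fin 2 → ℝ)), lev u s x := integral_nonneg (lev_nonneg u s)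
  have Y0 : 0 ≤ ∫ x in (I : Set (Fin 2 → ℝ)), pp 2 (u x - s) :=
    integral_nonneg fun x => pp_nonneg _ _
  have h3 := h2.trans (mul_le_mul_of_nonneg_left h V0)
  rcases Y0.eq_or_lt with a | a
  · rw [← a]; positivity
  · refine le_of_mul_le_mul_right ?_ a
    nlinarith

/-- light cells in dimension two -/
theorem light2 {μ κ a l : ℝ} {J : ℕ} {m : (Fin 2 → ℝ) → ℝ} {I : Box (Fin 2)} (hμ : 0 < μ)
    (hJ : 1 ≤ J) (hm : Res κ m) (hl : Side I l) (ha : a * J ≤ μ / 1000)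
    (hκ : κ * l ^ 2 ≤ a * Real.exp J) (hM : ∫ x in (I : Set (Fin 2 → ℝ)), m x ≤ a) :
    FB μ m I (fun _ => 2 ^ (2 + 1) * (∫ x in (I : Set (Fin 2 → ℝ)), m x) / l ^ 2) := by
  have hl0 : 0 < l := by rw [← hl 0]; linarith [I.lower_lt_upper 0]
  have κ0 : 0 ≤ κ := (hm.nn 0).trans (hm.le 0)
  have J1 : (1 : ℝ) ≤ J := by exact_mod_cast hJ
  have M0 : 0 ≤ ∫ x in (I : Set (Fin 2 → ℝ)), m x := integral_nonneg hm.nn
  have a0 : 0 ≤ a := M0.trans hM
  refine light_of hμ hm hl0 fun u hu c E E0 hE hV => ?_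
  set h := √(16 * Real.exp 1 * E / J) with hh
  have h2 : h ^ 2 = 16 * Real.exp 1 * E / J := Real.sq_sqrt (by positivity)
  have h0 : 0 < h := Real.sqrt_pos.2 (by positivity)
  have d := level_decay hu hl h0 hE hV J
  have A0 : 0 ≤ ∫ x in (I : Set (Fin 2 → ℝ)), lev u (c + J * h) x * gs u x :=
    integral_nonneg fun x => mul_nonneg (lev_nonneg _ _ _) (gs_nonneg _ _)
  have d2 : ∫ x in (I : Set (Fin 2 → ℝ)), lev u (c + J * h) x ≤ (l / 2) ^ 2 * Real.exp (-J) := by
    refine d.trans (mul_le_mul_of_nonneg_left (Real.exp_le_exp.2 ?_) (sq_nonneg _))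
    have e : 16 * Real.exp 1 / h ^ 2 * E = J := by rw [h2]; field_simp
    have : 0 ≤ 16 * Real.exp 1 / h ^ 2
        * ∫ x in (I : Set (Fin 2 → ℝ)), lev u (c + J * h) x * gs u x := by positivity
    rw [mul_sub, e]; linarith
  have eJ : Real.exp (-(J : ℝ)) ≤ 1 := Real.exp_le_one_iff.2 (by linarith)
  have d3 := top_part hu hl E0 hE (d2.trans (by nlinarith [sq_nonneg (l / 2)]))
  have cw : ∀ s, Continuous fun x => pp 2 (u x - s) := fun s =>
    (pp_cont zero_le_two).comp (hu.continuous.sub continuous_const)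
  have h3 := lin2 I.measurableSet_coe ((hm.lb.mul (LB.of_cont (cw c))).box I) (hm.lb.box I)
    ((LB.of_cont (cw (c + J * h))).box I) (a := 2 * (J * h) ^ 2) (b := 2 * κ) fun x _ => by
      have b := pp_shift (u x - c) (J * h) (by positivity)
      rw [show u x - c - J * h = u x - (c + J * h) by ring] at b
      have b1 := mul_le_mul_of_nonneg_left b (hm.nn x)
      have b2 := mul_le_mul_of_nonneg_right (hm.le x) (pp_nonneg 2 (u x - (c + J * h)))
      linarith
  have e1 : Real.exp 1 ≤ 3 := by linarith [Real.exp_one_lt_d9]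
  have h4 : 2 * (J * h) ^ 2 * ∫ x in (I : Set (Fin 2 → ℝ)), m x ≤ μ / 8 * E := by
    have e : 2 * (J * h) ^ 2 = 32 * Real.exp 1 * E * J := by rw [mul_pow, h2]; field_simp; ring
    rw [e]
    have b1 : (∫ x in (I : Set (Fin 2 → ℝ)), m x) * J ≤ μ / 1000 :=
      (mul_le_mul_of_nonneg_right hM (by linarith)).trans ha
    have b2 : Real.exp 1 * ((∫ x in (I : Set (Fin 2 → ℝ)), m x) * J) ≤ 3 * (μ / 1000) :=
      mul_le_mul e1 b1 (by positivity) (by norm_num)
    nlinarith [mul_le_mul_of_nonneg_right b2 E0.le, mul_pos hμ E0]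
  have h5 : κ * ((l / 2) ^ 2 * Real.exp (-J)) ≤ μ / 4000 := by
    have b1 := mul_le_mul_of_nonneg_right hκ (Real.exp_pos (-(J : ℝ))).le
    rw [mul_assoc a, ← Real.exp_add, add_neg_cancel, Real.exp_zero] at b1
    nlinarith
  have h6 : κ * ∫ x in (I : Set (Fin 2 → ℝ)), pp 2 (u x - (c + J * h)) ≤ 16 * (μ / 4000) * E := by
    have b1 := mul_le_mul_of_nonneg_left d2 κ0
    have b2 := mul_le_mul_of_nonneg_left d3 κ0
    nlinarith [mul_le_mul_of_nonneg_right (b1.trans h5) E0.le]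
  nlinarith [mul_pos hμ E0]

end Pool.Agent.MP_478eab_an.V
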