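import Mathlib
import Pool.Agent.MP_478eab_an.V.Light

/-! The dyadic stopping tree. -/

namespace Pool.Agent.MP_478eab_an.V

open MeasureTheory Set Filter Topology BoxIntegral

variable {n : ℕ}

theorem FB.mono {μ : ℝ} {m W w : (Fin n → ℝ) → ℝ} {I : Box (Fin n)} (h : FB μ m I W)
    (hW : LB W) (hw : LB w) (H : ∀ x ∈ I, W x ≤ w x) : FB μ m I w := by
  intro u hu h0
  have lu := (LB.of_cont hu.continuous).sq
  have := setIntegral_mono_on ((hW.mul lu).box I) ((hw.mul lu).box I) I.measurableSet_coe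
    fun x hx => mul_le_mul_of_nonneg_right (H x hx) (sq_nonneg _)
  linarith [h u hu h0]

open Classical in
theorem int_split {f : (Fin n → ℝ) → ℝ} (hf : LB f) (I : Box (Fin n)) :
    ∫ x in (I : Set (Fin n → ℝ)), f x
      = ∑ s : Set (Fin n), ∫ x in (I.splitCenterBox s : Set (Fin n → ℝ)), f x := by
  rw [← integral_iUnion_fintype (fun s => (I.splitCenterBox s).measurableSet_coe)
    (fun s t h => I.disjoint_splitCenterBox h) (fun s => hf.box _), Box.iUnion_coe_splitCenterBox]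

theorem FB.split {μ κ : ℝ} {m w : (Fin n → ℝ) → ℝ} {I : Box (Fin n)} (hm : Res κ m) (hw : LB w)
    (h : ∀ s, FB μ m (I.splitCenterBox s) w) : FB μ m I w := by
  classical
  intro u hu h0
  have lu := (LB.of_cont hu.continuous).sq
  rw [int_split (hm.lb.mul lu), int_split (hw.mul lu), int_split (LB.of_cont (gs_continuous hu)),
    Finset.mul_sum, ← Finset.sum_add_distrib]
  exact Finset.sum_le_sum fun s _ => h s u hu fun x hx => h0 x (I.splitCenterBox_le s hx)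

theorem mass_le {κ l : ℝ} {m : (Fin n → ℝ) → ℝ} {I : Box (Fin n)} (hm : Res κ m)
    (hl : Side I l) : ∫ x in (I : Set (Fin n → ℝ)), m x ≤ κ * l ^ n := by
  have := setIntegral_mono_on (hm.lb.box I) ((LB.const κ).box I) I.measurableSet_coe
    fun x _ => hm.le x
  rw [hl.vol] at this
  linarith

theorem ratio_pow (hn : 2 ≤ n) {ε l : ℝ} (hε : 0 < ε) (h : ε ≤ l) :
    ε ^ n / l ^ n ≤ ε ^ 2 / l ^ 2 := by
  have hl : 0 < l := hε.trans_le h
  rw [← div_pow, ← div_pow]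
  exact pow_le_pow_of_le_one (by positivity) ((div_le_one hl).2 h) hn

theorem nsq_le_box {I : Box (Fin n)} {l : ℝ} (hl : Side I l) {x p : Fin n → ℝ} (hx : x ∈ I)
    (hp : p ∈ Box.Icc I) : nsq (x - p) ≤ n * l ^ 2 := by
  have : ∀ i, (x - p) i ^ 2 ≤ l ^ 2 := fun i => by
    have a := hx i
    have b1 := hp.1 i
    have b2 := hp.2 i
    have c := hl i
    rw [Pi.sub_apply]
    exact sq_le_sq' (by linarith [a.1]) (by linarith [a.2])
  calc nsq (x - p) ≤ ∑ _i : Fin n, l ^ 2 := Finset.sum_le_sum fun i _ => this i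
    _ = n * l ^ 2 := by simp

theorem tree (hn : 2 ≤ n) {μ κ ε R : ℝ} {m : (Fin n → ℝ) → ℝ} (hκ : 0 < κ) (hε : 0 < ε)
    (hR : ε ≤ R) (hm : Res κ m)
    (hL : ∀ (I : Box (Fin n)) (l : ℝ), Side I l → l ≤ R →
      ∫ x in (I : Set (Fin n → ℝ)), m x ≤ κ * ε ^ n →
      FB μ m I (fun _ => 2 ^ (n + 1) * (∫ x in (I : Set (Fin n → ℝ)), m x) / l ^ n))
    (h : ℕ) : ∀ (I : Box (Fin n)) (l : ℝ), Side I l → l ≤ 2 ^ h * ε →
      ∃ P : Finset (Fin n → ℝ), κ * ε ^ n * P.card ≤ ∫ x in (I : Set (Fin n → ℝ)), m x ∧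
        (∀ p ∈ P, p ∈ Box.Icc I) ∧
        (κ * ε ^ n < ∫ x in (I : Set (Fin n → ℝ)), m x → P.Nonempty) ∧
        ∀ w : (Fin n → ℝ) → ℝ, LB w →
          (∀ p ∈ P, ∀ x, 2 ^ (2 * n + 1) * (n + 1) * κ * ε ^ 2 / (ε ^ 2 + nsq (x - p)) ≤ w x) →
          (∀ x, 2 ^ (2 * n + 1) * (n + 1) * κ * ε ^ 2 / R ^ 2 ≤ w x) →
          (∫ x in (I : Set (Fin n → ℝ)), m x ≤ κ * ε ^ n → l ≤ R →
            ∀ x ∈ I, 2 ^ (n + 1) * (κ * ε ^ n) / l ^ n ≤ w x) → FB μ m I w := by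
  classical
  have pos : ∀ (I : Box (Fin n)) (l : ℝ), Side I l → 0 < l := fun I l hl => by
    rw [← hl ⟨0, by omega⟩]; linarith [I.lower_lt_upper ⟨0, by omega⟩]
  have leaf : ∀ (I : Box (Fin n)) (l : ℝ), Side I l → l ≤ R →
      ∫ x in (I : Set (Fin n → ℝ)), m x ≤ κ * ε ^ n →
      ∃ P : Finset (Fin n → ℝ), κ * ε ^ n * P.card ≤ ∫ x in (I : Set (Fin n → ℝ)), m x ∧
        (∀ p ∈ P, p ∈ Box.Icc I) ∧
        (κ * ε ^ n < ∫ x in (I : Set (Fin n → ℝ)), m x → P.Nonempty) ∧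
        ∀ w : (Fin n → ℝ) → ℝ, LB w →
          (∀ p ∈ P, ∀ x, 2 ^ (2 * n + 1) * (n + 1) * κ * ε ^ 2 / (ε ^ 2 + nsq (x - p)) ≤ w x) →
          (∀ x, 2 ^ (2 * n + 1) * (n + 1) * κ * ε ^ 2 / R ^ 2 ≤ w x) →
          (∫ x in (I : Set (Fin n → ℝ)), m x ≤ κ * ε ^ n → l ≤ R →
            ∀ x ∈ I, 2 ^ (n + 1) * (κ * ε ^ n) / l ^ n ≤ w x) → FB μ m I w := by
    intro I l hl hlR hM
    refine ⟨∅, by simpa using MeasureTheory.integral_nonneg hm.nn, by simp, fun a => absurd hM (not_le.2 a),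
      fun w hw _ _ h3 => (hL I l hl hlR hM).mono (LB.const _) hw fun x hx => ?_⟩
    refine le_trans ?_ (h3 hM hlR x hx)
    have := pos I l hl
    gcongr
  induction h with
  | zero =>
    intro I l hl hh
    have hh' : l ≤ ε := by simpa using hh
    refine leaf I l hl (hh'.trans hR) ((mass_le hm hl).trans ?_)
    have := pos I l hl
    gcongr
  | succ h ih =>
    intro I l hl hh
    by_cases hA : l ≤ R ∧ ∫ x in (I : Set (Fin n → ℝ)), m x ≤ κ * ε ^ n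
    · exact leaf I l hl hA.1 hA.2
    have l0 := pos I l hl
    have hs : ∀ s, Side (I.splitCenterBox s) (l / 2) := fun s i => by
      rw [Box.upper_sub_lower_splitCenterBox, hl i]
    choose Q q1 q2 q3 q4 using fun s => ih (I.splitCenterBox s) (l / 2) (hs s)
      (by rw [pow_succ] at hh; linarith)
    have a0 : 0 < κ * ε ^ n := by positivity
    obtain ⟨P, p0, p1, p2, p3⟩ : ∃ P : Finset (Fin n → ℝ), (∀ s, Q s ⊆ P) ∧
        κ * ε ^ n * P.card ≤ ∫ x in (I : Set (Fin n → ℝ)), m x ∧ (∀ p ∈ P, p ∈ Box.Icc I) ∧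
        (κ * ε ^ n < ∫ x in (I : Set (Fin n → ℝ)), m x → P.Nonempty) := by
      by_cases hE : (∀ s, Q s = ∅) ∧ κ * ε ^ n < ∫ x in (I : Set (Fin n → ℝ)), m x
      · refine ⟨{I.upper}, fun s => by simp [hE.1 s], by simpa using hE.2.le, ?_, fun _ => by simp⟩
        intro p hp
        rw [Finset.mem_singleton.1 hp]
        exact I.upper_mem_Icc
      · refine ⟨Finset.univ.biUnion Q, fun s => Finset.subset_biUnion_of_mem Q (Finset.mem_univ s),
          ?_, ?_, fun hv => ?_⟩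
        · rw [int_split hm.lb]
          refine le_trans ?_ (Finset.sum_le_sum fun s _ => q1 s)
          rw [← Finset.mul_sum]
          refine mul_le_mul_of_nonneg_left ?_ a0.le
          exact_mod_cast Finset.card_biUnion_le
        · intro p hp
          obtain ⟨s, -, hs'⟩ := Finset.mem_biUnion.1 hp
          exact Box.le_iff_Icc.1 (I.splitCenterBox_le s) (q2 s p hs')
        · have : ¬ ∀ s, Q s = ∅ := fun a => hE ⟨a, hv⟩
          obtain ⟨s, hs'⟩ := not_forall.1 this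
          obtain ⟨p, hp⟩ := Finset.nonempty_iff_ne_empty.2 hs'
          exact ⟨p, Finset.mem_biUnion.2 ⟨s, Finset.mem_univ s, hp⟩⟩
    refine ⟨P, p1, p2, p3, fun w hw w1 w2 _ => FB.split hm hw fun s =>
      q4 s w hw (fun p hp => w1 p (p0 s hp)) w2 fun _ _ x hx => ?_⟩
    have e : 2 ^ (n + 1) * (κ * ε ^ n) / (l / 2) ^ n = 2 ^ (2 * n + 1) * κ * (ε ^ n / l ^ n) := by
      rw [div_pow]; field_simp; ring
    rw [e]
    have n1 : (1 : ℝ) ≤ n + 1 := by linarith [Nat.cast_nonneg (α := ℝ) n]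
    rcases le_or_gt l R with hlR | hlR
    · have hv : κ * ε ^ n < ∫ x in (I : Set (Fin n → ℝ)), m x := by
        by_contra c; exact hA ⟨hlR, not_lt.1 c⟩
      have hεl : ε ≤ l := by
        have a := lt_of_mul_lt_mul_left (hv.trans_le (mass_le hm hl)) hκ.le
        exact (lt_of_pow_lt_pow_left₀ n l0.le a).le
      obtain ⟨p, hp⟩ := p3 hv
      refine le_trans ?_ (w1 p hp x)
      have b1 := nsq_le_box hl (I.splitCenterBox_le s hx) (p2 p hp)
      have b2 : ε ^ 2 ≤ l ^ 2 := pow_le_pow_left₀ hε.le hεl 2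
      have b3 : 0 < ε ^ 2 + nsq (x - p) := by linarith [nsq_nonneg (x - p), pow_pos hε 2]
      calc 2 ^ (2 * n + 1) * κ * (ε ^ n / l ^ n) ≤ 2 ^ (2 * n + 1) * κ * (ε ^ 2 / l ^ 2) :=
            mul_le_mul_of_nonneg_left (ratio_pow hn hε hεl) (by positivity)
        _ = 2 ^ (2 * n + 1) * (n + 1) * κ * ε ^ 2 / ((n + 1) * l ^ 2) := by field_simp
        _ ≤ _ := div_le_div_of_nonneg_left (by positivity) b3 (by linarith)
    · refine le_trans ?_ (w2 x)
      have R0 : 0 < R := hε.trans_le hR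
      calc 2 ^ (2 * n + 1) * κ * (ε ^ n / l ^ n) ≤ 2 ^ (2 * n + 1) * κ * (ε ^ 2 / l ^ 2) :=
            mul_le_mul_of_nonneg_left (ratio_pow hn hε (hR.trans hlR.le)) (by positivity)
        _ = 2 ^ (2 * n + 1) * 1 * κ * ε ^ 2 / l ^ 2 := by ring
        _ ≤ _ := by gcongr

/-- the unit cube as a box -/
def root (n : ℕ) : Box (Fin n) := ⟨0, 1, fun _ => one_pos⟩

theorem root_side : Side (root n) 1 := fun i => by simp [root]

theorem int_root (f : (Fin n → ℝ) → ℝ) :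
    ∫ x in (root n : Set (Fin n → ℝ)), f x = ∫ x in cube n, f x :=
  setIntegral_congr_set (root n).coe_ae_eq_Icc

theorem FB.cube {μ : ℝ} {m w : (Fin n → ℝ) → ℝ} (h : FB μ m (root n) w) : FB μ m (cube n) w := by
  intro u hu h0
  have := h u hu fun x hx => h0 x (Box.coe_subset_Icc hx)
  rwa [int_root, int_root, int_root] at this

theorem tree_root (hn : 2 ≤ n) {μ κ ε R : ℝ} {m : (Fin n → ℝ) → ℝ} (hκ : 0 < κ) (hε : 0 < ε)
    (hR : ε ≤ R) (hR1 : R < 1) (hm : Res κ m)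
    (hL : ∀ (I : Box (Fin n)) (l : ℝ), Side I l → l ≤ R →
      ∫ x in (I : Set (Fin n → ℝ)), m x ≤ κ * ε ^ n →
      FB μ m I (fun _ => 2 ^ (n + 1) * (∫ x in (I : Set (Fin n → ℝ)), m x) / l ^ n)) :
    ∃ P : Finset (Fin n → ℝ), κ * ε ^ n * P.card ≤ ∫ x in cube n, m x ∧ (∀ p ∈ P, p ∈ cube n) ∧
      ∀ w : (Fin n → ℝ) → ℝ, LB w →
        (∀ p ∈ P, ∀ x, 2 ^ (2 * n + 1) * (n + 1) * κ * ε ^ 2 / (ε ^ 2 + nsq (x - p)) ≤ w x) →
        (∀ x, 2 ^ (2 * n + 1) * (n + 1) * κ * ε ^ 2 / R ^ 2 ≤ w x) → FB μ m (cube n) w := by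
  obtain ⟨h, hh⟩ := pow_unbounded_of_one_lt (1 / ε) (one_lt_two (α := ℝ))
  obtain ⟨P, p1, p2, -, p4⟩ := tree hn hκ hε hR hm hL h (root n) 1 root_side
    ((div_lt_iff₀ hε).1 hh).le
  rw [int_root] at p1
  exact ⟨P, p1, p2, fun w hw w1 w2 =>
    (p4 w hw w1 w2 fun _ a => absurd a (not_le.2 hR1)).cube⟩

end Pool.Agent.MP_478eab_an.V
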