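import Mathlib
import Pool.Agent.MP_478eab_an.V.Light2
import Pool.Agent.MP_478eab_an.V.Tree
import Pool.Agent.MP_478eab_an.V.Dist
import Pool.Agent.MP_478eab_an.V.Four

/-! The upper bounds. -/

namespace Pool.Agent.MP_478eab_an.V

open MeasureTheory Set Filter Topology BoxIntegral

variable {n : ℕ} {μ κ m₀ : ℝ} {m θ : (Fin n → ℝ) → ℝ}

theorem reduce (hκ : 0 ≤ κ) (ha : Adm κ m₀ m) (hs : IsSol μ m θ) :
    ∃ m' : (Fin n → ℝ) → ℝ, Res κ m' ∧ ∫ x in cube n, m' x = m₀ ∧ IsSol μ m' θ := by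
  obtain ⟨h1, h2, h3⟩ := ha
  have hae : m =ᵐ[volume.restrict (cube n)] fun x => max 0 (min κ (h1.mk m x)) := by
    filter_upwards [h1.ae_eq_mk, h2] with x hx hb
    rw [← hx, min_eq_right hb.2, max_eq_right hb.1]
  refine ⟨fun x => max 0 (min κ (h1.mk m x)), ⟨measurable_const.max
    (measurable_const.min h1.measurable_mk), fun x => le_max_left _ _,
    fun x => max_le hκ (min_le_left _ _)⟩, ?_, hs.1, hs.2.1, fun ψ hψ => ?_⟩
  · rw [← h3]; exact (integral_congr_ae hae).symm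
  · rw [hs.2.2 ψ hψ]
    refine integral_congr_ae ?_
    filter_upwards [hae] with x hx
    rw [hx]

theorem root_case (hμ : 0 < μ) (h0 : 0 < m₀) (hm : Res κ m) (hM : ∫ x in cube n, m x = m₀)
    (hs : IsSol μ m θ)
    (hL : FB μ m (root n) (fun _ => 2 ^ (n + 1) * (∫ x in (root n : Set (Fin n → ℝ)), m x) / 1 ^ n)) :
    ∫ x in cube n, θ x ≤ 5 * 2 ^ (n + 1) * m₀ := by
  rw [int_root, hM] at hL
  have := ko_const hμ hm hs (K := 2 ^ (n + 1) * m₀ / 1 ^ n) (by positivity) hL.cube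
  rw [one_pow, div_one] at this
  linarith

theorem struct (hn : 2 ≤ n) {ε R : ℝ} (h0 : 0 < m₀) (hκ : m₀ ≤ κ) (hε : 0 < ε) (hR : 0 < R)
    (hRn : R ^ n * m₀ = κ * ε ^ n) (hlt : κ * ε ^ n < m₀)
    (hm : Res κ m) (hM : ∫ x in cube n, m x = m₀)
    (hL : ∀ (I : Box (Fin n)) (l : ℝ), Side I l → l ≤ R →
      ∫ x in (I : Set (Fin n → ℝ)), m x ≤ κ * ε ^ n →
      FB μ m I (fun _ => 2 ^ (n + 1) * (∫ x in (I : Set (Fin n → ℝ)), m x) / l ^ n)) :
    ∃ D : (Fin n → ℝ) → ℝ, ContDiff ℝ 1 D ∧ (∀ x, 0 < D x) ∧ (∀ x, gs D x ≤ n) ∧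
      FB μ m (cube n) (fun x => 2 ^ (2 * n + 1) * (n + 1) * κ * ε ^ 2 / D x ^ 2) ∧
      ∀ s t : ℕ, s + t = 3 → ∀ B : ℝ, 0 ≤ B → (∀ p ∈ cube n, ∫ x in cube n,
        min (1 / (ε ^ 2 + nsq (x - p)) ^ s) ((R ^ 2) ^ t / (ε ^ 2 + nsq (x - p)) ^ 3) ≤ B) →
        ∫ x in cube n, 1 / (D x ^ 2) ^ s ≤ 1 / (R ^ 2) ^ s + B / R ^ n := by
  have hn0 : n ≠ 0 := by omega
  have hκ0 : 0 < κ := h0.trans_le hκ
  have hεR : ε ≤ R := by
    refine le_of_pow_le_pow_left₀ hn0 hR.le ?_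
    have h1 : ε ^ n * m₀ ≤ R ^ n * m₀ := by
      rw [hRn, mul_comm]; exact mul_le_mul_of_nonneg_right hκ (by positivity)
    exact le_of_mul_le_mul_right h1 h0
  have hR1 : R < 1 := by
    refine lt_of_pow_lt_pow_left₀ n zero_le_one ?_
    rw [one_pow]
    have h1 : R ^ n * m₀ < 1 * m₀ := by rw [hRn, one_mul]; exact hlt
    exact lt_of_mul_lt_mul_right h1 h0.le
  obtain ⟨P, hP1, hP2, hP3⟩ := tree_root hn hκ0 hε hεR hR1 hm hL
  obtain ⟨D, hD, D0, D1, D2, D3, D4⟩ := exists_dist P hε hR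
  have hK : (0 : ℝ) ≤ 2 ^ (2 * n + 1) * (n + 1) * κ * ε ^ 2 := by positivity
  refine ⟨D, hD, D0, D3, hP3 _ (LB.of_cont (continuous_const.div (hD.continuous.pow 2)
    fun x => (pow_pos (D0 x) 2).ne')) (fun p hp x => ?_) (fun x => ?_), fun s t hst B hB H => ?_⟩
  · exact div_le_div_of_nonneg_left hK (pow_pos (D0 x) 2) (D2 p hp x)
  · exact div_le_div_of_nonneg_left hK (pow_pos (D0 x) 2) (D1 x)
  · refine (int_dist hε hD.continuous D0 (D4 s t hst) fun p hp => H p (hP2 p hp)).trans ?_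
    have h1 : (P.card : ℝ) ≤ 1 / R ^ n := by
      rw [le_div_iff₀ (by positivity)]
      rw [hM, ← hRn] at hP1
      have : (P.card * R ^ n) * m₀ ≤ 1 * m₀ := by linarith
      exact le_of_mul_le_mul_right this h0
    have : P.card * B ≤ B / R ^ n := by
      calc P.card * B ≤ 1 / R ^ n * B := mul_le_mul_of_nonneg_right h1 hB
        _ = B / R ^ n := by ring
    linarith

theorem sqrt_case (h0 : 0 < m₀) (hm : Res κ m) (hM : ∫ x in cube n, m x = m₀)
    (hs : IsSol μ m θ) : ∫ x in cube n, θ x ≤ m₀ * √(κ / m₀) := by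
  have h1 := (sq_int_le hs.1.continuous).trans (l2_bound hm hs)
  rw [hM] at h1
  have hκ : 0 ≤ κ := (hm.nn 0).trans (hm.le 0)
  refine le_of_pow_le_pow_left₀ two_ne_zero (by positivity) (h1.trans_eq ?_)
  rw [mul_pow, Real.sq_sqrt (by positivity)]
  field_simp

theorem log_ge {t : ℝ} (ht : 2 ≤ t) : 2 / 3 ≤ Real.log t :=
  le_trans (by have := Real.log_two_gt_d9; linarith) (Real.log_le_log two_pos ht)

theorem Phi_ge {t : ℝ} (ht : 2 ≤ t) : 1 / 3 ≤ Phi n t := by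
  have hl := log_ge ht
  unfold Phi
  split_ifs
  · nlinarith
  · have := Real.one_le_rpow (show 1 ≤ t by linarith) (show (0 : ℝ) ≤ 1 / 3 by norm_num)
    linarith
  · have h1 : 1 ≤ t / Real.log t := by
      rw [le_div_iff₀ (by linarith)]
      have := Real.log_le_sub_one_of_pos (show 0 < t by linarith)
      linarith
    have := Real.one_le_sqrt.2 h1
    linarith
  · have := Real.one_le_sqrt.2 (show 1 ≤ t by linarith)
    linarith

theorem upper_two {m θ : (Fin 2 → ℝ) → ℝ} (hμ : 0 < μ) (h0 : 0 < m₀) (hκ : 2 * m₀ ≤ κ)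
    (hm : Res κ m) (hM : ∫ x in cube 2, m x = m₀) (hs : IsSol μ m θ) :
    ∫ x in cube 2, θ x ≤ 10 ^ 8 * m₀ * Real.log (κ / m₀) ^ 2 ∧
      (10 ^ 8 * m₀ * Real.log (κ / m₀) ≤ μ → ∫ x in cube 2, θ x ≤ 10 ^ 8 * m₀) := by
  obtain ⟨t, ht⟩ : ∃ t, t = κ / m₀ := ⟨_, rfl⟩
  have hκ0 : 0 < κ := by linarith
  have ht2 : 2 ≤ t := by rw [ht, le_div_iff₀ h0]; exact hκ
  have hκt : κ = t * m₀ := by rw [ht]; field_simp
  rw [← ht]
  have hl := log_ge ht2
  obtain ⟨J, hJ⟩ : ∃ J : ℕ, J = ⌈Real.log t⌉₊ := ⟨_, rfl⟩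
  have J1 : Real.log t ≤ J := hJ ▸ Nat.le_ceil _
  have J2 : (J : ℝ) ≤ 3 * Real.log t := by
    have := Nat.ceil_lt_add_one (show 0 ≤ Real.log t by linarith)
    rw [← hJ] at this; linarith
  have J0 : (0 : ℝ) < J := by linarith
  have J3 : 1 ≤ J := Nat.one_le_iff_ne_zero.2 fun h => by simp [h] at J0
  have J4 : t ≤ Real.exp J := by
    rw [← Real.exp_log (show 0 < t by linarith)]; exact Real.exp_le_exp.2 J1
  obtain ⟨a, ha⟩ : ∃ a, a = μ / (1000 * J) := ⟨_, rfl⟩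
  have a0 : 0 < a := by rw [ha]; positivity
  have haJ : a * J ≤ μ / 1000 := by rw [ha]; field_simp; exact le_rfl
  have hμa : μ = 1000 * J * a := by rw [ha]; field_simp
  have hroot : m₀ ≤ a → ∫ x in cube 2, θ x ≤ 40 * m₀ := fun h => by
    have := root_case hμ h0 hm hM hs (light2 hμ J3 hm root_side haJ (by
      rw [one_pow, mul_one, hκt, mul_comm]
      exact mul_le_mul h J4 (by linarith) a0.le) (by rw [int_root, hM]; exact h))
    norm_num at this
    exact this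
  refine ⟨?_, fun h => (hroot ?_).trans (by linarith)⟩
  · rcases le_or_gt m₀ a with h | h
    · refine (hroot h).trans ?_
      have : 4 / 9 ≤ Real.log t ^ 2 := by nlinarith
      nlinarith
    obtain ⟨ε, hε⟩ : ∃ ε, ε = √(a / κ) := ⟨_, rfl⟩
    have ε0 : 0 < ε := by rw [hε]; positivity
    have ε2 : κ * ε ^ 2 = a := by rw [hε, Real.sq_sqrt (by positivity)]; field_simp
    have s1 : 1 ≤ √t := Real.one_le_sqrt.2 (by linarith)
    have s2 : √t ^ 2 = t := Real.sq_sqrt (by linarith)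
    have R2 : (ε * √t) ^ 2 * m₀ = κ * ε ^ 2 := by rw [mul_pow, s2, hκt]; ring
    obtain ⟨D, hD, D0, D1, D2, D3⟩ := struct (μ := μ) (R := ε * √t) le_rfl h0 (by linarith) ε0
      (by positivity) R2 (by rw [ε2]; exact h) hm hM fun I l hl hlR hI => by
        have l0 : 0 < l := by
          have := hl 0; have := I.lower_lt_upper 0; linarith
        refine light2 hμ J3 hm hl haJ ?_ (ε2 ▸ hI)
        have h1 : l ^ 2 ≤ (ε * √t) ^ 2 := pow_le_pow_left₀ l0.le hlR 2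
        rw [mul_pow, s2] at h1
        calc κ * l ^ 2 ≤ κ * (ε ^ 2 * t) := mul_le_mul_of_nonneg_left h1 hκ0.le
          _ = a * t := by rw [← ε2]; ring
          _ ≤ a * Real.exp J := mul_le_mul_of_nonneg_left J4 a0.le
    have hk := ko hμ hm hs hD D0 D1 (by positivity) D2
    have hB : Real.log (1 + 2 * (2 * (ε * √t) / ε)) ≤ 4 * Real.log t := by
      rw [show 2 * (ε * √t) / ε = 2 * √t by field_simp]
      have h1 : √t ≤ t := by nlinarith
      have h2 : 1 + 2 * (2 * √t) ≤ t ^ 4 := by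
        have : 8 ≤ t ^ 3 := by
          have := pow_le_pow_left₀ (by norm_num : (0 : ℝ) ≤ 2) ht2 3
          linarith
        nlinarith
      have := Real.log_le_log (by positivity) h2
      rw [Real.log_pow] at this
      exact_mod_cast this
    have hI := D3 1 2 rfl (4 ^ 2 * (3 * (4 * Real.log t))) (by positivity) fun p hp =>
      (kern_crit (s := 1) (t := 2) rfl rfl (by norm_num) hp ε0 (by positivity)).trans (by
        linarith)
    have hR : (ε * √t) ^ 2 = a / m₀ := by rw [eq_div_iff h0.ne', R2, ε2]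
    rw [hR] at hI
    have hI2 : ∫ x in cube 2, 1 / (D x ^ 2) ^ 1 ≤ 194 * Real.log t * (m₀ / a) := by
      refine hI.trans ?_
      rw [pow_one, div_div_eq_mul_div, div_div_eq_mul_div, one_mul, mul_div_assoc]
      have : 0 < m₀ / a := by positivity
      nlinarith
    have hK : (2 : ℝ) ^ (2 * 2 + 1) * (((2 : ℕ) : ℝ) + 1) * κ * ε ^ 2 + 4 * ((2 : ℕ) : ℝ) * μ
        ≤ 25000 * Real.log t * a := by
      rw [mul_assoc _ κ, ε2, hμa]
      push_cast
      nlinarith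
    calc ∫ x in cube 2, θ x ≤ _ := hk
      _ ≤ 5 * (25000 * Real.log t * a) * (194 * Real.log t * (m₀ / a)) := by
        refine mul_le_mul (by linarith) hI2 (MeasureTheory.integral_nonneg fun x => ?_)
          (by positivity)
        have := D0 x
        positivity
      _ = 24250000 * (m₀ * Real.log t ^ 2) := by field_simp; norm_num
      _ ≤ _ := by
        have : 0 ≤ m₀ * Real.log t ^ 2 := by positivity
        nlinarith
  · rw [ha, le_div_iff₀ (by positivity)]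
    nlinarith

theorem four_arith {Λ τ x F : ℝ} (hΛ : 1 ≤ Λ) (hτ : τ = Real.exp Λ) (hx : 0 ≤ x)
    (A B : ℝ) (hB : 0 ≤ B)
    (h : F ^ 2 ≤ A * (x * (4609 * Λ) / Λ ^ 2) + B * (x / τ ^ 2) + 2 * (x * (4609 * Λ) / τ ^ 4)) :
    F ^ 2 ≤ (4609 * A + B + 9218) * (x / Λ) := by
  have h1 : Λ ≤ τ := by rw [hτ]; linarith [Real.add_one_le_exp Λ]
  have h2 : Λ ≤ τ ^ 2 := by nlinarith
  have h3 : Λ ^ 2 ≤ τ ^ 4 := by
    rw [show τ ^ 4 = (τ ^ 2) ^ 2 by ring]; exact pow_le_pow_left₀ (by linarith) h2 2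
  have e1 : x * (4609 * Λ) / Λ ^ 2 = 4609 * (x / Λ) := by field_simp
  have e2 : x / τ ^ 2 ≤ x / Λ := div_le_div_of_nonneg_left hx (by linarith) h2
  have e3 : x * (4609 * Λ) / τ ^ 4 ≤ 4609 * (x / Λ) :=
    (div_le_div_of_nonneg_left (by positivity) (by positivity) h3).trans_eq e1
  rw [e1] at h
  nlinarith [mul_le_mul_of_nonneg_left e2 hB]

theorem upper_high (hn : 3 ≤ n) : ∃ C : ℝ, 0 < C ∧ ∀ (μ κ m₀ : ℝ) (m θ : (Fin n → ℝ) → ℝ),
    0 < μ → 0 < m₀ → 2 * m₀ ≤ κ → Res κ m → ∫ x in cube n, m x = m₀ → IsSol μ m θ →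
    ∫ x in cube n, θ x ≤ C * m₀ * Phi n (κ / m₀) ∧
      (C * m₀ * (κ / m₀) ^ (1 - (2 : ℝ) / n) ≤ μ → ∫ x in cube n, θ x ≤ C * m₀) := by
  obtain ⟨c, c0, c1, hc⟩ := light3 hn
  obtain ⟨k, hk⟩ : ∃ k : ℝ, k = 2 ^ (2 * n + 1) * (n + 1) * c := ⟨_, rfl⟩
  have k0 : 0 < k := by rw [hk]; positivity
  obtain ⟨G, hG⟩ : ∃ G : ℝ, G = 4609 * (256 * (4 * k + 444 * n) * n / c ^ 2)
    + 4 * (2 * k + 36 * n) / c + 9218 := ⟨_, rfl⟩
  have G0 : 0 ≤ G := by rw [hG]; positivity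
  obtain ⟨C, hC⟩ : ∃ C : ℝ, C = 15 * 2 ^ (n + 1) + 1 / c + 5 * (k + 12) * 3073 / c + 4
    + √(12 * G) := ⟨_, rfl⟩
  have p1 : (0 : ℝ) < 2 ^ (n + 1) := by positivity
  have p2 : 0 < 1 / c := by positivity
  have p3 : 0 < 5 * (k + 12) * 3073 / c := by positivity
  have p4 : 0 ≤ √(12 * G) := Real.sqrt_nonneg _
  refine ⟨C, by rw [hC]; positivity, fun μ κ m₀ m θ hμ h0 hκ hm hM hs => ?_⟩
  have hsq := sqrt_case h0 hm hM hs
  obtain ⟨t, ht⟩ : ∃ t, t = κ / m₀ := ⟨_, rfl⟩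
  have hκ0 : 0 < κ := by linarith
  have ht2 : 2 ≤ t := by rw [ht, le_div_iff₀ h0]; exact hκ
  have t0 : 0 < t := by linarith
  have hκt : κ = t * m₀ := by rw [ht]; field_simp
  rw [← ht] at hsq ⊢
  have hl := log_ge ht2
  have hΦ := Phi_ge (n := n) ht2
  obtain ⟨ε, hε⟩ : ∃ ε, ε = √(c * μ / κ) := ⟨_, rfl⟩
  have ε0 : 0 < ε := by rw [hε]; positivity
  have ε2 : κ * ε ^ 2 = c * μ := by rw [hε, Real.sq_sqrt (by positivity)]; field_simp
  have hL := fun I l hl => hc μ κ ε l m I hμ ε0 hm hl ε2.le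
  have hroot : m₀ ≤ κ * ε ^ n → ∫ x in cube n, θ x ≤ 5 * 2 ^ (n + 1) * m₀ := fun h =>
    root_case hμ h0 hm hM hs (hL _ _ root_side (by rw [int_root, hM]; exact h))
  have hn0 : (0 : ℝ) < n := by exact_mod_cast (show 0 < n by omega)
  obtain ⟨s, hs0, hsn⟩ : ∃ s : ℝ, 0 < s ∧ s ^ n = t :=
    ⟨t ^ (n : ℝ)⁻¹, by positivity, Real.rpow_inv_natCast_pow t0.le (by omega)⟩
  have fin : ∀ B : ℝ, B ≤ C → ∫ x in cube n, θ x ≤ B * m₀ * Phi n t →
      ∫ x in cube n, θ x ≤ C * m₀ * Phi n t := fun B hB h => h.trans (by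
    refine mul_le_mul_of_nonneg_right (mul_le_mul_of_nonneg_right hB h0.le) (by linarith))
  refine ⟨?_, fun h => (hroot ?_).trans (mul_le_mul_of_nonneg_right (by linarith) h0.le)⟩
  · rcases le_or_gt m₀ (κ * ε ^ n) with h | h
    · refine fin (15 * 2 ^ (n + 1)) (by linarith) ((hroot h).trans ?_)
      have : 0 < 2 ^ (n + 1) * m₀ := by positivity
      nlinarith
    have Rn : (ε * s) ^ n * m₀ = κ * ε ^ n := by rw [mul_pow, hsn, hκt]; ring
    obtain ⟨D, hD, D0, D1, D2, D3⟩ := struct (μ := μ) (R := ε * s) (by omega) h0 (by linarith) ε0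
      (by positivity) Rn h hm hM fun I l hl _ hI => hL I l hl hI
    have hKk : (2 : ℝ) ^ (2 * n + 1) * (n + 1) * κ * ε ^ 2 = k * μ := by
      rw [mul_assoc _ κ, ε2, hk]; ring
    rw [hKk] at D2
    have hμε : μ = t * m₀ * ε ^ 2 / c := by rw [← hκt, ε2]; field_simp
    rcases (show n = 3 ∨ n = 4 ∨ 5 ≤ n by omega) with rfl | rfl | h5
    · have hΦ3 : Phi 3 t = s := by
        rw [Phi, if_neg (by norm_num), if_pos rfl, ← hsn, ← Real.rpow_natCast,
          ← Real.rpow_mul hs0.le]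
        norm_num
      have hI := D3 1 2 rfl (512 * (6 * (ε * s))) (by positivity) fun p hp =>
        kern_three hp ε0 (by positivity)
      have hI2 : ∫ x in cube 3, 1 / (D x ^ 2) ^ 1 ≤ 3073 / (ε * s) ^ 2 :=
        hI.trans_eq (by field_simp; norm_num)
      refine fin (5 * (k + 12) * 3073 / c) (by linarith)
        ((ko hμ hm hs hD D0 D1 (by positivity) D2).trans ?_)
      refine (mul_le_mul_of_nonneg_left hI2 (by positivity)).trans_eq ?_
      rw [hΦ3, hμε, ← hsn]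
      push_cast
      field_simp
      ring
    · have hΦ4 : Phi 4 t = √(t / Real.log t) := by
        rw [Phi, if_neg (by norm_num), if_neg (by norm_num), if_pos rfl]
      rcases le_or_gt (Real.log t) 12 with hl12 | hl12
      · refine fin 4 (by linarith) (hsq.trans ?_)
        rw [hΦ4, mul_comm 4 m₀, mul_assoc]
        refine mul_le_mul_of_nonneg_left ?_ h0.le
        refine le_of_pow_le_pow_left₀ two_ne_zero (by positivity) ?_
        rw [mul_pow, Real.sq_sqrt t0.le, Real.sq_sqrt (by positivity), ← mul_div_assoc,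
          le_div_iff₀ (by linarith)]
        nlinarith
      obtain ⟨Λ, hΛ⟩ : ∃ Λ, Λ = Real.log t / 12 := ⟨_, rfl⟩
      have Λ1 : 1 ≤ Λ := by linarith
      obtain ⟨τ, hτ⟩ : ∃ τ, τ = Real.exp Λ := ⟨_, rfl⟩
      have τ0 : 0 < τ := by rw [hτ]; positivity
      have τ2 : 2 ≤ τ := by rw [hτ]; linarith [Real.add_one_le_exp Λ]
      have hτt : τ ^ 12 = t := by
        rw [hτ, ← Real.exp_nat_mul, ← Real.exp_log t0, hΛ]; congr 1; push_cast; ring
      have hsτ : s = τ ^ 3 := by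
        refine (pow_left_inj₀ hs0.le (by positivity) (show 4 ≠ 0 by norm_num)).1 ?_
        rw [hsn, ← hτt]; ring
      have hB : Real.log (1 + 2 * (2 * (ε * s) / ε)) ≤ 6 * Λ := by
        rw [show 2 * (ε * s) / ε = 2 * s by field_simp, hsτ]
        have h8 : 8 ≤ τ ^ 3 := by
          have := pow_le_pow_left₀ (by norm_num : (0 : ℝ) ≤ 2) τ2 3
          linarith
        have h2 : 1 + 2 * (2 * τ ^ 3) ≤ τ ^ 6 := by
          rw [show τ ^ 6 = τ ^ 3 * τ ^ 3 by ring]; nlinarith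
        have := Real.log_le_log (by positivity) h2
        rw [Real.log_pow, hτ, Real.log_exp] at this
        rw [hτ]
        exact_mod_cast this
      have hI := D3 2 1 rfl (4 ^ 4 * (3 * (6 * Λ))) (by positivity) fun p hp =>
        (kern_crit (s := 2) (t := 1) rfl rfl le_rfl hp ε0 (by positivity)).trans (by linarith)
      have hI2 : ∫ x in cube 4, 1 / (D x ^ 2) ^ 2 ≤ 4609 * Λ / (ε * s) ^ 4 := by
        refine hI.trans ?_
        rw [← pow_mul, ← add_div]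
        exact div_le_div_of_nonneg_right (by linarith) (by positivity)
      have h4 := four hμ hm hs hD D0 D1 k0 D2 (r := ε * τ) (by positivity) Λ1
      rw [hM, ← hτ] at h4
      obtain ⟨Z, hZ⟩ : ∃ Z, Z = ∫ x in cube 4, 1 / (D x ^ 2) ^ 2 := ⟨_, rfl⟩
      rw [← hZ] at h4 hI2
      have e1 : μ ^ 2 * Z / Λ ^ 2 ≤ 1 / c ^ 2 * (m₀ ^ 2 * t * (4609 * Λ) / Λ ^ 2) := by
        refine (div_le_div_of_nonneg_right (mul_le_mul_of_nonneg_left hI2 (by positivity))
          (by positivity)).trans_eq ?_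
        rw [hμε, ← hsn]; field_simp
      have e2 : μ * m₀ / (ε * τ) ^ 2 = 1 / c * (m₀ ^ 2 * t / τ ^ 2) := by
        rw [hμε]; field_simp
      have e3 : (ε * τ * τ) ^ 4 * (κ * m₀) * Z ≤ m₀ ^ 2 * t * (4609 * Λ) / τ ^ 4 := by
        refine (mul_le_mul_of_nonneg_left hI2 (by positivity)).trans_eq ?_
        rw [hκt, hsτ]; field_simp
      have h5 := four_arith (F := ∫ x in cube 4, θ x) Λ1 hτ (x := m₀ ^ 2 * t) (by positivity)
        (256 * (4 * k + 444 * (4 : ℕ)) * (4 : ℕ) / c ^ 2) (4 * (2 * k + 36 * (4 : ℕ)) / c)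
        (by positivity) (h4.trans (by
          have := mul_le_mul_of_nonneg_left e1
            (show (0 : ℝ) ≤ 256 * (4 * k + 444 * (4 : ℕ)) * (4 : ℕ) by positivity)
          rw [e2]
          refine add_le_add (add_le_add (this.trans_eq (by ring)) (le_of_eq (by ring))) ?_
          linarith))
      rw [← hG] at h5
      refine fin (√(12 * G)) (by linarith) ?_
      refine le_of_pow_le_pow_left₀ two_ne_zero (by positivity) (h5.trans_eq ?_)
      rw [hΦ4, mul_pow, mul_pow, Real.sq_sqrt (by positivity), Real.sq_sqrt (by positivity), hΛ]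
      field_simp
    · refine fin 1 (by linarith) (hsq.trans_eq ?_)
      rw [Phi, if_neg (by omega), if_neg (by omega), if_neg (by omega), one_mul]
  · have h1 : t ^ (1 - (2 : ℝ) / n) = t / s ^ 2 := by
      rw [Real.rpow_sub t0, Real.rpow_one]
      congr 1
      rw [← hsn, ← Real.rpow_natCast, ← Real.rpow_mul hs0.le, ← Real.rpow_natCast]
      congr 1
      push_cast
      field_simp
    rw [h1] at h
    have h2 : 1 / c * m₀ * (t / s ^ 2) ≤ μ := le_trans (mul_le_mul_of_nonneg_right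
      (mul_le_mul_of_nonneg_right (by linarith) h0.le) (by positivity)) h
    have h3 : 1 ^ 2 ≤ (ε * s) ^ 2 := by
      have : (ε * s) ^ 2 = μ / (1 / c * m₀ * (t / s ^ 2)) := by
        have : ε ^ 2 = c * μ / (t * m₀) := by rw [← ε2, hκt]; field_simp
        rw [mul_pow, this]; field_simp
      rw [this, one_pow, le_div_iff₀ (by positivity), one_mul]
      exact h2
    have h4 : 1 ≤ ε * s := le_of_pow_le_pow_left₀ two_ne_zero (by positivity) h3
    have h5 : 1 ≤ (ε * s) ^ n := one_le_pow₀ h4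
    rw [mul_pow, hsn] at h5
    rw [hκt]
    nlinarith

theorem upper (hn : 2 ≤ n) : ∃ C : ℝ, 0 < C ∧ ∀ (μ κ m₀ : ℝ) (m θ : (Fin n → ℝ) → ℝ),
    0 < μ → 0 < m₀ → 2 * m₀ ≤ κ → Adm κ m₀ m → IsSol μ m θ →
    ∫ x in cube n, θ x ≤ C * m₀ * Phi n (κ / m₀) ∧
      (C * m₀ * Psi n (κ / m₀) ≤ μ → ∫ x in cube n, θ x ≤ C * m₀) := by
  rcases hn.eq_or_lt with rfl | h3
  · refine ⟨10 ^ 8, by positivity, fun μ κ m₀ m θ hμ h0 hκ ha hs => ?_⟩
    obtain ⟨m', h1, h2, h3⟩ := reduce (by linarith) ha hs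
    rw [Phi, Psi, if_pos rfl, if_pos rfl]
    exact upper_two hμ h0 hκ h1 h2 h3
  · obtain ⟨C, C0, hC⟩ := upper_high (n := n) h3
    refine ⟨C, C0, fun μ κ m₀ m θ hμ h0 hκ ha hs => ?_⟩
    obtain ⟨m', h1, h2, h4⟩ := reduce (by linarith) ha hs
    rw [Psi, if_neg (by omega)]
    exact hC μ κ m₀ m' θ hμ h0 hκ h1 h2 h4

end Pool.Agent.MP_478eab_an.V
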