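import Mathlib
import Pool.Agent.MP_478eab_an.V.High
import Pool.Agent.MP_478eab_an.V.Upper

/-! The lower bound in dimension at least three. -/

namespace Pool.Agent.MP_478eab_an.V

open MeasureTheory Set Filter Topology

variable {n : ℕ}

theorem choose_q (hn : 3 ≤ n) {ν t w : ℝ} (ν0 : 0 < ν) (ht : 2 ≤ t) (w1 : 1 ≤ w)
    (hw : w ^ n = t) : ∃ q a : ℝ, 1 ≤ q ∧ q + 1 ≤ n ∧ 0 ≤ 4 * q + 4 - 2 * n ∧ 0 < a ∧ a ≤ ν ∧
      (∀ s : ℝ, 0 < s → s ≤ 1 →
        12 * (a * (s ^ 2) ^ q) ≤ ν * s ^ 2 * (4 * q + 4 - 2 * n + s)) ∧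
      ν * (Phi n t / t) ^ 2 / (48 * 4 ^ n)
        ≤ (1 / (4 * w)) ^ 2 * (a * ((1 / (4 * w)) ^ 2) ^ q) := by
  have t0 : 0 < t := by linarith
  have w0 : 0 < w := by linarith
  have hl := log_ge ht
  rcases (show n = 3 ∨ n = 4 ∨ 5 ≤ n by omega) with rfl | rfl | h5
  · refine ⟨1, ν / 12, le_rfl, by norm_num, by norm_num, by positivity, by linarith,
      fun s s0 _ => ?_, le_of_eq ?_⟩
    · rw [Real.rpow_one]
      have : 0 < ν * s ^ 2 := by positivity
      push_cast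
      nlinarith
    · have hΦ3 : Phi 3 t = w := by
        rw [Phi, if_neg (by norm_num), if_pos rfl, ← hw, ← Real.rpow_natCast,
          ← Real.rpow_mul w0.le]
        norm_num
      rw [hΦ3, Real.rpow_one, ← hw]
      field_simp
      norm_num
  · obtain ⟨L, hL⟩ : ∃ L, L = Real.log ((4 * w) ^ 2) := ⟨_, rfl⟩
    have l2 := Real.log_two_gt_d9
    have l3 := Real.log_two_lt_d9
    have hlw : Real.log t = 4 * Real.log w := by rw [← hw, Real.log_pow]; norm_num
    have hL2 : L = 4 * Real.log 2 + Real.log t / 2 := by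
      rw [hL, Real.log_pow, Real.log_mul (by norm_num) w0.ne', hlw,
        show (4 : ℝ) = 2 ^ 2 by norm_num, Real.log_pow]
      push_cast; ring
    have L1 : 1 ≤ L := by linarith
    have L5 : L ≤ 5 * Real.log t := by linarith
    have i0 : 0 < 1 / L := by positivity
    have i1 : 1 / L ≤ 1 := by rw [div_le_one (by linarith)]; exact L1
    refine ⟨1 + 1 / L, ν * (1 / L) / 3, by linarith, by push_cast; linarith,
      by push_cast; linarith, by positivity, by nlinarith, fun s s0 s1 => ?_, ?_⟩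
    · have h1 : (s ^ 2) ^ (1 + 1 / L) ≤ s ^ 2 := by
        simpa using Real.rpow_le_rpow_of_exponent_ge (x := s ^ 2) (y := 1 + 1 / L) (z := 1)
          (by positivity) (by nlinarith) (by linarith)
      have h2 := mul_le_mul_of_nonneg_left h1 (show 0 ≤ ν * (1 / L) by positivity)
      have h3 : 0 < ν * s ^ 2 * s := by positivity
      push_cast
      nlinarith
    · have hΦ4 : Phi 4 t = √(t / Real.log t) := by
        rw [Phi, if_neg (by norm_num), if_neg (by norm_num), if_pos rfl]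
      have e1 : ((1 / (4 * w)) ^ 2) ^ (1 / L) = Real.exp (-1) := by
        rw [Real.rpow_def_of_pos (by positivity), one_div, inv_pow, Real.log_inv, ← hL]
        congr 1; field_simp
      have e2 : 1 / 3 ≤ Real.exp (-1) := by
        rw [Real.exp_neg, ← one_div]
        exact one_div_le_one_div_of_le (Real.exp_pos _) (by linarith [Real.exp_one_lt_d9])
      have e3 : 1 / (5 * Real.log t) ≤ 1 / L := one_div_le_one_div_of_le (by linarith) L5
      rw [hΦ4, div_pow, Real.sq_sqrt (by positivity), Real.rpow_add (by positivity),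
        Real.rpow_one, e1]
      calc _ = ν / (t * Real.log t) / 12288 := by field_simp; norm_num
        _ ≤ ν / (t * Real.log t) / 11520 :=
          div_le_div_of_nonneg_left (by positivity) (by norm_num) (by norm_num)
        _ = (1 / (4 * w)) ^ 2 * (ν * (1 / (5 * Real.log t)) / 3 * ((1 / (4 * w)) ^ 2 * (1 / 3))) := by
          rw [← hw]
          have : Real.log (w ^ 4) ≠ 0 := by rw [hw]; linarith
          field_simp; norm_num
        _ ≤ _ := by gcongr
  · have n5 : (5 : ℝ) ≤ n := by exact_mod_cast h5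
    refine ⟨n / 2 - 1, ν / 12, by linarith, by linarith, by linarith, by positivity, by linarith,
      fun s s0 s1 => ?_, ?_⟩
    · have h1 : (s ^ 2) ^ ((n : ℝ) / 2 - 1) ≤ s ^ 3 := by
        have := Real.rpow_le_rpow_of_exponent_ge (x := s ^ 2) (y := (n : ℝ) / 2 - 1) (z := 3 / 2)
          (by positivity) (by nlinarith) (by linarith)
        refine this.trans_eq ?_
        rw [← Real.rpow_natCast, ← Real.rpow_mul s0.le, ← Real.rpow_natCast]
        norm_num
      have h2 := mul_le_mul_of_nonneg_left h1 ν0.le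
      rw [show 4 * ((n : ℝ) / 2 - 1) + 4 - 2 * n + s = s by ring]
      nlinarith
    · have e1 : ((1 / (4 * w)) ^ 2) ^ ((n : ℝ) / 2 - 1) = (1 / (4 * w)) ^ n / (1 / (4 * w)) ^ 2 := by
        rw [Real.rpow_sub_one (by positivity), ← Real.rpow_natCast _ 2,
          ← Real.rpow_mul (by positivity), ← Real.rpow_natCast _ n]
        congr 2; push_cast; ring
      rw [Phi, if_neg (by omega), if_neg (by omega), if_neg (by omega), div_pow,
        Real.sq_sqrt t0.le, e1, div_pow 1 (4 * w) n, mul_pow 4 w n, hw]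
      calc _ = ν / (t * 4 ^ n) / 48 := by field_simp
        _ ≤ ν / (t * 4 ^ n) / 12 :=
          div_le_div_of_nonneg_left (by positivity) (by norm_num) (by norm_num)
        _ = _ := by field_simp; simp

theorem lower_high (hn : 3 ≤ n) : ∃ c₁ c₂ : ℝ, 0 < c₁ ∧ 0 < c₂ ∧ ∀ κ m₀ μ : ℝ, 0 < m₀ →
    2 * m₀ ≤ κ → c₁ * m₀ * Psi n (κ / m₀) / 4 < μ → μ ≤ c₁ * m₀ * Psi n (κ / m₀) →
    Good n μ κ m₀ (c₂ * m₀ * Phi n (κ / m₀)) := by
  obtain ⟨k, hk⟩ : ∃ k : ℝ, k = ((1 / (8 * (n + 1))) ^ 2) ^ n / (18 * (n + 1) ^ 2) := ⟨_, rfl⟩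
  have k0 : 0 < k := by rw [hk]; positivity
  refine ⟨k / 16, √((k / 4) ^ 2 / (48 * 4 ^ n) / (4 * (n + 1) ^ n)), by positivity,
    by positivity, fun κ m₀ μ h0 hκ h1 h2 => ?_⟩
  obtain ⟨t, ht⟩ : ∃ t, t = κ / m₀ := ⟨_, rfl⟩
  have hκ0 : 0 < κ := by linarith
  have ht2 : 2 ≤ t := by rw [ht, le_div_iff₀ h0]; exact hκ
  have t0 : 0 < t := by linarith
  have hκt : κ = t * m₀ := by rw [ht]; field_simp
  rw [← ht] at h1 h2 ⊢
  have hΦ := Phi_ge (n := n) ht2
  have hn0 : (0 : ℝ) < n := by exact_mod_cast (show 0 < n by omega)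
  obtain ⟨w, w0, hw⟩ : ∃ w : ℝ, 0 < w ∧ w ^ n = t :=
    ⟨t ^ (n : ℝ)⁻¹, by positivity, Real.rpow_inv_natCast_pow t0.le (by omega)⟩
  have w1 : 1 ≤ w := le_of_pow_le_pow_left₀ (n := n) (by omega) w0.le (by
    rw [one_pow, hw]; linarith)
  have hΨ : Psi n t = t / w ^ 2 := by
    rw [Psi, if_neg (by omega), Real.rpow_sub t0, Real.rpow_one]
    congr 1
    rw [← hw, ← Real.rpow_natCast, ← Real.rpow_mul w0.le, ← Real.rpow_natCast]
    congr 1
    push_cast
    field_simp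
  rw [hΨ] at h1 h2
  have μ0 : 0 < μ := lt_of_le_of_lt (by positivity) h1
  obtain ⟨ν, hν⟩ : ∃ ν, ν = 16 * w ^ 2 * μ := ⟨_, rfl⟩
  have ν0 : 0 < ν := by rw [hν]; positivity
  have ν1 : ν ≤ k * κ := by
    rw [hν]
    refine (mul_le_mul_of_nonneg_left h2 (by positivity)).trans_eq ?_
    rw [hκt]; field_simp
  have ν2 : k / 4 * κ ≤ ν := by
    rw [hν]
    refine le_trans (le_of_eq ?_) (mul_le_mul_of_nonneg_left h1.le (by positivity))
    rw [hκt]; field_simp
  have hμ : μ = ν * (1 / (4 * w)) ^ 2 := by rw [hν]; field_simp; norm_num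
  obtain ⟨m, θ, a1, a2, a3, a4, a5, a6⟩ := exists_res (n := n) (ε := 1 / (4 * w)) μ0 h0 hκ
    (by positivity) (by
      rw [show 4 * (1 / (4 * w)) = 1 / w by field_simp, div_pow, hw, hκt]; field_simp; simp)
  obtain ⟨q, a, b1, b2, b3, b4, b5, b6, b7⟩ := choose_q hn ν0 ht2 w1 hw
  refine ⟨m, θ, a1, a2, a3, a4, a5, le_trans ?_ (prof_high hn b1 b2 b3 b4 b5 (by positivity)
    (by rw [div_le_one (by positivity)]; linarith) hκ0 b6 ?_ hμ a5 a6)⟩
  · refine Real.le_sqrt_of_sq_le ?_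
    rw [mul_pow, mul_pow, Real.sq_sqrt (by positivity)]
    calc _ = (k / 4 * κ) * ((k / 4 * κ) * (Phi n t / t) ^ 2 / (48 * 4 ^ n)) / (4 * (n + 1) ^ n) := by
          rw [hκt]; field_simp
      _ ≤ ν * (ν * (Phi n t / t) ^ 2 / (48 * 4 ^ n)) / (4 * (n + 1) ^ n) := by gcongr
      _ ≤ ν * ((1 / (4 * w)) ^ 2 * (a * ((1 / (4 * w)) ^ 2) ^ q)) / (4 * (n + 1) ^ n) := by
          gcongr
      _ = _ := by rw [hμ]; ring
  · refine (mul_le_mul_of_nonneg_left ν1 (by positivity)).trans_eq ?_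
    rw [hk]; field_simp; norm_num

end Pool.Agent.MP_478eab_an.V
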