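import Mathlib
import Pool.Agent.MP_478eab_an.V.LowHigh

/-! The lower bound in dimension two, and the lower bound in general. -/

namespace Pool.Agent.MP_478eab_an.V

open MeasureTheory Set Filter Topology

theorem f_upper {R ρ : ℝ} (hR : 0 < R) (hρ : 0 < ρ) :
    ρ ^ 2 / (4 * (R ^ 2 + ρ ^ 2)) ≤ Real.log (R + ρ) - Real.log R - ρ / (R + ρ) ∧
    (Real.log (R + ρ) - Real.log R - ρ / (R + ρ)) ^ 2 ≤ 4 * ρ ^ 4 / (R * (R + ρ) ^ 3) := by
  have e : Real.log (R + ρ) - Real.log R = Real.log (1 + ρ / R) := by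
    rw [← Real.log_div (by positivity) hR.ne']; congr 1; field_simp
  have h1 : ρ ^ 2 / (4 * (R ^ 2 + ρ ^ 2)) ≤ Real.log (R + ρ) - Real.log R - ρ / (R + ρ) := by
    have := Real.le_log_one_add_of_nonneg (x := ρ / R) (by positivity)
    rw [e]
    refine le_trans ?_ (sub_le_sub_right this _)
    rw [show 2 * (ρ / R) / (ρ / R + 2) - ρ / (R + ρ) = ρ ^ 2 / ((ρ + 2 * R) * (R + ρ)) by
      field_simp; ring]
    refine div_le_div_of_nonneg_left (by positivity) (by positivity) ?_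
    nlinarith [sq_nonneg (R - ρ), mul_pos hR hρ]
  refine ⟨h1, ?_⟩
  obtain ⟨v, hv⟩ : ∃ v, v = √(1 + ρ / R) := ⟨_, rfl⟩
  have v2 : v ^ 2 = 1 + ρ / R := by rw [hv, Real.sq_sqrt (by positivity)]
  have v1 : 1 ≤ v := by
    rw [hv]; exact Real.one_le_sqrt.2 (by have : 0 < ρ / R := by positivity
                                          linarith)
  have v0 : 0 < v := by linarith
  have hρv : ρ = R * (v ^ 2 - 1) := by rw [v2]; field_simp; ring
  have h2 : Real.log (R + ρ) - Real.log R - ρ / (R + ρ) ≤ 2 * (v ^ 2 - 1) ^ 2 / v ^ 3 := by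
    rw [e, ← v2, Real.log_pow]
    have := Real.log_le_sub_one_of_pos v0
    have h3 : ρ / (R + ρ) = (v ^ 2 - 1) / v ^ 2 := by rw [hρv]; field_simp; ring
    have h4 : 2 * (v - 1) - (v ^ 2 - 1) / v ^ 2 ≤ 2 * (v ^ 2 - 1) ^ 2 / v ^ 3 := by
      rw [show 2 * (v - 1) - (v ^ 2 - 1) / v ^ 2 = (v - 1) ^ 2 * ((2 * v + 1) * v) / v ^ 3 by
        field_simp; ring, show 2 * (v ^ 2 - 1) ^ 2 = (v - 1) ^ 2 * (2 * (v + 1) ^ 2) by ring]
      exact div_le_div_of_nonneg_right (mul_le_mul_of_nonneg_left (by nlinarith) (sq_nonneg _))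
        (by positivity)
    rw [h3]
    push_cast
    linarith
  refine (pow_le_pow_left₀ (le_trans (by positivity) h1) h2 2).trans_eq ?_
  rw [show R + ρ = R * v ^ 2 by rw [hρv]; ring, hρv]
  field_simp
  ring

theorem prof_two {μ κ σ : ℝ} {m θ : (Fin 2 → ℝ) → ℝ} (μ0 : 0 < μ) (κ0 : 0 < κ) (σ0 : 0 < σ)
    (hL : 2 ≤ -Real.log σ) (hμ : 16 * μ ≤ κ * (σ ^ 4) ^ 2 * -Real.log σ) (h : Cl μ m θ)
    (hm : ∀ x, κ / 2 * ((σ ^ 4) ^ 2 / ((σ ^ 4) ^ 2 + nsq x)) ^ 2 ≤ m x) :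
    ∀ x ∈ cube 2, μ / 16 * (1 / (2 * σ ^ 4 + nsq x)) ≤ θ x := by
  have σ4 : σ ≤ 1 / 4 := by
    have h1 : Real.log σ ≤ Real.log (1 / 4) := by
      rw [one_div, Real.log_inv, show (4 : ℝ) = 2 ^ 2 by norm_num, Real.log_pow]
      have := Real.log_two_lt_d9
      push_cast; linarith
    exact (Real.log_le_log_iff σ0 (by norm_num)).1 h1
  obtain ⟨ρ, hρ⟩ : ∃ ρ, ρ = σ ^ 2 := ⟨_, rfl⟩
  have ρ0 : 0 < ρ := by rw [hρ]; positivity
  have hε : σ ^ 4 = ρ ^ 2 := by rw [hρ]; ring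
  rw [hε] at hμ hm ⊢
  obtain ⟨A, hA⟩ : ∃ A, A = μ / (4 * ρ ^ 2) := ⟨_, rfl⟩
  have A0 : 0 < A := by rw [hA]; positivity
  have hμA : μ = 4 * ρ ^ 2 * A := by rw [hA]; field_simp
  have hc := h.comp μ0 (δ := (ρ ^ 2) ^ 2)
    (g := fun y => A * (Real.log (√y + ρ) - Real.log (√y) - ρ / (√y + ρ)))
    (g1 := fun y => -(A * ρ ^ 2) / (2 * (√y * (√y + ρ)) ^ 2))
    (g2 := fun y => A * ρ ^ 2 * (2 * √y + ρ) / (2 * √y ^ 4 * (√y + ρ) ^ 3))
    (by positivity)
    (fun y hy => by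
      have r0 : 0 < √y := Real.sqrt_pos.2 hy
      have d := Real.hasDerivAt_sqrt hy.ne'
      have d1 := d.add_const ρ
      have p0 : √y + ρ ≠ 0 := by positivity
      refine ((((d1.log p0).fun_sub (d.log r0.ne')).fun_sub
        ((hasDerivAt_const y ρ).fun_div d1 p0)).const_mul A).congr_deriv ?_
      field_simp
      ring)
    (fun y hy => by
      have r0 : 0 < √y := Real.sqrt_pos.2 hy
      have d := Real.hasDerivAt_sqrt hy.ne'
      have d1 := d.add_const ρ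
      refine ((hasDerivAt_const y (-(A * ρ ^ 2))).fun_div
        (((d.fun_mul d1).fun_pow 2).const_mul 2) (by positivity)).congr_deriv ?_
      push_cast
      field_simp
      ring)
    (fun y y1 _ => by
      have r0 : 0 < √y := Real.sqrt_pos.2 (lt_of_lt_of_le (by positivity) y1)
      exact div_neg_of_neg_of_pos (neg_lt_zero.2 (by positivity)) (by positivity))
    (fun x _ => by
      have hx0 := nsq_nonneg x
      have hmx := hm x
      obtain ⟨R, hR⟩ : ∃ R, R = √((ρ ^ 2) ^ 2 + nsq x) := ⟨_, rfl⟩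
      have R0 : 0 < R := by rw [hR]; positivity
      have R2 : (ρ ^ 2) ^ 2 + nsq x = R ^ 2 := by rw [hR, Real.sq_sqrt (by positivity)]
      have hq : nsq x = R ^ 2 - (ρ ^ 2) ^ 2 := by linarith
      rw [← hR]
      rw [R2] at hmx
      obtain ⟨f1, f2⟩ := f_upper R0 ρ0
      obtain ⟨f, hf⟩ : ∃ f, f = Real.log (R + ρ) - Real.log R - ρ / (R + ρ) := ⟨_, rfl⟩
      rw [← hf] at f1 f2 ⊢
      have f0 : 0 ≤ f := le_trans (by positivity) f1
      have M0 : 0 ≤ m x := le_trans (by positivity) hmx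
      obtain ⟨T, hT⟩ : ∃ T, T = 4 * ρ ^ 4 / (R * (R + ρ) ^ 3) := ⟨_, rfl⟩
      have T0 : 0 < T := by rw [hT]; positivity
      obtain ⟨u, hu⟩ : ∃ u, u = (2 * R + ρ) * (ρ ^ 2) ^ 2 / R ^ 3 := ⟨_, rfl⟩
      have e : μ * (4 * nsq x * (A * ρ ^ 2 * (2 * R + ρ) / (2 * R ^ 4 * (R + ρ) ^ 3))
          + 2 * ((2 : ℕ) : ℝ) * (-(A * ρ ^ 2) / (2 * (R * (R + ρ)) ^ 2)))
          = A ^ 2 * (2 * T * (1 - u)) := by
        rw [hq, hT, hu, hμA]
        push_cast
        field_simp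
        ring
      rw [e]
      rw [← hT] at f2
      have g1 : A ^ 2 * f ^ 2 ≤ A ^ 2 * T := mul_le_mul_of_nonneg_left f2 (sq_nonneg A)
      have g2 : 0 ≤ A ^ 2 * T := by positivity
      rcases le_or_gt u (1 / 2) with h1 | h1
      · have g3 : 0 ≤ A * f * m x := by positivity
        have g4 := mul_le_mul_of_nonneg_left h1 g2
        nlinarith
      · have z1 : R ≤ σ * ρ := by
          by_contra hc
          push Not at hc
          have h2 : ρ / R ≤ 1 / σ := by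
            rw [div_le_div_iff₀ R0 σ0]; linarith
          have h3 : u = (2 + ρ / R) * (ρ ^ 2 * (ρ / R) ^ 2) := by rw [hu]; field_simp
          have h4 : (2 + ρ / R) * (ρ ^ 2 * (ρ / R) ^ 2) ≤ (2 + 1 / σ) * (ρ ^ 2 * (1 / σ) ^ 2) := by
            gcongr
          have h5 : (2 + 1 / σ) * (ρ ^ 2 * (1 / σ) ^ 2) = 2 * σ ^ 2 + σ := by
            rw [hρ]; field_simp
          nlinarith
        have f3 : -Real.log σ / 2 ≤ f := by
          have h2 : Real.log R ≤ Real.log σ + Real.log ρ := by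
            rw [← Real.log_mul σ0.ne' ρ0.ne']; exact Real.log_le_log R0 z1
          have h3 : Real.log ρ ≤ Real.log (R + ρ) := Real.log_le_log ρ0 (by linarith)
          have h4 : ρ / (R + ρ) ≤ 1 := by rw [div_le_one (by positivity)]; linarith
          linarith
        have g3 : A ^ 2 * (2 * T * u) ≤ A * (4 * μ * ((ρ ^ 2) ^ 2 / R ^ 4)) := by
          rw [show A ^ 2 * (2 * T * u) = A * (4 * μ * ((ρ ^ 2) ^ 2 / R ^ 4))
            * ((2 * R + ρ) * ρ ^ 2 / (2 * (R + ρ) ^ 3)) by rw [hT, hu, hμA]; field_simp; norm_num]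
          refine mul_le_of_le_one_right (by positivity) ?_
          rw [div_le_one (by positivity)]
          have := mul_pos R0 ρ0
          have h2 : ρ ^ 2 ≤ (R + ρ) ^ 2 := by nlinarith
          calc (2 * R + ρ) * ρ ^ 2 ≤ (2 * (R + ρ)) * (R + ρ) ^ 2 := by gcongr; linarith
            _ = _ := by ring
        have g4 : 4 * μ * ((ρ ^ 2) ^ 2 / R ^ 4) ≤ f * m x := by
          calc _ = 16 * μ * ((ρ ^ 2) ^ 2 / R ^ 4 / 4) := by ring
            _ ≤ κ * (ρ ^ 2) ^ 2 * -Real.log σ * ((ρ ^ 2) ^ 2 / R ^ 4 / 4) :=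
              mul_le_mul_of_nonneg_right hμ (by positivity)
            _ = -Real.log σ / 2 * (κ / 2 * ((ρ ^ 2) ^ 2 / R ^ 2) ^ 2) := by field_simp; ring
            _ ≤ f * m x := mul_le_mul f3 hmx (by positivity) f0
        have g5 := mul_le_mul_of_nonneg_left g4 A0.le
        nlinarith)
  intro x hx
  refine le_trans ?_ (hc x (cube_sub hx))
  have hx0 := nsq_nonneg x
  have y0 : 0 < (ρ ^ 2) ^ 2 + nsq x := by positivity
  refine le_trans ?_ (mul_le_mul_of_nonneg_left (f_upper (Real.sqrt_pos.2 y0) ρ0).1 A0.le)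
  rw [Real.sq_sqrt y0.le, show A * (ρ ^ 2 / (4 * ((ρ ^ 2) ^ 2 + nsq x + ρ ^ 2)))
    = μ / 16 * (1 / ((ρ ^ 2) ^ 2 + nsq x + ρ ^ 2)) by rw [hμA]; field_simp; norm_num]
  refine mul_le_mul_of_nonneg_left (one_div_le_one_div_of_le (by positivity) ?_) (by positivity)
  have h1 : ρ ≤ 1 := by rw [hρ]; nlinarith
  have h2 : ρ ^ 2 ≤ 1 := by nlinarith
  nlinarith [sq_nonneg ρ]

theorem int_log {ε : ℝ} (hε : 0 < ε) (J : ℕ) (hJ : ε * 4 ^ J ≤ 1) :
    ((J : ℝ) + 1) / 6 ≤ ∫ x in cube 2, 1 / (2 * ε + nsq x) := by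
  set b : ℕ → (Fin 2 → ℝ) → ℝ := fun j =>
    (Icc (0 : Fin 2 → ℝ) fun _ => (1 / 2) ^ j).indicator fun _ => (1 : ℝ) with hb
  have b0 : ∀ j x, b j x ≤ 1 := fun j x => by
    simp only [hb, indicator]; split_ifs <;> norm_num
  have bl : ∀ j, LB (b j) := fun j => LB.ind measurableSet_Icc
  have bi : ∀ j, ∫ x in cube 2, 4 ^ j * b j x = 1 := fun j => by
    rw [integral_const_mul, hb, setIntegral_indicator measurableSet_Icc, cube,
      inter_eq_right.2 (Icc_subset_Icc_right fun _ => pow_le_one₀ (by norm_num) (by norm_num))]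
    simp only [integral_const, Measure.real, Measure.restrict_apply_univ, Real.volume_Icc_pi,
      Pi.zero_apply, sub_zero, Finset.prod_const, Finset.card_univ, Fintype.card_fin,
      ENNReal.toReal_pow, smul_eq_mul, mul_one]
    rw [ENNReal.toReal_ofReal (by positivity), ← pow_mul, mul_comm j, pow_mul, ← mul_pow]
    norm_num
  have geo : ∀ K : ℕ, ∑ j ∈ Finset.range (K + 1), (4 : ℝ) ^ j ≤ 4 / 3 * 4 ^ K := fun K => by
    induction K with
    | zero => norm_num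
    | succ K ih => rw [Finset.sum_range_succ, pow_succ]; linarith
  have top : ∀ (K : ℕ) (x : Fin 2 → ℝ), ε * 4 ^ K ≤ 1 →
      x ∈ (Icc (0 : Fin 2 → ℝ) fun _ => (1 / 2) ^ K) →
      ∑ j ∈ Finset.range (K + 1), 4 ^ j * b j x ≤ 6 * (1 / (2 * ε + nsq x)) := fun K x hK hx => by
    have h0 := nsq_nonneg x
    have h1 : nsq x * 4 ^ K ≤ 2 := by
      have : ∀ i, x i ^ 2 * 4 ^ K ≤ 1 := fun i => by
        have h2 : x i ^ 2 ≤ ((1 / 2) ^ K) ^ 2 := pow_le_pow_left₀ (hx.1 i) (hx.2 i) 2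
        refine (mul_le_mul_of_nonneg_right h2 (by positivity)).trans_eq ?_
        rw [← pow_mul, mul_comm K, pow_mul, ← mul_pow]
        norm_num
      rw [nsq, Fin.sum_univ_two, add_mul]
      linarith [this 0, this 1]
    refine (Finset.sum_le_sum fun j _ => mul_le_of_le_one_right (by positivity) (b0 j x)).trans
      ((geo K).trans ?_)
    rw [mul_one_div, le_div_iff₀ (by positivity)]
    nlinarith
  have key : ∀ K : ℕ, ε * 4 ^ K ≤ 1 → ∀ x ∈ cube 2,
      ∑ j ∈ Finset.range (K + 1), 4 ^ j * b j x ≤ 6 * (1 / (2 * ε + nsq x)) := fun K => by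
    induction K with
    | zero => exact fun hK x hx => top 0 x hK ⟨hx.1, fun i => by simpa using hx.2 i⟩
    | succ K ih =>
      intro hK x hx
      by_cases h : x ∈ (Icc (0 : Fin 2 → ℝ) fun _ => (1 / 2) ^ (K + 1))
      · exact top _ x hK h
      · rw [Finset.sum_range_succ, show b (K + 1) x = 0 from indicator_of_notMem h _, mul_zero,
          add_zero]
        refine ih (le_trans ?_ hK) x hx
        exact mul_le_mul_of_nonneg_left (pow_le_pow_right₀ (by norm_num) (by omega)) hε.le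
  have hI : ∀ j, IntegrableOn (fun x => 4 ^ j * b j x) (cube 2) := fun j => ((bl j).cmul _).cube
  have hc : Continuous fun x : Fin 2 → ℝ => 1 / (2 * ε + nsq x) :=
    continuous_const.div (continuous_const.add nsq_cont) fun x => by
      have := nsq_nonneg x; positivity
  have := lin1 cube_meas (integrable_finsetSum _ fun j _ => hI j) (LB.of_cont hc).cube (key J hJ)
  rw [integral_finsetSum _ fun j _ => hI j] at this
  simp only [bi, Finset.sum_const, Finset.card_range, nsmul_eq_mul, mul_one] at this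
  push_cast at this
  linarith

theorem lower_two {κ m₀ μ : ℝ} (h0 : 0 < m₀) (hκ : 2 * m₀ ≤ κ)
    (h1 : 1 / 2048 * m₀ * Real.log (κ / m₀) / 4 < μ) (h2 : μ ≤ 1 / 2048 * m₀ * Real.log (κ / m₀)) :
    Good 2 μ κ m₀ (1 / 10 ^ 7 * m₀ * Real.log (κ / m₀) ^ 2) := by
  obtain ⟨t, ht⟩ : ∃ t, t = κ / m₀ := ⟨_, rfl⟩
  have hκ0 : 0 < κ := by linarith
  have ht2 : 2 ≤ t := by rw [ht, le_div_iff₀ h0]; exact hκ
  have t0 : 0 < t := by linarith
  have hκt : κ = t * m₀ := by rw [ht]; field_simp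
  rw [← ht] at h1 h2 ⊢
  have hl := log_ge ht2
  have μ0 : 0 < μ := lt_of_le_of_lt (by positivity) h1
  rcases le_or_gt (Real.log t) 16 with hs | hs
  · have z : ∀ (i : Fin 2) (c : ℝ), pd i (fun _ : Fin 2 → ℝ => c) = fun _ => 0 := fun i c =>
      funext (pd_const i c)
    refine ⟨fun _ => m₀, fun _ => m₀, continuous_const, fun _ _ _ => rfl,
      fun _ => ⟨h0.le, by linarith⟩, int_cube_const _, ⟨contDiff_const, fun i => ?_, fun x => ?_,
        fun _ _ _ => rfl, fun _ => h0⟩, ?_⟩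
    · rw [z]; exact differentiable_const _
    · simp [z]
    · rw [int_cube_const]
      have : Real.log t ^ 2 ≤ 16 ^ 2 := pow_le_pow_left₀ (by linarith) hs 2
      nlinarith
  have s0 : 0 < √t := Real.sqrt_pos.2 t0
  have s2 : √t ^ 2 = t := Real.sq_sqrt t0.le
  obtain ⟨σ, σ0, hσ⟩ : ∃ σ : ℝ, 0 < σ ∧ σ ^ 4 = 1 / (4 * √t) :=
    ⟨(1 / (4 * √t)) ^ ((4 : ℕ) : ℝ)⁻¹, by positivity,
      Real.rpow_inv_natCast_pow (by positivity) (by norm_num)⟩
  have hL : Real.log t / 8 ≤ -Real.log σ := by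
    have := congrArg Real.log hσ
    rw [Real.log_pow, one_div, Real.log_inv, Real.log_mul (by norm_num) s0.ne',
      Real.log_sqrt t0.le] at this
    have h4 : 0 ≤ Real.log 4 := Real.log_nonneg (by norm_num)
    push_cast at this
    linarith
  have hε : κ * (σ ^ 4) ^ 2 = m₀ / 16 := by
    rw [hσ, div_pow, mul_pow, s2, hκt]; field_simp; norm_num
  obtain ⟨m, θ, a1, a2, a3, a4, a5, a6⟩ := exists_res (n := 2) (ε := σ ^ 4) μ0 h0 hκ
    (by positivity) (by rw [mul_pow]; linarith)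
  have hp := prof_two μ0 hκ0 σ0 (by linarith) (by
    rw [hε]
    have := mul_le_mul_of_nonneg_left hL h0.le
    linarith) a5 a6
  obtain ⟨J, hJ⟩ : ∃ J : ℕ, J = ⌊Real.log t / 3⌋₊ := ⟨_, rfl⟩
  have J1 : (J : ℝ) ≤ Real.log t / 3 := hJ ▸ Nat.floor_le (by positivity)
  have J2 : Real.log t / 3 < J + 1 := hJ ▸ Nat.lt_floor_add_one _
  have J3 : (4 : ℝ) ^ J ≤ √t := by
    refine (Real.log_le_log_iff (by positivity) s0).1 ?_
    rw [Real.log_pow, Real.log_sqrt t0.le, show (4 : ℝ) = 2 ^ 2 by norm_num, Real.log_pow]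
    have := Real.log_two_lt_d9
    have h3 : (J : ℝ) * (2 * Real.log 2) ≤ Real.log t / 3 * (3 / 2) :=
      mul_le_mul J1 (by linarith) (by positivity) (by positivity)
    push_cast
    linarith
  have hI := int_log (ε := σ ^ 4) (by positivity) J (by
    rw [hσ, one_div, inv_mul_le_iff₀ (by positivity)]; linarith)
  refine ⟨m, θ, a1, a2, a3, a4, a5, ?_⟩
  have hc : Continuous fun x : Fin 2 → ℝ => 1 / (2 * σ ^ 4 + nsq x) :=
    continuous_const.div (continuous_const.add nsq_cont) fun x => by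
      have := nsq_nonneg x; positivity
  have h3 := setIntegral_mono_on ((LB.of_cont hc).cmul (μ / 16)).cube
    (LB.of_cont a5.cd.continuous).cube cube_meas hp
  rw [integral_const_mul] at h3
  refine le_trans ?_ h3
  calc _ ≤ (1 / 2048 * m₀ * Real.log t / 4) / 16 * (Real.log t / 3 / 6) := by
        have : 0 ≤ m₀ * Real.log t ^ 2 := by positivity
        nlinarith
    _ ≤ _ := mul_le_mul (by linarith) (by linarith) (by positivity) (by positivity)

theorem lower {n : ℕ} (hn : 2 ≤ n) : ∃ c : ℝ, 0 < c ∧ ∀ κ m₀ μ : ℝ, 0 < m₀ → 2 * m₀ ≤ κ →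
    0 < μ → μ ≤ c * m₀ * Psi n (κ / m₀) → ∃ m θ : (Fin n → ℝ) → ℝ, Adm κ m₀ m ∧ IsSol μ m θ ∧
      c * m₀ * Phi n (κ / m₀) ≤ ∫ x in cube n, θ x := by
  obtain ⟨c₁, c₂, p1, p2, H⟩ : ∃ c₁ c₂ : ℝ, 0 < c₁ ∧ 0 < c₂ ∧ ∀ κ m₀ μ : ℝ, 0 < m₀ →
      2 * m₀ ≤ κ → c₁ * m₀ * Psi n (κ / m₀) / 4 < μ → μ ≤ c₁ * m₀ * Psi n (κ / m₀) →
      Good n μ κ m₀ (c₂ * m₀ * Phi n (κ / m₀)) := by
    rcases hn.eq_or_lt with rfl | h3
    · refine ⟨1 / 2048, 1 / 10 ^ 7, by norm_num, by norm_num, fun κ m₀ μ h0 hκ h1 h2 => ?_⟩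
      rw [Psi, if_pos rfl] at h1 h2
      rw [Phi, if_pos rfl]
      exact lower_two h0 hκ h1 h2
    · exact lower_high h3
  refine ⟨min c₁ c₂, lt_min p1 p2, fun κ m₀ μ h0 hκ hμ hle => ?_⟩
  have ht2 : 2 ≤ κ / m₀ := by rw [le_div_iff₀ h0]; exact hκ
  have hΦ := Phi_ge (n := n) ht2
  have hΨ : 0 ≤ Psi n (κ / m₀) := by
    have := log_ge ht2
    unfold Psi
    split_ifs
    · linarith
    · positivity
  obtain ⟨m, θ, a1, a2, a3⟩ := (Good.all (fun μ => H κ m₀ μ h0 hκ) hμ (hle.trans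
    (mul_le_mul_of_nonneg_right (mul_le_mul_of_nonneg_right (min_le_left _ _) h0.le) hΨ))).final
    (by omega) hμ
  exact ⟨m, θ, a1, a2, le_trans (mul_le_mul_of_nonneg_right
    (mul_le_mul_of_nonneg_right (min_le_right _ _) h0.le) (by linarith)) a3⟩

end Pool.Agent.MP_478eab_an.V
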